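import Pool.Agent.H973R3.NC.Defs

/-! # Task A4: local four-arm events -/

namespace H973N

open H974 H12S Finset

theorem piv_A4 {I J : Set Vtx} {η : Set Edg} {e : Edg} {a b c d : ℤ} (he : inR a b c d (src e))
    (he' : inR a b c d (tgt e)) (hI : Off a b c d I J) (h1 : Cn I J (insert e η))
    (h2 : ¬ Cn I J (η \ {e})) : A4 a b c d e η := by
  obtain ⟨u, hu, v, hv, huv⟩ := h1
  have e1 : insert e η = insert e (η \ {e}) := by
    ext g
    by_cases hg : g = e <;> simp [hg]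
  rw [e1] at huv
  have e2 : (η \ {e}) ∩ ↑(RE a b c d) = (η ∩ ↑(RE a b c d)) \ {e} := by
    ext g
    simp only [Set.mem_inter_iff, Set.mem_sdiff]
    tauto
  have hout : ∀ z ∈ I ∪ J, z.1 ≤ a ∨ b ≤ z.1 ∨ z.2 ≤ c ∨ d ≤ z.2 := by
    intro z hz
    have := hI z hz
    by_contra hcon
    push Not at hcon
    exact this ⟨⟨hcon.1, hcon.2.1⟩, hcon.2.2.1, hcon.2.2.2⟩
  have hex : ∀ x z : Vtx, inR a b c d x → z ∈ I ∪ J → Reach (η \ {e}) x z →
      ∃ w ∈ bdR a b c d, Reach ((η ∩ ↑(RE a b c d)) \ {e}) x w := by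
    intro x z hx hz hxz
    obtain ⟨w, k1, k2, k3⟩ := first_exit hx hxz (hout z hz)
    rw [e2] at k3
    exact ⟨w, ⟨k1, k2⟩, k3⟩
  have hmono : ∀ x y : Vtx, Reach ((η ∩ ↑(RE a b c d)) \ {e}) x y → Reach (η \ {e}) x y := by
    intro x y hxy
    refine hxy.mono ?_
    rw [← e2]
    exact Set.inter_subset_left
  have h3 : Reach (η \ {e}) u v ∨ (Reach (η \ {e}) u (src e) ∧ Reach (η \ {e}) (tgt e) v) ∨
      (Reach (η \ {e}) u (tgt e) ∧ Reach (η \ {e}) (src e) v) := by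
    have := (GR_insert (s := src) (t := tgt) (F := η \ {e}) (e := e) (x := u) (y := v)).mp huv
    exact this
  rcases h3 with h3 | ⟨h3, h4⟩ | ⟨h3, h4⟩
  · exact absurd ⟨u, hu, v, hv, h3⟩ h2
  · refine ⟨hex _ u he (Or.inl hu) h3.symm, hex _ v he' (Or.inr hv) h4, ?_⟩
    intro h5
    exact h2 ⟨u, hu, v, hv, (h3.trans (hmono _ _ h5)).trans h4⟩
  · refine ⟨hex _ v he (Or.inr hv) h4, hex _ u he' (Or.inl hu) h3.symm, ?_⟩
    intro h5
    exact h2 ⟨u, hu, v, hv, (h3.trans (hmono _ _ h5).symm).trans h4⟩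

theorem A4_congr {a b c d : ℤ} {e : Edg} {F F' : Set Edg}
    (h : ∀ g ∈ RE a b c d, g ≠ e → (g ∈ F ↔ g ∈ F')) : A4 a b c d e F ↔ A4 a b c d e F' := by
  have e1 : (F ∩ ↑(RE a b c d)) \ {e} = (F' ∩ ↑(RE a b c d)) \ {e} := by
    ext g
    simp only [Set.mem_sdiff, Set.mem_inter_iff, Finset.mem_coe, Set.mem_singleton_iff]
    constructor
    · rintro ⟨⟨h1, h2⟩, h3⟩
      exact ⟨⟨(h g h2 h3).mp h1, h2⟩, h3⟩
    · rintro ⟨⟨h1, h2⟩, h3⟩
      exact ⟨⟨(h g h2 h3).mpr h1, h2⟩, h3⟩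
  unfold A4
  rw [e1]

/-- The four-arm event is invariant under translations. -/
theorem A4_trl (x y : ℤ) (ρ : ℕ) (b : Bool) (F : Finset Edg) :
    L4 ρ (x, y, b) (↑((trl x y).mp F) : Set Edg) ↔ A4 (-ρ) ρ (-ρ) ρ (e0 b) (↑F : Set Edg) := by
  have e1 : ((↑((trl x y).mp F) : Set Edg) ∩ ↑(RE (x - ρ) (x + ρ) (y - ρ) (y + ρ))) \ {(x, y, b)} =
      (trl x y).φ '' (((↑F : Set Edg) ∩ ↑(RE (-ρ : ℤ) ρ (-ρ) ρ)) \ {e0 b}) := by
    ext ⟨x1, y1, b1⟩
    simp only [Set.mem_sdiff, Set.mem_inter_iff, Finset.mem_coe, Set.mem_singleton_iff,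
      LSym.mem_mp, trl_φs, Set.mem_image]
    constructor
    · rintro ⟨⟨h1, h2⟩, h3⟩
      refine ⟨(x1 - x, y1 - y, b1), ⟨⟨h1, ?_⟩, ?_⟩, ?_⟩
      · cases b1
        · rw [mem_RE_false] at h2 ⊢; omega
        · rw [mem_RE_true] at h2 ⊢; omega
      · intro h4
        apply h3
        unfold e0 at h4
        simp only [Prod.mk.injEq] at h4 ⊢
        exact ⟨by omega, by omega, h4.2.2⟩
      · rw [trl_φ]
        simp
    · rintro ⟨⟨x2, y2, b2⟩, ⟨⟨h1, h2⟩, h3⟩, h4⟩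
      rw [trl_φ] at h4
      simp only [Prod.mk.injEq] at h4
      obtain ⟨h5, h6, rfl⟩ := h4
      subst h5
      subst h6
      refine ⟨⟨?_, ?_⟩, ?_⟩
      · simpa using h1
      · cases b2
        · rw [mem_RE_false] at h2 ⊢; omega
        · rw [mem_RE_true] at h2 ⊢; omega
      · intro h4
        apply h3
        unfold e0
        simp only [Prod.mk.injEq] at h4 ⊢
        exact ⟨by omega, by omega, h4.2.2⟩
  have hr : ∀ u v : Vtx, Reach (((↑((trl x y).mp F) : Set Edg) ∩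
      ↑(RE (x - ρ) (x + ρ) (y - ρ) (y + ρ))) \ {(x, y, b)}) (u.1 + x, u.2 + y) (v.1 + x, v.2 + y) ↔
      Reach (((↑F : Set Edg) ∩ ↑(RE (-ρ : ℤ) ρ (-ρ) ρ)) \ {e0 b}) u v := by
    intro u v
    rw [e1]
    exact (trl x y).reach_iff
  have hsrc : src (x, y, b) = ((src (e0 b)).1 + x, (src (e0 b)).2 + y) := by
    unfold e0
    simp
  have htgt : tgt (x, y, b) = ((tgt (e0 b)).1 + x, (tgt (e0 b)).2 + y) := by
    unfold e0
    cases b <;> simp [add_comm]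
  have hbd : ∀ z : Vtx, (∃ w ∈ bdR (x - ρ) (x + ρ) (y - ρ) (y + ρ),
      Reach (((↑((trl x y).mp F) : Set Edg) ∩ ↑(RE (x - ρ) (x + ρ) (y - ρ) (y + ρ))) \
        {(x, y, b)}) (z.1 + x, z.2 + y) w) ↔
      ∃ w ∈ bdR (-ρ) ρ (-ρ) ρ, Reach (((↑F : Set Edg) ∩ ↑(RE (-ρ : ℤ) ρ (-ρ) ρ)) \ {e0 b}) z w := by
    intro z
    constructor
    · rintro ⟨⟨w1, w2⟩, hw, h⟩
      refine ⟨(w1 - x, w2 - y), ?_, ?_⟩
      · unfold bdR inR at hw ⊢
        simp only [Set.mem_ofPred_eq] at hw ⊢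
        omega
      · rw [← hr]
        simpa using h
    · rintro ⟨⟨w1, w2⟩, hw, h⟩
      refine ⟨(w1 + x, w2 + y), ?_, ?_⟩
      · unfold bdR inR at hw ⊢
        simp only [Set.mem_ofPred_eq] at hw ⊢
        omega
      · exact (hr z (w1, w2)).mpr h
  unfold L4 A4
  simp only [hsrc, htgt]
  rw [hbd, hbd, hr]

theorem pr_L4 {q : ℝ} (h0 : 0 ≤ q) (h1 : q ≤ 1) {ρ : ℕ} {e : Edg} {S : Finset Edg}
    (hS : blk (bp e) ρ ⊆ S) : PQ q S (fun F => L4 ρ e ↑F) ≤ a4 q ρ := by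
  obtain ⟨x, y, b⟩ := e
  have hok : Ok (fun _ : Edg => q) := fun _ => ⟨h0, h1⟩
  have e1 : PQ q S (fun F => L4 ρ (x, y, b) (↑F : Set Edg)) =
      PQ q (blk (x, y) ρ) (fun F => L4 ρ (x, y, b) (↑F : Set Edg)) := by
    refine Pr_local hS ?_
    intro F _
    refine A4_congr ?_
    intro g hg _
    rw [Finset.coe_inter]
    constructor
    · intro h
      exact ⟨h, Finset.mem_coe.mpr hg⟩
    · intro h
      exact h.1
  have e2 : blk (x, y) ρ = (trl x y).mp (boxE ρ) := by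
    unfold blk boxE
    rw [trl_RE]
    congr 1 <;> simp only <;> ring
  have e3 : PQ q S (fun F => L4 ρ (x, y, b) (↑F : Set Edg)) =
      PQ q (boxE ρ) (fun F => A4 (-ρ) ρ (-ρ) ρ (e0 b) (↑F : Set Edg)) := by
    rw [e1, e2]
    unfold PQ
    rw [LSym.pr]
    refine Pr_congr fun F _ => ?_
    exact A4_trl x y ρ b F
  rw [e3]
  unfold a4
  have n1 : 0 ≤ PQ q (boxE ρ) (fun F => A4 (-ρ) ρ (-ρ) ρ (e0 true) (↑F : Set Edg)) :=
    Pr_nonneg hok _ _
  have n2 : 0 ≤ PQ q (boxE ρ) (fun F => A4 (-ρ) ρ (-ρ) ρ (e0 false) (↑F : Set Edg)) :=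
    Pr_nonneg hok _ _
  cases b
  · linarith
  · linarith

/-- Local four-arm event from pivotality, with forced open edges away from the ball. -/
theorem piv_L4 {I J : Set Vtx} {O : Set Edg} {ρ : ℕ} (hρ : 1 ≤ ρ) {e : Edg} {F : Finset Edg}
    (hO : ∀ g ∈ O, g ∉ blk (bp e) ρ)
    (hI : Off (e.1 - ρ) (e.1 + ρ) (e.2.1 - ρ) (e.2.1 + ρ) I J)
    (h : Pf (CO I J O) e F) : L4 ρ e ↑F := by
  obtain ⟨x, y, b⟩ := e
  have heb : ((x, y, b) : Edg) ∈ blk (bp (x, y, b)) ρ := by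
    unfold blk bp
    cases b
    · rw [mem_RE_false]
      simp only
      omega
    · rw [mem_RE_true]
      simp only
      omega
  have heO : ((x, y, b) : Edg) ∉ O := fun h' => hO _ h' heb
  obtain ⟨h1, h2⟩ := h
  have key : A4 (x - ρ) (x + ρ) (y - ρ) (y + ρ) (x, y, b) ((↑F : Set Edg) ∪ O) := by
    refine piv_A4 (I := I) (J := J) ?_ ?_ hI ?_ ?_
    · unfold inR
      simp only [src_mk]
      omega
    · unfold inR
      cases b
      · simp only [tgt_false]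
        omega
      · simp only [tgt_true]
        omega
    · unfold CO at h1
      rw [Finset.coe_insert] at h1
      rwa [← Set.insert_union]
    · intro h3
      apply h2
      unfold CO
      have e1 : ((↑F : Set Edg) ∪ O) \ {(x, y, b)} = (↑(F.erase (x, y, b)) : Set Edg) ∪ O := by
        ext g
        simp only [Set.mem_sdiff, Set.mem_union, Finset.mem_coe, Set.mem_singleton_iff,
          Finset.mem_erase]
        constructor
        · rintro ⟨hg | hg, hne⟩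
          · exact Or.inl ⟨hne, hg⟩
          · exact Or.inr hg
        · rintro (⟨hne, hg⟩ | hg)
          · exact ⟨Or.inl hg, hne⟩
          · exact ⟨Or.inr hg, fun h' => heO (h' ▸ hg)⟩
      rwa [← e1]
  refine (A4_congr ?_).mp key
  intro g hg _
  constructor
  · rintro (h3 | h3)
    · exact h3
    · exact absurd hg (hO g h3)
  · intro h3
    exact Or.inl h3

end H973N
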