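import Pool.Agent.H973R3.NC.Defs

/-!
Near-critical module: continuity argument.
-/

namespace H973N

open H974 H12S Finset

theorem bootstrap {ι : Type*} [Finite ι] (g : ι → ℝ → ℝ) (δ : ℝ) (hg : ∀ i, Continuous (g i))
    (h0 : ∀ i, g i 0 < 0)
    (h : ∀ t, 0 ≤ t → t ≤ δ → (∀ s, 0 ≤ s → s ≤ t → ∀ i, g i s ≤ 0) → ∀ i, g i t < 0) :
    ∀ t, 0 ≤ t → t ≤ δ → ∀ i, g i t < 0 := by
  intro t ht0 htδ i
  by_contra hne
  push Not at hne
  set S : Set ℝ := Set.Icc 0 δ ∩ ⋃ i, {s | 0 ≤ g i s} with hS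
  have hcl : IsClosed (⋃ i, {s | 0 ≤ g i s}) :=
    isClosed_iUnion_of_finite fun i => isClosed_le continuous_const (hg i)
  have hSc : IsCompact S := isCompact_Icc.inter_right hcl
  have hSne : S.Nonempty := ⟨t, ⟨ht0, htδ⟩, Set.mem_iUnion.2 ⟨i, hne⟩⟩
  obtain ⟨t0, ht0S, hmin⟩ := hSc.exists_isLeast hSne
  obtain ⟨⟨h1, h2⟩, h3⟩ := ht0S
  obtain ⟨i0, hi0⟩ := Set.mem_iUnion.1 h3
  have hlt : ∀ s, 0 ≤ s → s < t0 → ∀ j, g j s < 0 := by
    intro s hs hst j
    by_contra hj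
    push Not at hj
    exact absurd (hmin ⟨⟨hs, by linarith⟩, Set.mem_iUnion.2 ⟨j, hj⟩⟩) (not_le.2 hst)
  have hpos : 0 < t0 := by
    rcases h1.eq_or_lt with h4 | h4
    · rw [← h4] at hi0
      exact absurd (h0 i0) (not_lt.2 hi0)
    · exact h4
  have hle : ∀ j, g j t0 ≤ 0 := by
    intro j
    have hcl2 : IsClosed {s | g j s ≤ 0} := isClosed_le (hg j) continuous_const
    have hsub : Set.Ico 0 t0 ⊆ {s | g j s ≤ 0} := fun s hs => (hlt s hs.1 hs.2 j).le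
    have := closure_minimal hsub hcl2
    rw [closure_Ico hpos.ne] at this
    exact this ⟨h1, le_refl _⟩
  have := h t0 h1 h2 (fun s hs hst j => by
    rcases hst.eq_or_lt with h5 | h5
    · rw [h5]; exact hle j
    · exact (hlt s hs h5 j).le) i0
  exact absurd this (not_lt.2 hi0)

/-- Continuity in the parameter. -/
theorem cont_Pr {E : Type*} [DecidableEq E] (S : Finset E) (A : Finset E → Prop) :
    Continuous (fun q : ℝ => Pr (fun _ => q) S A) := by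
  unfold Pr Ex
  fun_prop

end H973N
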