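import Pool.Agent.H973R3.NC.Defs

/-! Derivatives of probabilities and of sums of influences. -/

namespace H973N

open H974 H12S Finset

section DV
variable {E : Type*} [DecidableEq E]

theorem dv_Pf_local {S : Finset E} {f : Finset E → Prop} {e : E} :
    ∀ F, F ⊆ S → (Pf f e F ↔ Pf f e (F ∩ S.erase e)) := by
  intro F hF
  have h1 : insert e (F ∩ S.erase e) = insert e F := by
    ext x
    simp only [mem_insert, mem_inter, mem_erase]
    constructor
    · rintro (h | ⟨h, _⟩)
      · exact Or.inl h
      · exact Or.inr h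
    · rintro (h | h)
      · exact Or.inl h
      · by_cases hx : x = e
        · exact Or.inl hx
        · exact Or.inr ⟨h, hx, hF h⟩
  have h2 : (F ∩ S.erase e).erase e = F.erase e := by
    ext x
    simp only [mem_inter, mem_erase]
    constructor
    · rintro ⟨h, h2, _⟩
      exact ⟨h, h2⟩
    · rintro ⟨h, h2⟩
      exact ⟨h, h2, h, hF h2⟩
  unfold Pf
  rw [h1, h2]

theorem deriv_f (S : Finset E) (f : Finset E → Prop) (hf : ∀ F G : Finset E, F ⊆ G → f F → f G)
    (q : ℝ) :
    HasDerivAt (fun q : ℝ => Pr (fun _ => q) S f) (∑ e ∈ S, Pr (fun _ => q) S (Pf f e)) q := by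
  have h := Ex_hasDerivAt (E := E) (fun q _ => q) (fun _ => (1:ℝ)) q
    (fun _ => hasDerivAt_id q) S (fun F => ind (f F))
  have hs : (∑ e ∈ S, (1:ℝ) * Ex (fun _ => q) (S.erase e)
        (fun F => ind (f (insert e F)) - ind (f F))) = ∑ e ∈ S, Pr (fun _ => q) S (Pf f e) := by
    apply sum_congr rfl
    intro e he
    rw [one_mul, Pr_local (erase_subset e S) dv_Pf_local]
    unfold Pr
    apply Ex_congr
    intro F hF
    have heF : F.erase e = F := erase_eq_of_notMem (fun h => (mem_erase.mp (hF h)).1 rfl)
    by_cases h0 : f F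
    · have h1 : f (insert e F) := hf _ _ (subset_insert _ _) h0
      rw [ind_of h0, ind_of h1, ind_not_of (P := Pf f e F)]
      · ring
      · rintro ⟨_, h3⟩
        rw [heF] at h3
        exact h3 h0
    · rw [ind_not_of h0, sub_zero]
      apply ind_congr
      unfold Pf
      rw [heF]
      exact ⟨fun h => ⟨h, h0⟩, fun h => h.1⟩
  rw [← hs]
  exact h

theorem dv_SD_local {S : Finset E} {f : Finset E → Prop} {e g : E} (hge : g ≠ e) :
    ∀ F, F ⊆ S → (SD f e g F ↔ SD f e g (F ∩ S.erase g)) := by
  intro F hF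
  have k1 : (F ∩ S.erase g).erase g = F.erase g := by
    ext x
    simp only [mem_inter, mem_erase]
    constructor
    · rintro ⟨h, h2, _⟩
      exact ⟨h, h2⟩
    · rintro ⟨h, h2⟩
      exact ⟨h, h2, h, hF h2⟩
  have k2 : insert g (F ∩ S.erase g) = insert g F := by
    ext x
    simp only [mem_insert, mem_inter, mem_erase]
    constructor
    · rintro (h | ⟨h, _⟩)
      · exact Or.inl h
      · exact Or.inr h
    · rintro (h | h)
      · exact Or.inl h
      · by_cases hx : x = g
        · exact Or.inl hx
        · exact Or.inr ⟨h, hx, hF h⟩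
  have k3 : insert g ((F ∩ S.erase g).erase e) = insert g (F.erase e) := by
    rw [← erase_insert_of_ne hge, ← erase_insert_of_ne hge, k2]
  have k4 : ((F ∩ S.erase g).erase e).erase g = (F.erase e).erase g := by
    rw [erase_right_comm, k1, erase_right_comm]
  have k5 : insert g (insert e (F ∩ S.erase g)) = insert g (insert e F) := by
    rw [Finset.insert_comm, k2, Finset.insert_comm]
  have k6 : (insert e (F ∩ S.erase g)).erase g = (insert e F).erase g := by
    rw [erase_insert_of_ne hge.symm, erase_insert_of_ne hge.symm, k1]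
  unfold SD Pf
  rw [k1, k2, k3, k4, k5, k6]

theorem dv_point {f : Finset E → Prop} (hf : ∀ F G : Finset E, F ⊆ G → f F → f G)
    {e g : E} (hge : g ≠ e) {F : Finset E} (hgF : g ∉ F) :
    |ind (Pf f e (insert g F)) - ind (Pf f e F)| ≤ ind (SD f e g F) := by
  have eg : F.erase g = F := erase_eq_of_notMem hgF
  by_cases hA : Pf f e (insert g F)
  · by_cases hB : Pf f e F
    · rw [ind_of hA, ind_of hB]
      simpa using ind_nonneg _
    · have hSD : SD f e g F := by
        obtain ⟨a1, a2⟩ := hA
        have b1 : ¬ f (F.erase e) := fun h => a2 (hf _ _ (erase_subset_erase _ (subset_insert _ _)) h)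
        have b2 : ¬ f (insert e F) := fun h => hB ⟨h, b1⟩
        refine ⟨Or.inr ⟨a1, a2⟩, Or.inr ⟨?_, ?_⟩, a1, ?_⟩
        · rwa [Finset.insert_comm]
        · exact fun h => b2 (hf _ _ (erase_subset _ _) h)
        · exact fun h => b1 (hf _ _ (erase_subset _ _) h)
      rw [ind_of hA, ind_not_of hB, ind_of hSD]
      norm_num
  · by_cases hB : Pf f e F
    · have hSD : SD f e g F := by
        obtain ⟨b1, b2⟩ := hB
        have a1 : f (insert e (insert g F)) :=
          hf _ _ (insert_subset_insert _ (subset_insert _ _)) b1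
        have a2 : f ((insert g F).erase e) := by
          by_contra h
          exact hA ⟨a1, h⟩
        have b3 : ¬ f ((F.erase e).erase g) := fun h => b2 (hf _ _ (erase_subset _ _) h)
        refine ⟨Or.inl ⟨?_, ?_⟩, Or.inl ⟨?_, b3⟩, a1, b3⟩
        · rwa [eg]
        · rwa [eg]
        · rwa [← erase_insert_of_ne hge]
      rw [ind_not_of hA, ind_of hB, ind_of hSD]
      norm_num
    · rw [ind_not_of hA, ind_not_of hB]
      simpa using ind_nonneg _

theorem deriv_T (S core : Finset E) (hc : core ⊆ S) (f : Finset E → Prop)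
    (hf : ∀ F G : Finset E, F ⊆ G → f F → f G) (q : ℝ) (h0 : 0 ≤ q) (h1 : q ≤ 1) :
    ∃ D : ℝ, HasDerivAt (fun q : ℝ => ∑ e ∈ core, Pr (fun _ => q) S (Pf f e)) D q ∧
      |D| ≤ ∑ e ∈ core, ∑ g ∈ S.erase e, Pr (fun _ => q) S (SD f e g) := by
  have hok : Ok (fun _ : E => q) := fun _ => ⟨h0, h1⟩
  refine ⟨∑ e ∈ core, ∑ g ∈ S, (1:ℝ) * Ex (fun _ => q) (S.erase g)
      (fun F => ind (Pf f e (insert g F)) - ind (Pf f e F)), ?_, ?_⟩
  · have := HasDerivAt.fun_sum (u := core) (x := q)
      (A := fun e => fun q : ℝ => Pr (fun _ => q) S (Pf f e))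
      (A' := fun e => ∑ g ∈ S, (1:ℝ) * Ex (fun _ => q) (S.erase g)
        (fun F => ind (Pf f e (insert g F)) - ind (Pf f e F)))
      (fun e _ => Ex_hasDerivAt (E := E) (fun q _ => q) (fun _ => (1:ℝ)) q
        (fun _ => hasDerivAt_id q) S (fun F => ind (Pf f e F)))
    exact this
  · refine (abs_sum_le_sum_abs _ _).trans (sum_le_sum ?_)
    intro e he
    have heS := hc he
    have hz : ∀ F : Finset E, ind (Pf f e (insert e F)) - ind (Pf f e F) = 0 := by
      intro F
      have : Pf f e (insert e F) ↔ Pf f e F := by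
        unfold Pf
        rw [insert_idem, erase_insert_eq_erase]
      rw [ind_congr this, sub_self]
    rw [← add_sum_erase S _ heS]
    have hz' : Ex (fun _ => q) (S.erase e)
        (fun F => ind (Pf f e (insert e F)) - ind (Pf f e F)) = 0 := by
      rw [Ex_congr (g := fun _ => (0:ℝ)) (fun F _ => hz F), Ex_const]
    rw [hz', mul_zero, zero_add]
    refine (abs_sum_le_sum_abs _ _).trans (sum_le_sum ?_)
    intro g hg
    have hge : g ≠ e := (mem_erase.mp hg).1
    rw [one_mul, Pr_local (erase_subset g S) (dv_SD_local hge)]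
    unfold Pr
    have hb : ∀ F, F ⊆ S.erase g →
        |ind (Pf f e (insert g F)) - ind (Pf f e F)| ≤ ind (SD f e g F) := by
      intro F hF
      exact dv_point hf hge (fun h => (mem_erase.mp (hF h)).1 rfl)
    rw [abs_le]
    constructor
    · have := Ex_mono hok (S := S.erase g) (f := fun F => (-1:ℝ) * ind (SD f e g F))
        (g := fun F => ind (Pf f e (insert g F)) - ind (Pf f e F)) (fun F hF => by
          have := (abs_le.mp (hb F hF)).1
          linarith)
      rw [Ex_mul_left] at this
      linarith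
    · exact Ex_mono hok (fun F hF => (abs_le.mp (hb F hF)).2)

end DV

end H973N
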