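import Pool.Agent.H973R3.NC.Defs

/-!
# Task TS: blocks on a grid, with forced open edges
-/

namespace H973N

open H974 H12S Finset

namespace TS

/-- The open edges in the block do not see the forced edges. -/
theorem inter_eq {c : ℤ × ℤ} {m : ℕ} {S F : Finset Edg} {O : Set Edg} (hO : Disjoint O ↑S)
    (hS : blk c (3 * m) ⊆ S) :
    ((↑F : Set Edg) ∪ O) ∩ ↑(RE (c.1 - (3 * m : ℕ)) (c.1 + (3 * m : ℕ)) (c.2 - (3 * m : ℕ))
      (c.2 + (3 * m : ℕ))) = (↑F : Set Edg) ∩ ↑(RE (c.1 - (3 * m : ℕ)) (c.1 + (3 * m : ℕ))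
      (c.2 - (3 * m : ℕ)) (c.2 + (3 * m : ℕ))) := by
  ext e
  constructor
  · rintro ⟨h1 | h1, h2⟩
    · exact ⟨h1, h2⟩
    · exact absurd (Finset.mem_coe.2 (hS (Finset.mem_coe.1 h2))) (Set.disjoint_left.1 hO h1)
  · rintro ⟨h1, h2⟩
    exact ⟨Or.inl h1, h2⟩

theorem meetO {c : ℤ × ℤ} {m : ℕ} (hm : 1 ≤ m) {S F : Finset Edg} {O : Set Edg}
    (hO : Disjoint O ↑S) (hS : blk c (3 * m) ⊆ S) (h : BSU c m F) :
    ∃ z : Vtx, ∀ x y : Vtx, inR (c.1 - m) (c.1 + m) (c.2 - m) (c.2 + m) x →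
      BSfar c (3 * m) y → Reach ((↑F : Set Edg) ∪ O) x y → Reach ((↑F : Set Edg) ∪ O) x z := by
  obtain ⟨z, hz⟩ := BSU_meet hm h
  refine ⟨z, ?_⟩
  intro x y hx hy hxy
  obtain ⟨w, k1, k2, k3⟩ := first_exit (a := c.1 - (3 * m : ℕ)) (b := c.1 + (3 * m : ℕ))
    (c := c.2 - (3 * m : ℕ)) (d := c.2 + (3 * m : ℕ)) (u := x)
    (by unfold inR at hx ⊢; push_cast; omega) hxy hy
  rw [inter_eq hO hS] at k3
  exact (hz x w hx (by unfold BSfar; omega) (k3.mono Set.inter_subset_left)).mono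
    Set.subset_union_left

/-- On the circuit event the edges of the block do not matter (adding). -/
theorem cnUO {I J : Set Vtx} {c : ℤ × ℤ} {m : ℕ} (hm : 1 ≤ m) {S : Finset Edg} {O : Set Edg}
    (hO : Disjoint O ↑S) (hS : blk c (3 * m) ⊆ S)
    (hIJ : ∀ v ∈ I ∪ J, BSfar c (3 * m) v) {F : Finset Edg} (hU : BSU c m F)
    (h : CO I J O (F ∪ blk c m)) : CO I J O F := by
  obtain ⟨z, hz⟩ := meetO hm hO hS hU
  obtain ⟨u, hu, v, hv, huv⟩ := h
  have key : ∀ a w : Vtx, Reach ((↑(F ∪ blk c m) : Set Edg) ∪ O) a w →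
      Reach ((↑F : Set Edg) ∪ O) a w ∨ ∃ x, inR (c.1 - m) (c.1 + m) (c.2 - m) (c.2 + m) x ∧
        Reach ((↑F : Set Edg) ∪ O) a x := by
    intro a w hw
    induction hw with
    | refl => exact Or.inl (Reach.refl _ _)
    | @tail w w' _ hs ih =>
      rcases ih with ih | ih
      · obtain ⟨e, he, hc⟩ := hs
        have he' : e ∈ (↑F : Set Edg) ∪ O ∨ e ∈ blk c m := by
          rcases he with he | he
          · rcases Finset.mem_union.1 (Finset.mem_coe.1 he) with he | he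
            · exact Or.inl (Or.inl he)
            · exact Or.inr he
          · exact Or.inl (Or.inr he)
        rcases he' with he | he
        · exact Or.inl (ih.trans (Adj.reach ⟨e, he, hc⟩))
        · right
          have hb := BS_adj_box he
          refine ⟨w, ?_, ih⟩
          rcases hc with ⟨h1, h2⟩ | ⟨h1, h2⟩
          · rw [← h1]; exact hb.1
          · rw [← h2]; exact hb.2
      · exact Or.inr ih
  rcases key u v huv with h1 | ⟨x, hx, h1⟩
  · exact ⟨u, hu, v, hv, h1⟩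
  · rcases key v u huv.symm with h2 | ⟨y, hy, h2⟩
    · exact ⟨u, hu, v, hv, h2.symm⟩
    · have g1 := hz x u hx (hIJ u (Or.inl hu)) h1.symm
      have g2 := hz y v hy (hIJ v (Or.inr hv)) h2.symm
      exact ⟨u, hu, v, hv, h1.trans (g1.trans (g2.symm.trans h2.symm))⟩

/-- On the blocking event the edges of the block do not matter (removing). -/
theorem cnDO {I J : Set Vtx} {c : ℤ × ℤ} {m : ℕ} {S : Finset Edg} {O : Set Edg}
    (hO : Disjoint O ↑S) (hS : blk c (3 * m) ⊆ S)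
    (hIJ : ∀ v ∈ I ∪ J, BSfar c (3 * m) v) {F : Finset Edg} (hD : BSD c m F)
    (h : CO I J O F) : CO I J O (F \ blk c m) := by
  obtain ⟨u, hu, v, hv, huv⟩ := h
  refine ⟨u, hu, v, hv, ?_⟩
  clear hv
  induction huv with
  | refl => exact Reach.refl _ _
  | @tail w w' hw hs ih =>
    obtain ⟨e, he, hc⟩ := hs
    have hne : e ∉ blk c m := by
      intro hb
      have hb' := BS_adj_box hb
      have hwb : inR (c.1 - m) (c.1 + m) (c.2 - m) (c.2 + m) w := by
        rcases hc with ⟨h1, h2⟩ | ⟨h1, h2⟩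
        · rw [← h1]; exact hb'.1
        · rw [← h2]; exact hb'.2
      obtain ⟨w2, k1, k2, k3⟩ := first_exit (a := c.1 - (3 * m : ℕ)) (b := c.1 + (3 * m : ℕ))
        (c := c.2 - (3 * m : ℕ)) (d := c.2 + (3 * m : ℕ)) (u := w)
        (by unfold inR at hwb ⊢; push_cast; omega) (Reach.symm hw) (hIJ u (Or.inl hu))
      rw [inter_eq hO hS] at k3
      apply hD
      exact ⟨w, w2, hwb, by omega, k3.mono Set.inter_subset_left⟩
    refine ih.trans (Adj.reach ⟨e, ?_, hc⟩)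
    rcases he with he | he
    · exact Or.inl (Finset.mem_coe.2 (Finset.mem_sdiff.2 ⟨Finset.mem_coe.1 he, hne⟩))
    · exact Or.inr he

theorem CO_mono {I J : Set Vtx} {O : Set Edg} {F G : Finset Edg} (h : F ⊆ G) (hF : CO I J O F) :
    CO I J O G :=
  BS_Cn_mono (Set.union_subset_union_left _ (by exact_mod_cast h)) hF

theorem inflO {q : ℝ} (h0 : 0 ≤ q) (h1 : q ≤ 1) {S : Finset Edg} {I J : Set Vtx} {c : ℤ × ℤ}
    {m : ℕ} (hm : 1 ≤ m) {O : Set Edg} (hO : Disjoint O ↑S) (hS : blk c (3 * m) ⊆ S)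
    (hU : 0 < PQ q S (BSU c m))
    (hD : 0 < PQ q S (BSD c m)) (hIJ : ∀ v ∈ I ∪ J, BSfar c (3 * m) v) :
    PQ q S (Bf (CO I J O) (blk c m)) ≤
      Ex (fun _ => q) S (fun F => ind (CO I J O F) * BSV q S c m F) := by
  classical
  set b := blk c m with hb
  have a1 : PQ q S (Bf (CO I J O) b) =
      PQ q S (fun F => CO I J O (F ∪ b)) - PQ q S (fun F => CO I J O (F \ b)) := by
    unfold PQ Pr
    rw [← Ex_sub]
    apply Ex_congr
    intro F _
    by_cases k1 : CO I J O (F \ b)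
    · have k2 : CO I J O (F ∪ b) :=
        CO_mono (Finset.sdiff_subset.trans Finset.subset_union_left) k1
      rw [ind_of k1, ind_of k2, ind_not_of (fun h : Bf (CO I J O) b F => h.2 k1)]
      ring
    · by_cases k2 : CO I J O (F ∪ b)
      · rw [ind_not_of k1, ind_of k2, ind_of (show Bf (CO I J O) b F from ⟨k2, k1⟩)]
        ring
      · rw [ind_not_of k1, ind_not_of k2, ind_not_of (fun h : Bf (CO I J O) b F => k2 h.1)]
        ring
  have a2 : PQ q S (fun F => CO I J O (F ∪ b)) ≤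
      (PQ q S (BSU c m))⁻¹ * PQ q S (fun F => CO I J O F ∧ BSU c m F) := by
    have g1 : PQ q S (fun F => CO I J O (F ∪ b)) * PQ q S (BSU c m) ≤
        PQ q S (fun F => CO I J O F ∧ BSU c m F) := by
      refine (Pr_harris (okq h0 h1) (A := fun F => CO I J O (F ∪ b)) (B := BSU c m)
        ?_ ?_).trans ?_
      · intro F G hFG _ hF
        exact CO_mono (Finset.union_subset_union_left hFG) hF
      · intro F G hFG _ hF
        exact BSU_mono hFG hF
      · apply Pr_mono (okq h0 h1)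
        rintro F _ ⟨k1, k2⟩
        exact ⟨cnUO hm hO hS hIJ k2 k1, k2⟩
    rw [inv_mul_eq_div, le_div_iff₀ hU]
    exact g1
  have a3 : (PQ q S (BSD c m))⁻¹ * PQ q S (fun F => CO I J O F ∧ BSD c m F) ≤
      PQ q S (fun F => CO I J O (F \ b)) := by
    have g1 : PQ q S (fun F => CO I J O F ∧ BSD c m F) ≤
        PQ q S (fun F => CO I J O (F \ b)) * PQ q S (BSD c m) := by
      refine le_trans ?_ (Pr_harris_decr (okq h0 h1)
        (A := fun F => CO I J O (F \ b)) (B := BSD c m) ?_ ?_)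
      · apply Pr_mono (okq h0 h1)
        rintro F _ ⟨k1, k2⟩
        exact ⟨cnDO hO hS hIJ k2 k1, k2⟩
      · intro F G hFG _ hF
        exact CO_mono (Finset.sdiff_subset_sdiff hFG (Finset.Subset.refl _)) hF
      · intro F G hFG _ hF
        unfold BSD at hF ⊢
        rw [not_not] at hF ⊢
        exact BS_crs_mono (by exact_mod_cast hFG) hF
    rw [inv_mul_eq_div, div_le_iff₀ hD]
    exact g1
  have a4 : Ex (fun _ => q) S (fun F => ind (CO I J O F) * BSV q S c m F) =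
      (PQ q S (BSU c m))⁻¹ * PQ q S (fun F => CO I J O F ∧ BSU c m F) -
      (PQ q S (BSD c m))⁻¹ * PQ q S (fun F => CO I J O F ∧ BSD c m F) := by
    unfold PQ Pr
    rw [← Ex_mul_left, ← Ex_mul_left, ← Ex_sub]
    apply Ex_congr
    intro F _
    rw [ind_and, ind_and]
    unfold BSV PQ Pr
    ring
  rw [a1, a4]
  linarith

theorem sumO {ι : Type*} [DecidableEq ι] {q κ : ℝ} (h0 : 0 ≤ q) (h1 : q ≤ 1) (hκ : 0 < κ)
    (hκ2 : κ ≤ 1 / 2) {S : Finset Edg} {O : Set Edg} (hO : Disjoint O ↑S)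
    {I J : Set Vtx} {T : Finset ι} {c : ι → ℤ × ℤ} {m : ℕ} (hm : 1 ≤ m)
    (hS : ∀ t ∈ T, blk (c t) (3 * m) ⊆ S)
    (hd : ∀ t ∈ T, ∀ t' ∈ T, t ≠ t' → Disjoint (blk (c t) (3 * m)) (blk (c t') (3 * m)))
    (hIJ : ∀ t ∈ T, ∀ v ∈ I ∪ J, BSfar (c t) (3 * m) v)
    (hU : ∀ t ∈ T, κ ^ 4 ≤ PQ q S (BSU (c t) m)) (hD : ∀ t ∈ T, κ ^ 4 ≤ PQ q S (BSD (c t) m)) :
    ∑ t ∈ T, PQ q S (Bf (CO I J O) (blk (c t) m)) ≤ 2 * κ⁻¹ ^ 4 * Real.sqrt T.card := by
  have hk4 : 0 < κ ^ 4 := by positivity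
  have hU' : ∀ t ∈ T, 0 < PQ q S (BSU (c t) m) := fun t ht => hk4.trans_le (hU t ht)
  have hD' : ∀ t ∈ T, 0 < PQ q S (BSD (c t) m) := fun t ht => hk4.trans_le (hD t ht)
  set f : Finset Edg → ℝ := fun F => ind (CO I J O F) with hf
  set g : Finset Edg → ℝ := fun F => ∑ t ∈ T, BSV q S (c t) m F with hg
  have b1 : ∑ t ∈ T, PQ q S (Bf (CO I J O) (blk (c t) m)) ≤
      Ex (fun _ => q) S (fun F => f F * g F) := by
    have e1 : Ex (fun _ => q) S (fun F => f F * g F) =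
        ∑ t ∈ T, Ex (fun _ => q) S (fun F => f F * BSV q S (c t) m F) := by
      rw [← Ex_sum]
      apply Ex_congr
      intro F _
      rw [hg, Finset.mul_sum]
    rw [e1]
    apply Finset.sum_le_sum
    intro t ht
    exact inflO h0 h1 hm hO (hS t ht) (hU' t ht) (hD' t ht) (hIJ t ht)
  have b2 : Ex (fun _ => q) S (fun F => (f F) ^ 2) ≤ 1 := by
    apply Ex_le_of_le (okq h0 h1)
    intro F _
    have p1 := ind_nonneg (CO I J O F)
    have p2 := ind_le_one (CO I J O F)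
    exact pow_le_one₀ p1 p2
  have b3 : Ex (fun _ => q) S (fun F => (g F) ^ 2) =
      ∑ t ∈ T, Ex (fun _ => q) S (fun F => BSV q S (c t) m F * BSV q S (c t) m F) := by
    have e1 : Ex (fun _ => q) S (fun F => (g F) ^ 2) =
        ∑ t ∈ T, ∑ t' ∈ T, Ex (fun _ => q) S (fun F => BSV q S (c t) m F * BSV q S (c t') m F) := by
      have e2 : ∀ F : Finset Edg, F ⊆ S → (g F) ^ 2 =
          ∑ t ∈ T, ∑ t' ∈ T, BSV q S (c t) m F * BSV q S (c t') m F := by
        intro F _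
        rw [hg, sq, Finset.sum_mul_sum]
      rw [Ex_congr e2, Ex_sum]
      apply Finset.sum_congr rfl
      intro t _
      rw [Ex_sum]
    rw [e1]
    apply Finset.sum_congr rfl
    intro t ht
    rw [Finset.sum_eq_single t]
    · intro t' ht' hne
      rw [Ex_mul_indep (hS t ht) (hS t' ht') (hd t ht t' ht' (Ne.symm hne))
        (fun F _ => BSV_local q S (c t) m F) (fun F _ => BSV_local q S (c t') m F),
        BSV_mean (hU' t ht) (hD' t ht), zero_mul]
    · intro h; exact absurd ht h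
  have b4 : Ex (fun _ => q) S (fun F => (g F) ^ 2) ≤ T.card * (2 * κ⁻¹ ^ 4) := by
    rw [b3]
    have : ∀ t ∈ T, Ex (fun _ => q) S (fun F => BSV q S (c t) m F * BSV q S (c t) m F) ≤
        2 * κ⁻¹ ^ 4 := by
      intro t ht
      refine (BSV_sq h0 h1 (hU' t ht) (hD' t ht)).trans ?_
      have i1 : (PQ q S (BSU (c t) m))⁻¹ ≤ κ⁻¹ ^ 4 := by
        rw [inv_pow]; exact inv_anti₀ hk4 (hU t ht)
      have i2 : (PQ q S (BSD (c t) m))⁻¹ ≤ κ⁻¹ ^ 4 := by
        rw [inv_pow]; exact inv_anti₀ hk4 (hD t ht)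
      linarith
    refine (Finset.sum_le_sum this).trans ?_
    rw [Finset.sum_const, nsmul_eq_mul]
  have b5 := Ex_cs (okq h0 h1) S f g
  have hg0 : 0 ≤ Ex (fun _ => q) S (fun F => (g F) ^ 2) :=
    Ex_nonneg (okq h0 h1) (fun F _ => sq_nonneg _)
  have b6 : (Ex (fun _ => q) S (fun F => f F * g F)) ^ 2 ≤ T.card * (2 * κ⁻¹ ^ 4) := by
    refine b5.trans ?_
    calc Ex (fun _ => q) S (fun F => (f F) ^ 2) * Ex (fun _ => q) S (fun F => (g F) ^ 2)
        ≤ 1 * Ex (fun _ => q) S (fun F => (g F) ^ 2) := mul_le_mul_of_nonneg_right b2 hg0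
      _ ≤ _ := by rw [one_mul]; exact b4
  refine b1.trans ?_
  have hinv : 1 ≤ κ⁻¹ ^ 4 := by
    apply one_le_pow₀
    rw [one_le_inv₀ hκ]
    linarith
  have hT0 : (0:ℝ) ≤ T.card := Nat.cast_nonneg _
  apply le_trans (le_abs_self _)
  apply abs_le_of_sq_le_sq _ (by positivity)
  rw [mul_pow, Real.sq_sqrt hT0]
  refine b6.trans ?_
  nlinarith [mul_nonneg hT0 (show 0 ≤ κ⁻¹ ^ 4 by positivity)]

theorem blk_disj {c c' : ℤ × ℤ} {r : ℕ} (h : 2 * (r : ℤ) < |c.1 - c'.1| ∨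
    2 * (r : ℤ) < |c.2 - c'.2|) : Disjoint (blk c r) (blk c' r) := by
  rw [Finset.disjoint_left]
  intro e h1 h2
  have k1 := BS_adj_box h1
  have k2 := BS_adj_box h2
  unfold inR at k1 k2
  rw [lt_abs, lt_abs] at h
  omega

end TS

open TS in
theorem tile_sum {q κ : ℝ} {n : ℕ} (h : Win q κ n) {S : Finset Edg} {I J : Set Vtx}
    {O : Set Edg} (hO : Disjoint O ↑S) {s R K : ℕ} (hs : 1 ≤ s) (hR : 1 ≤ R) (hRn : 2 * R ≤ n)
    (hK1 : 1 ≤ K) (hK : 6 * R < K * s) (T : Finset (ℤ × ℤ))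
    (hT : ∀ t ∈ T, blk (s * t.1, s * t.2) (3 * R) ⊆ S)
    (hIJ : ∀ t ∈ T, Off (s * t.1 - 3 * R) (s * t.1 + 3 * R) (s * t.2 - 3 * R) (s * t.2 + 3 * R) I J) :
    ∑ t ∈ T, PQ q S (Bf (CO I J O) (blk (s * t.1, s * t.2) R)) ≤
      2 * K ^ 2 * κ⁻¹ ^ 4 * Real.sqrt T.card := by
  classical
  have hq0 : 0 ≤ q := by linarith [h.lo]
  have hq1 : q ≤ 1 := by linarith [h.hi]
  have hKpos : (0 : ℤ) < K := by omega
  set C : Finset (ℤ × ℤ) := Finset.Ico (0 : ℤ) K ×ˢ Finset.Ico (0 : ℤ) K with hC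
  set cl : ℤ × ℤ → ℤ × ℤ := fun t => (t.1 % K, t.2 % K) with hcl
  have hmaps : ∀ t ∈ T, cl t ∈ C := by
    intro t _
    rw [hC, Finset.mem_product, Finset.mem_Ico, Finset.mem_Ico]
    exact ⟨⟨Int.emod_nonneg _ hKpos.ne', Int.emod_lt_of_pos _ hKpos⟩,
      ⟨Int.emod_nonneg _ hKpos.ne', Int.emod_lt_of_pos _ hKpos⟩⟩
  rw [← Finset.sum_fiberwise_of_maps_to hmaps]
  have hbound : ∀ j ∈ C, ∑ t ∈ T with cl t = j, PQ q S (Bf (CO I J O) (blk (s * t.1, s * t.2) R)) ≤
      2 * κ⁻¹ ^ 4 * Real.sqrt T.card := by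
    intro j _
    have h1 := sumO (ι := ℤ × ℤ) hq0 hq1 h.kpos h.kle hO (I := I) (J := J)
      (T := T.filter fun t => cl t = j) (c := fun t => ((s : ℤ) * t.1, (s : ℤ) * t.2)) (m := R) hR
      (fun t ht => hT t (Finset.mem_filter.1 ht).1) ?_ ?_ ?_ ?_
    · refine h1.trans ?_
      apply mul_le_mul_of_nonneg_left _ (by have := h.kpos; positivity)
      apply Real.sqrt_le_sqrt
      exact_mod_cast Finset.card_le_card (Finset.filter_subset _ _)
    · intro t ht t' ht' hne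
      apply blk_disj
      have e1 := (Finset.mem_filter.1 ht).2
      have e2 := (Finset.mem_filter.1 ht').2
      have e3 : cl t = cl t' := e1.trans e2.symm
      simp only [hcl, Prod.mk.injEq] at e3
      have d1 : (K : ℤ) ∣ t.1 - t'.1 := Int.ModEq.dvd (Int.ModEq.symm e3.1)
      have d2 : (K : ℤ) ∣ t.2 - t'.2 := Int.ModEq.dvd (Int.ModEq.symm e3.2)
      have hKs : (6 * R : ℤ) < K * s := by exact_mod_cast hK
      have hs' : (1 : ℤ) ≤ s := by exact_mod_cast hs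
      have key : ∀ a b : ℤ, (K : ℤ) ∣ a - b → a ≠ b →
          2 * ((3 * R : ℕ) : ℤ) < |(s : ℤ) * a - s * b| := by
        intro a b hdv hab
        have h2 : (K : ℤ) ≤ |a - b| := by
          have h3 := Int.le_of_dvd (abs_pos.2 (sub_ne_zero.2 hab)) ((dvd_abs _ _).2 hdv)
          exact h3
        have h4 : |(s : ℤ) * a - s * b| = s * |a - b| := by
          rw [← mul_sub, abs_mul, abs_of_nonneg (by omega : (0 : ℤ) ≤ s)]
        rw [h4]
        push_cast
        nlinarith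
      by_cases h5 : t.1 = t'.1
      · right
        have h6 : t.2 ≠ t'.2 := fun h7 => hne (Prod.ext h5 h7)
        exact key _ _ d2 h6
      · left
        exact key _ _ d1 h5
    · intro t ht v hv
      have h2 := hIJ t (Finset.mem_filter.1 ht).1 v hv
      unfold BSfar
      push_cast
      omega
    · intro t ht
      have h2 := hT t (Finset.mem_filter.1 ht).1
      refine (win_circ h hR hRn ((s : ℤ) * t.1) ((s : ℤ) * t.2) S ?_).1
      unfold blk at h2
      push_cast at h2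
      exact h2
    · intro t ht
      exact (win_blk h hR hRn ((s : ℤ) * t.1) ((s : ℤ) * t.2) S).1
  refine (Finset.sum_le_sum hbound).trans ?_
  rw [Finset.sum_const, nsmul_eq_mul]
  have hcard : C.card = K ^ 2 := by
    rw [hC, Finset.card_product, Int.card_Ico]
    simp [sq]
  rw [hcard]
  push_cast
  apply le_of_eq
  ring

end H973N
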