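import Pool.Agent.H973R3.NC.Defs
import Pool.Agent.H973R3.NC.A4L
import Pool.Agent.H973R3.NC.TS

/-!
# Task NP: near pairs
-/

namespace H973N

open H974 H12S Finset


namespace NP

theorem RE_weak {a b c d : ℤ} {e : Edg} (h : e ∈ RE a b c d) :
    (a ≤ e.1 ∧ e.1 ≤ b) ∧ (c ≤ e.2.1 ∧ e.2.1 ≤ d) := by
  obtain ⟨x, y, _ | _⟩ := e
  · rw [mem_RE_false] at h
    simp only
    omega
  · rw [mem_RE_true] at h
    simp only
    omega

theorem RE_strong {a b c d : ℤ} {e : Edg} (h : (a ≤ e.1 ∧ e.1 + 1 ≤ b) ∧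
    (c ≤ e.2.1 ∧ e.2.1 + 1 ≤ d)) : e ∈ RE a b c d := by
  obtain ⟨x, y, _ | _⟩ := e
  · rw [mem_RE_false]
    simp only at h
    omega
  · rw [mem_RE_true]
    simp only at h
    omega

/-- tile of an edge -/
def tl (ρ : ℕ) (e : Edg) : ℤ × ℤ := ((e.1 + ρ) / (2 * ρ : ℕ), (e.2.1 + ρ) / (2 * ρ : ℕ))

theorem div_spec {ρ : ℕ} (hρ : 1 ≤ ρ) (x : ℤ) :
    ((2 * ρ : ℕ) : ℤ) * ((x + ρ) / (2 * ρ : ℕ)) ≤ x + ρ ∧
      x < ((2 * ρ : ℕ) : ℤ) * ((x + ρ) / (2 * ρ : ℕ)) + ρ := by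
  have h0 : (0 : ℤ) < ((2 * ρ : ℕ) : ℤ) := by
    have : 0 < 2 * ρ := by omega
    exact_mod_cast this
  have h1 := Int.emod_add_mul_ediv (x + ρ) ((2 * ρ : ℕ) : ℤ)
  have h2 := Int.emod_nonneg (x + ρ) h0.ne'
  have h3 := Int.emod_lt_of_pos (x + ρ) h0
  have h4 : ((2 * ρ : ℕ) : ℤ) = 2 * (ρ : ℤ) := by push_cast; ring
  constructor
  · linarith
  · linarith

/-- block of a tile -/
noncomputable def tb (ρ : ℕ) (t : ℤ × ℤ) : Finset Edg :=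
  blk (((2 * ρ : ℕ) : ℤ) * t.1, ((2 * ρ : ℕ) : ℤ) * t.2) (6 * ρ)

theorem dst_le {e g : Edg} {m : ℤ} (h : dst e g ≤ m) :
    (-m ≤ e.1 - g.1 ∧ e.1 - g.1 ≤ m) ∧ (-m ≤ e.2.1 - g.2.1 ∧ e.2.1 - g.2.1 ≤ m) := by
  unfold dst at h
  have h1 := (le_max_left _ _).trans h
  have h2 := (le_max_right _ _).trans h
  exact ⟨abs_le.mp h1, abs_le.mp h2⟩

/-- membership of edges near `e` in the block -/
theorem mem_tb {ρ : ℕ} (hρ : 1 ≤ ρ) {e g : Edg} (h : dst e g ≤ 4 * ρ) : g ∈ tb ρ (tl ρ e) := by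
  obtain ⟨⟨h1, h2⟩, h3, h4⟩ := dst_le h
  have d1 := div_spec hρ e.1
  have d2 := div_spec hρ e.2.1
  unfold tb blk tl
  apply RE_strong
  simp only
  push_cast at d1 d2 ⊢
  have : (1 : ℤ) ≤ ρ := by exact_mod_cast hρ
  refine ⟨⟨?_, ?_⟩, ?_, ?_⟩ <;> linarith

theorem ball_sub_tb {ρ : ℕ} (hρ : 1 ≤ ρ) {e g : Edg} (h : dst e g ≤ 4 * ρ) :
    blk (bp g) ρ ⊆ tb ρ (tl ρ e) := by
  obtain ⟨⟨h1, h2⟩, h3, h4⟩ := dst_le h
  have d1 := div_spec hρ e.1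
  have d2 := div_spec hρ e.2.1
  unfold tb blk tl bp
  push_cast at d1 d2 ⊢
  have : (1 : ℤ) ≤ ρ := by exact_mod_cast hρ
  apply RE_subset <;> linarith

theorem dst_self (e : Edg) : dst e e = 0 := by
  unfold dst
  simp

theorem cn_mono {I J : Set Vtx} {F G : Set Edg} (h : F ⊆ G) (hF : Cn I J F) : Cn I J G := by
  obtain ⟨u, hu, v, hv, huv⟩ := hF
  exact ⟨u, hu, v, hv, huv.mono h⟩

theorem CO_empty (I J : Set Vtx) : (fun F : Finset Edg => Cn I J (↑F : Set Edg)) = CO I J ∅ := by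
  funext F
  unfold CO
  rw [Set.union_empty]

/-- second difference implies block pivotality -/
theorem SD_Bf {I J : Set Vtx} {e g : Edg} {b F : Finset Edg} (he : e ∈ b) (hg : g ∈ b)
    (h : SD (fun F => Cn I J ↑F) e g F) : Bf (fun F => Cn I J ↑F) b F := by
  obtain ⟨_, _, h3, h4⟩ := h
  refine ⟨cn_mono ?_ h3, fun h5 => h4 (cn_mono ?_ h5)⟩
  · rw [Finset.coe_subset]
    intro x hx
    rw [Finset.mem_insert, Finset.mem_insert] at hx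
    rw [Finset.mem_union]
    rcases hx with rfl | rfl | hx
    · exact Or.inr he
    · exact Or.inr hg
    · exact Or.inl hx
  · rw [Finset.coe_subset]
    intro x hx
    rw [Finset.mem_sdiff] at hx
    rw [Finset.mem_erase, Finset.mem_erase]
    exact ⟨fun h => hx.2 (h ▸ hg), fun h => hx.2 (h ▸ he), hx.1⟩

theorem L4_congr' {ρ : ℕ} {e : Edg} {F F' : Finset Edg}
    (h : ∀ g ∈ blk (bp e) ρ, g ≠ e → (g ∈ F ↔ g ∈ F')) : L4 ρ e ↑F ↔ L4 ρ e ↑F' := by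
  unfold L4
  apply A4_congr
  intro g hg hne
  rw [Finset.mem_coe, Finset.mem_coe]
  exact h g hg hne

theorem Off_sub {a b c d a' b' c' d' : ℤ} {I J : Set Vtx} (h : Off a b c d I J) (h1 : a ≤ a')
    (h2 : b' ≤ b) (h3 : c ≤ c') (h4 : d' ≤ d) : Off a' b' c' d' I J := by
  intro v hv hv'
  exact h v hv ⟨⟨by linarith [hv'.1.1], by linarith [hv'.1.2]⟩,
    by linarith [hv'.2.1], by linarith [hv'.2.2]⟩

/-- a pivotal edge, with another edge outside the ball changed -/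
theorem SD_L4_aux {I J : Set Vtx} {ρ : ℕ} (hρ : 1 ≤ ρ) {e g : Edg} {F : Finset Edg}
    (hI : Off (e.1 - ρ) (e.1 + ρ) (e.2.1 - ρ) (e.2.1 + ρ) I J) (hg : g ∉ blk (bp e) ρ)
    (h : Pf (fun F => Cn I J ↑F) e (F.erase g) ∨ Pf (fun F => Cn I J ↑F) e (insert g F)) :
    L4 ρ e ↑F := by
  rw [CO_empty] at h
  rcases h with h | h
  · have h1 := piv_L4 hρ (O := ∅) (fun g hg => absurd hg (Set.notMem_empty g)) hI h
    refine (L4_congr' ?_).1 h1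
    intro x hx _
    rw [Finset.mem_erase]
    constructor
    · exact fun h => h.2
    · exact fun h => ⟨fun h' => hg (h' ▸ hx), h⟩
  · have h1 := piv_L4 hρ (O := ∅) (fun g hg => absurd hg (Set.notMem_empty g)) hI h
    refine (L4_congr' ?_).1 h1
    intro x hx _
    rw [Finset.mem_insert]
    constructor
    · rintro (h | h)
      · exact absurd hx (h ▸ hg)
      · exact h
    · exact fun h => Or.inr h

/-- independence of the local event and an event outside the ball -/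
theorem indep_L4 {q : ℝ} (h0 : 0 ≤ q) (h1 : q ≤ 1) {ρ : ℕ} {e : Edg} {S : Finset Edg}
    (hS : blk (bp e) ρ ⊆ S) {B : Finset Edg → Prop}
    (hB : ∀ F, F ⊆ S → (B F ↔ B (F ∩ (S \ blk (bp e) ρ)))) :
    PQ q S (fun F => L4 ρ e ↑F ∧ B F) ≤ a4 q ρ * PQ q S B := by
  have hOk : Ok (fun _ : Edg => q) := fun _ => ⟨h0, h1⟩
  have h2 : PQ q S (fun F => L4 ρ e ↑F ∧ B F) = PQ q S (fun F => L4 ρ e ↑F) * PQ q S B := by
    refine Pr_indep hS (Finset.sdiff_subset) Finset.disjoint_sdiff ?_ hB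
    intro F _
    apply L4_congr'
    intro x hx _
    rw [Finset.mem_inter]
    exact ⟨fun h => ⟨h, hx⟩, fun h => h.1⟩
  rw [h2]
  exact mul_le_mul_of_nonneg_right (pr_L4 h0 h1 hS) (Pr_nonneg hOk _ _)

theorem Bf_local {f : Finset Edg → Prop} {b ball S : Finset Edg} (hb : ball ⊆ b)
    (F : Finset Edg) (hF : F ⊆ S) : Bf f b F ↔ Bf f b (F ∩ (S \ ball)) := by
  have e1 : F ∪ b = (F ∩ (S \ ball)) ∪ b := by
    ext x
    simp only [Finset.mem_union, Finset.mem_inter, Finset.mem_sdiff]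
    constructor
    · rintro (h | h)
      · by_cases hx : x ∈ ball
        · exact Or.inr (hb hx)
        · exact Or.inl ⟨h, hF h, hx⟩
      · exact Or.inr h
    · rintro (h | h)
      · exact Or.inl h.1
      · exact Or.inr h
  have e2 : F \ b = (F ∩ (S \ ball)) \ b := by
    ext x
    simp only [Finset.mem_sdiff, Finset.mem_inter]
    constructor
    · rintro ⟨h, h'⟩
      exact ⟨⟨h, hF h, fun hx => h' (hb hx)⟩, h'⟩
    · rintro ⟨h, h'⟩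
      exact ⟨h.1, h'⟩
  unfold Bf
  rw [e1, e2]

/-- the bound for a pair of edges -/
theorem pair_bound {q : ℝ} (h0 : 0 ≤ q) (h1 : q ≤ 1) {a b c d : ℤ} {I J : Set Vtx}
    (hIJ : Off a b c d I J) {ρ : ℕ} (hρ : 1 ≤ ρ) {e g : Edg}
    (he : (a + 24 * ρ ≤ e.1 ∧ e.1 ≤ b - 24 * ρ) ∧ (c + 24 * ρ ≤ e.2.1 ∧ e.2.1 ≤ d - 24 * ρ))
    (h4 : dst e g ≤ 4 * ρ) (h2 : 2 * (ρ : ℤ) < dst e g) :
    PQ q (RE a b c d) (SD (fun F => Cn I J ↑F) e g) ≤
      (a4 q ρ) ^ 2 * PQ q (RE a b c d) (Bf (fun F => Cn I J ↑F) (tb ρ (tl ρ e))) := by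
  have hOk : Ok (fun _ : Edg => q) := fun _ => ⟨h0, h1⟩
  have hρ' : (1 : ℤ) ≤ ρ := by exact_mod_cast hρ
  obtain ⟨⟨k1, k2⟩, k3, k4⟩ := dst_le h4
  obtain ⟨⟨m1, m2⟩, m3, m4⟩ := he
  have hee : dst e e ≤ 4 * ρ := by rw [dst_self]; positivity
  have hbe : blk (bp e) ρ ⊆ RE a b c d := by
    unfold blk bp
    apply RE_subset <;> simp only <;> linarith
  have hbg : blk (bp g) ρ ⊆ RE a b c d := by
    unfold blk bp
    apply RE_subset <;> simp only <;> linarith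
  have hge : ∀ x ∈ blk (bp g) ρ, x ∉ blk (bp e) ρ := by
    intro x hx hx'
    unfold blk bp at hx hx'
    obtain ⟨⟨p1, p2⟩, p3, p4⟩ := RE_weak hx
    obtain ⟨⟨r1, r2⟩, r3, r4⟩ := RE_weak hx'
    simp only at p1 p2 p3 p4 r1 r2 r3 r4
    have : dst e g ≤ 2 * ρ := by
      unfold dst
      apply max_le <;> rw [abs_le] <;> constructor <;> linarith
    linarith
  have hball : ∀ x : Edg, x ∈ blk (bp x) ρ := by
    intro x
    unfold blk bp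
    apply RE_strong
    refine ⟨⟨?_, ?_⟩, ?_, ?_⟩ <;> simp only <;> linarith
  have hg1 : g ∉ blk (bp e) ρ := hge g (hball g)
  have he1 : e ∉ blk (bp g) ρ := fun h => hge e h (hball e)
  have hOe : Off (e.1 - ρ) (e.1 + ρ) (e.2.1 - ρ) (e.2.1 + ρ) I J :=
    Off_sub hIJ (by linarith) (by linarith) (by linarith) (by linarith)
  have hOg : Off (g.1 - ρ) (g.1 + ρ) (g.2.1 - ρ) (g.2.1 + ρ) I J :=
    Off_sub hIJ (by linarith) (by linarith) (by linarith) (by linarith)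
  have step1 : PQ q (RE a b c d) (SD (fun F => Cn I J ↑F) e g) ≤
      PQ q (RE a b c d) (fun F => L4 ρ e ↑F ∧ (L4 ρ g ↑F ∧
        Bf (fun F => Cn I J ↑F) (tb ρ (tl ρ e)) F)) := by
    refine Pr_mono hOk ?_
    intro F _ hF
    refine ⟨SD_L4_aux hρ hOe hg1 hF.1, SD_L4_aux hρ hOg he1 hF.2.1,
      SD_Bf (mem_tb hρ hee) (mem_tb hρ h4) hF⟩
  refine step1.trans ?_
  have hBl : ∀ (x : Edg), dst e x ≤ 4 * ρ → ∀ F, F ⊆ RE a b c d →
      (Bf (fun F => Cn I J ↑F) (tb ρ (tl ρ e)) F ↔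
        Bf (fun F => Cn I J ↑F) (tb ρ (tl ρ e)) (F ∩ (RE a b c d \ blk (bp x) ρ))) :=
    fun x hx F hF => Bf_local (ball_sub_tb hρ hx) F hF
  refine (indep_L4 h0 h1 hbe ?_).trans ?_
  · intro F hF
    rw [← hBl e hee F hF]
    apply and_congr_left
    intro _
    apply L4_congr'
    intro x hx _
    rw [Finset.mem_inter, Finset.mem_sdiff]
    exact ⟨fun h => ⟨h, hF h, hge x hx⟩, fun h => h.1⟩
  · have ha : 0 ≤ a4 q ρ := (Pr_nonneg hOk _ _).trans (pr_L4 h0 h1 hbe)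
    rw [sq, mul_assoc]
    exact mul_le_mul_of_nonneg_left (indep_L4 h0 h1 hbg (hBl g h4)) ha

/-- number of edges near a given edge -/
theorem card_near (e : Edg) (ρ : ℕ) (hρ : 1 ≤ ρ) (T : Finset Edg) :
    ((T.filter (fun g => dst e g ≤ 4 * ρ)).card : ℝ) ≤ 162 * (ρ : ℝ) ^ 2 := by
  have h1 : T.filter (fun g => dst e g ≤ 4 * ρ) ⊆
      (Finset.Icc (e.1 - 4 * ρ) (e.1 + 4 * ρ)) ×ˢ
        ((Finset.Icc (e.2.1 - 4 * ρ) (e.2.1 + 4 * ρ)) ×ˢ (Finset.univ : Finset Bool)) := by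
    intro g hg
    rw [Finset.mem_filter] at hg
    obtain ⟨⟨h1, h2⟩, h3, h4⟩ := dst_le hg.2
    rw [Finset.mem_product, Finset.mem_product, Finset.mem_Icc, Finset.mem_Icc]
    exact ⟨⟨by linarith, by linarith⟩, ⟨by linarith, by linarith⟩, Finset.mem_univ _⟩
  have h2 := Finset.card_le_card h1
  rw [Finset.card_product, Finset.card_product, Int.card_Icc, Int.card_Icc, Finset.card_univ,
    Fintype.card_bool] at h2
  have e1 : (e.1 + 4 * (ρ : ℤ) + 1 - (e.1 - 4 * ρ)).toNat = 8 * ρ + 1 := by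
    rw [show e.1 + 4 * (ρ : ℤ) + 1 - (e.1 - 4 * ρ) = ((8 * ρ + 1 : ℕ) : ℤ) by push_cast; ring]
    exact Int.toNat_natCast _
  have e2 : (e.2.1 + 4 * (ρ : ℤ) + 1 - (e.2.1 - 4 * ρ)).toNat = 8 * ρ + 1 := by
    rw [show e.2.1 + 4 * (ρ : ℤ) + 1 - (e.2.1 - 4 * ρ) = ((8 * ρ + 1 : ℕ) : ℤ) by push_cast; ring]
    exact Int.toNat_natCast _
  rw [e1, e2] at h2
  have h3 : (8 * ρ + 1) * ((8 * ρ + 1) * 2) ≤ 162 * ρ ^ 2 := by nlinarith
  exact_mod_cast h2.trans h3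

/-- number of edges in a tile -/
theorem card_tile (ρ : ℕ) (hρ : 1 ≤ ρ) (G : Finset Edg) (t : ℤ × ℤ) :
    ((G.filter (fun e => tl ρ e = t)).card : ℝ) ≤ 18 * (ρ : ℝ) ^ 2 := by
  have h1 : G.filter (fun e => tl ρ e = t) ⊆
      (Finset.Icc (2 * ρ * t.1 - ρ) (2 * ρ * t.1 + ρ)) ×ˢ
        ((Finset.Icc (2 * ρ * t.2 - ρ) (2 * ρ * t.2 + ρ)) ×ˢ (Finset.univ : Finset Bool)) := by
    intro g hg
    rw [Finset.mem_filter] at hg
    have d1 := div_spec hρ g.1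
    have d2 := div_spec hρ g.2.1
    rw [← hg.2]
    unfold tl
    rw [Finset.mem_product, Finset.mem_product, Finset.mem_Icc, Finset.mem_Icc]
    push_cast at d1 d2 ⊢
    refine ⟨⟨?_, ?_⟩, ⟨?_, ?_⟩, Finset.mem_univ _⟩ <;> linarith
  have h2 := Finset.card_le_card h1
  rw [Finset.card_product, Finset.card_product, Int.card_Icc, Int.card_Icc, Finset.card_univ,
    Fintype.card_bool] at h2
  have e1 : ∀ z : ℤ, (2 * (ρ : ℤ) * z + ρ + 1 - (2 * ρ * z - ρ)).toNat = 2 * ρ + 1 := by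
    intro z
    rw [show 2 * (ρ : ℤ) * z + ρ + 1 - (2 * ρ * z - ρ) = ((2 * ρ + 1 : ℕ) : ℤ) by push_cast; ring]
    exact Int.toNat_natCast _
  rw [e1, e1] at h2
  have h3 : (2 * ρ + 1) * ((2 * ρ + 1) * 2) ≤ 18 * ρ ^ 2 := by nlinarith
  exact_mod_cast h2.trans h3

/-- number of tiles -/
theorem card_tiles (ρ : ℕ) (hρ : 1 ≤ ρ) (M : ℕ) (hM : 1 ≤ M) (G : Finset Edg)
    (hG : ∀ e ∈ G, |e.1| ≤ M * ρ ∧ |e.2.1| ≤ M * ρ) :
    Real.sqrt ((G.image (tl ρ)).card : ℝ) ≤ 3 * (M : ℝ) := by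
  have h1 : G.image (tl ρ) ⊆ (Finset.Icc (-(M : ℤ)) M) ×ˢ (Finset.Icc (-(M : ℤ)) M) := by
    intro t ht
    rw [Finset.mem_image] at ht
    obtain ⟨e, he, rfl⟩ := ht
    have d1 := div_spec hρ e.1
    have d2 := div_spec hρ e.2.1
    have hb := hG e he
    rw [abs_le, abs_le] at hb
    have hρ' : (1 : ℤ) ≤ ρ := by exact_mod_cast hρ
    have hM' : (1 : ℤ) ≤ M := by exact_mod_cast hM
    rw [Finset.mem_product, Finset.mem_Icc, Finset.mem_Icc]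
    unfold tl
    simp only
    generalize (e.1 + (ρ : ℤ)) / ((2 * ρ : ℕ) : ℤ) = u at d1 ⊢
    generalize (e.2.1 + (ρ : ℤ)) / ((2 * ρ : ℕ) : ℤ) = v at d2 ⊢
    push_cast at d1 d2
    have key : ∀ x y : ℤ, 2 * (ρ : ℤ) * y ≤ x + ρ → x < 2 * (ρ : ℤ) * y + ρ → -(M * ρ : ℤ) ≤ x →
        x ≤ M * ρ → -(M : ℤ) ≤ y ∧ y ≤ M := by
      intro x y q1 q2 q3 q4
      constructor
      · by_contra hcon
        push Not at hcon
        have : 2 * (ρ : ℤ) * y ≤ 2 * ρ * (-M - 1) :=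
          mul_le_mul_of_nonneg_left (by linarith) (by linarith)
        nlinarith
      · by_contra hcon
        push Not at hcon
        have : 2 * (ρ : ℤ) * (M + 1) ≤ 2 * ρ * y :=
          mul_le_mul_of_nonneg_left (by linarith) (by linarith)
        nlinarith
    exact ⟨key _ _ d1.1 d1.2 hb.1.1 hb.1.2, key _ _ d2.1 d2.2 hb.2.1 hb.2.2⟩
  have h2 := Finset.card_le_card h1
  rw [Finset.card_product, Int.card_Icc] at h2
  have e1 : ((M : ℤ) + 1 - -(M : ℤ)).toNat = 2 * M + 1 := by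
    rw [show (M : ℤ) + 1 - -(M : ℤ) = ((2 * M + 1 : ℕ) : ℤ) by push_cast; ring]
    exact Int.toNat_natCast _
  rw [e1] at h2
  have h3 : (2 * M + 1) * (2 * M + 1) ≤ (3 * M) ^ 2 := by nlinarith
  have h4 : ((G.image (tl ρ)).card : ℝ) ≤ (3 * (M : ℝ)) ^ 2 := by exact_mod_cast h2.trans h3
  rw [Real.sqrt_le_left (by positivity)]
  exact h4

/-- one class of pairs -/
theorem class_sum {κ : ℝ} {q : ℝ} {n : ℕ} (hW : Win q κ n) {a b c d : ℤ} {K Λ : ℕ} (hΛ : 1 ≤ Λ)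
    (hn : 12 * 2 ^ K ≤ n) {I J : Set Vtx} (hIJ : Off a b c d I J) {G : Finset Edg}
    (hG : ∀ e ∈ G, |e.1| ≤ Λ * 2 ^ K ∧ |e.2.1| ≤ Λ * 2 ^ K)
    (hG' : ∀ e ∈ G, (a + 24 * 2 ^ K ≤ e.1 ∧ e.1 ≤ b - 24 * 2 ^ K) ∧
      (c + 24 * 2 ^ K ≤ e.2.1 ∧ e.2.1 ≤ d - 24 * 2 ^ K))
    {k : ℕ} (hk : k ≤ K) (P : Edg → Edg → Prop)
    (hP : ∀ e g, P e g → dst e g ≤ 4 * ((2 ^ k : ℕ) : ℤ)) {A : ℝ} (hA : 0 ≤ A)
    (hb : ∀ e ∈ G, ∀ g, P e g → PQ q (RE a b c d) (SD (fun F => Cn I J ↑F) e g) ≤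
      A * PQ q (RE a b c d) (Bf (fun F => Cn I J ↑F) (tb (2 ^ k) (tl (2 ^ k) e)))) :
    ∑ e ∈ G, ∑ g ∈ (RE a b c d).erase e, ind (P e g) *
      PQ q (RE a b c d) (SD (fun F => Cn I J ↑F) e g) ≤
      162 * 18 * 722 * 3 * κ⁻¹ ^ 4 * Λ * ((16 : ℝ) ^ k * A * 2 ^ (K - k)) := by
  classical
  have h0 : 0 ≤ q := by linarith [hW.lo]
  have h1 : q ≤ 1 := by linarith [hW.hi]
  have hOk : Ok (fun _ : Edg => q) := fun _ => ⟨h0, h1⟩
  set ρ : ℕ := 2 ^ k with hρdef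
  have hρ : 1 ≤ ρ := Nat.one_le_two_pow
  have hρK : ρ ≤ 2 ^ K := Nat.pow_le_pow_right (by norm_num) hk
  have hρKz : (ρ : ℤ) ≤ 2 ^ K := by exact_mod_cast hρK
  have hρ1z : (1 : ℤ) ≤ ρ := by exact_mod_cast hρ
  set B : ℤ × ℤ → ℝ := fun t => PQ q (RE a b c d) (Bf (fun F => Cn I J ↑F) (tb ρ t)) with hB
  have hB0 : ∀ t, 0 ≤ B t := fun t => Pr_nonneg hOk _ _
  -- inner sums
  have inner : ∀ e ∈ G, ∑ g ∈ (RE a b c d).erase e, ind (P e g) *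
      PQ q (RE a b c d) (SD (fun F => Cn I J ↑F) e g) ≤
      162 * (ρ : ℝ) ^ 2 * (A * B (tl ρ e)) := by
    intro e he
    have hAB : 0 ≤ A * B (tl ρ e) := mul_nonneg hA (hB0 _)
    calc ∑ g ∈ (RE a b c d).erase e, ind (P e g) *
        PQ q (RE a b c d) (SD (fun F => Cn I J ↑F) e g)
        ≤ ∑ g ∈ (RE a b c d).erase e, if dst e g ≤ 4 * ρ then A * B (tl ρ e) else 0 := by
          refine Finset.sum_le_sum fun g _ => ?_
          by_cases hp : P e g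
          · rw [ind_of hp, one_mul, if_pos (hP e g hp)]
            exact hb e he g hp
          · rw [ind_not_of hp, zero_mul]
            split_ifs
            · exact hAB
            · exact le_rfl
      _ = (((RE a b c d).erase e).filter (fun g => dst e g ≤ 4 * ρ)).card *
          (A * B (tl ρ e)) := by
          rw [← Finset.sum_filter, Finset.sum_const, nsmul_eq_mul]
      _ ≤ 162 * (ρ : ℝ) ^ 2 * (A * B (tl ρ e)) :=
          mul_le_mul_of_nonneg_right (card_near e ρ hρ _) hAB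
  set T : Finset (ℤ × ℤ) := G.image (tl ρ) with hT
  have tile : ∑ t ∈ T, B t ≤ 2 * (19 : ℕ) ^ 2 * κ⁻¹ ^ 4 * Real.sqrt T.card := by
    have hTs := tile_sum hW (S := RE a b c d) (I := I) (J := J) (O := ∅)
      (by simp) (s := 2 * ρ) (R := 6 * ρ) (K := 19) (by omega) (by omega)
      (by
        have : 12 * ρ ≤ 12 * 2 ^ K := by omega
        omega) (by norm_num) (by omega) T ?_ ?_
    · rw [← CO_empty] at hTs
      exact hTs
    · intro t ht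
      rw [hT, Finset.mem_image] at ht
      obtain ⟨e, he, rfl⟩ := ht
      have d1 := div_spec hρ e.1
      have d2 := div_spec hρ e.2.1
      obtain ⟨⟨m1, m2⟩, m3, m4⟩ := hG' e he
      unfold blk tl
      push_cast at d1 d2 ⊢
      apply RE_subset <;> linarith
    · intro t ht
      rw [hT, Finset.mem_image] at ht
      obtain ⟨e, he, rfl⟩ := ht
      have d1 := div_spec hρ e.1
      have d2 := div_spec hρ e.2.1
      obtain ⟨⟨m1, m2⟩, m3, m4⟩ := hG' e he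
      unfold tl
      push_cast at d1 d2 ⊢
      apply Off_sub hIJ <;> linarith
  have hfib : ∑ e ∈ G, 162 * (ρ : ℝ) ^ 2 * (A * B (tl ρ e)) ≤
      162 * (ρ : ℝ) ^ 2 * A * (18 * (ρ : ℝ) ^ 2 * ∑ t ∈ T, B t) := by
    have h2 : ∑ e ∈ G, 162 * (ρ : ℝ) ^ 2 * (A * B (tl ρ e)) =
        162 * (ρ : ℝ) ^ 2 * A * ∑ e ∈ G, B (tl ρ e) := by
      rw [Finset.mul_sum]
      refine Finset.sum_congr rfl fun e _ => ?_
      ring
    rw [h2]
    apply mul_le_mul_of_nonneg_left _ (by positivity)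
    have h3 : ∑ e ∈ G, B (tl ρ e) = ∑ t ∈ T, ∑ e ∈ G.filter (fun e => tl ρ e = t), B (tl ρ e) :=
      (Finset.sum_fiberwise_of_maps_to (fun e he => Finset.mem_image_of_mem _ he) _).symm
    rw [h3, Finset.mul_sum]
    refine Finset.sum_le_sum fun t _ => ?_
    have h4 : ∑ e ∈ G.filter (fun e => tl ρ e = t), B (tl ρ e) =
        (G.filter (fun e => tl ρ e = t)).card * B t := by
      rw [← nsmul_eq_mul, ← Finset.sum_const]
      refine Finset.sum_congr rfl fun e he => ?_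
      rw [(Finset.mem_filter.mp he).2]
    rw [h4]
    exact mul_le_mul_of_nonneg_right (card_tile ρ hρ G t) (hB0 t)
  have hsq : Real.sqrt (T.card : ℝ) ≤ 3 * ((Λ * 2 ^ (K - k) : ℕ) : ℝ) := by
    apply card_tiles ρ hρ (Λ * 2 ^ (K - k)) (Nat.mul_pos hΛ (Nat.two_pow_pos _)) G
    intro e he
    have h5 : (((Λ * 2 ^ (K - k) : ℕ) : ℤ) * (ρ : ℤ)) = Λ * 2 ^ K := by
      have h6 : (2 : ℤ) ^ K = 2 ^ (K - k) * 2 ^ k := by
        rw [← pow_add]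
        congr 1
        omega
      rw [h6, hρdef]
      push_cast
      ring
    rw [h5]
    exact hG e he
  have hκ : 0 ≤ κ⁻¹ ^ 4 := by
    have := hW.kpos
    positivity
  calc ∑ e ∈ G, ∑ g ∈ (RE a b c d).erase e, ind (P e g) *
      PQ q (RE a b c d) (SD (fun F => Cn I J ↑F) e g)
      ≤ ∑ e ∈ G, 162 * (ρ : ℝ) ^ 2 * (A * B (tl ρ e)) := Finset.sum_le_sum inner
    _ ≤ 162 * (ρ : ℝ) ^ 2 * A * (18 * (ρ : ℝ) ^ 2 * ∑ t ∈ T, B t) := hfib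
    _ ≤ 162 * (ρ : ℝ) ^ 2 * A * (18 * (ρ : ℝ) ^ 2 * (2 * (19 : ℕ) ^ 2 * κ⁻¹ ^ 4 *
          (3 * ((Λ * 2 ^ (K - k) : ℕ) : ℝ)))) := by
        apply mul_le_mul_of_nonneg_left _ (by positivity)
        apply mul_le_mul_of_nonneg_left _ (by positivity)
        refine tile.trans ?_
        apply mul_le_mul_of_nonneg_left hsq (by positivity)
    _ = 162 * 18 * 722 * 3 * κ⁻¹ ^ 4 * Λ * ((16 : ℝ) ^ k * A * 2 ^ (K - k)) := by
        have h7 : (ρ : ℝ) ^ 2 * (ρ : ℝ) ^ 2 = 16 ^ k := by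
          rw [← pow_add, hρdef]
          push_cast
          rw [← pow_mul, mul_comm k, pow_mul]
          norm_num
        push_cast
        linear_combination (162 * 18 * (2 * 19 ^ 2 * κ⁻¹ ^ 4 * (3 * (Λ * 2 ^ (K - k)))) * A) * h7

theorem ind_split (K : ℕ) (x : ℤ) : ind (x ≤ 4 * 2 ^ K) ≤ ind (x ≤ 2) +
    ∑ k ∈ Finset.range (K + 1), ind (2 * ((2 ^ k : ℕ) : ℤ) < x ∧ x ≤ 4 * ((2 ^ k : ℕ) : ℤ)) := by
  induction K with
  | zero =>
    rw [Finset.sum_range_one]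
    by_cases h : x ≤ 2
    · rw [ind_of h]
      have := ind_le_one (x ≤ 4 * 2 ^ 0)
      have := ind_nonneg (2 * ((2 ^ 0 : ℕ) : ℤ) < x ∧ x ≤ 4 * ((2 ^ 0 : ℕ) : ℤ))
      linarith
    · have : ind (x ≤ 4 * 2 ^ 0) ≤ ind (2 * ((2 ^ 0 : ℕ) : ℤ) < x ∧ x ≤ 4 * ((2 ^ 0 : ℕ) : ℤ)) := by
        apply ind_mono
        intro h'
        norm_num at h' ⊢
        omega
      have := ind_nonneg (x ≤ 2)
      linarith
  | succ K ih =>
    rw [Finset.sum_range_succ]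
    by_cases h : x ≤ 4 * 2 ^ K
    · have h1 : ind (x ≤ 4 * 2 ^ K) = 1 := ind_of h
      have h2 := ind_le_one (x ≤ 4 * 2 ^ (K + 1))
      have h3 := ind_nonneg (2 * ((2 ^ (K + 1) : ℕ) : ℤ) < x ∧ x ≤ 4 * ((2 ^ (K + 1) : ℕ) : ℤ))
      linarith
    · have h1 : ind (x ≤ 4 * 2 ^ (K + 1)) ≤
          ind (2 * ((2 ^ (K + 1) : ℕ) : ℤ) < x ∧ x ≤ 4 * ((2 ^ (K + 1) : ℕ) : ℤ)) := by
        apply ind_mono
        intro h'
        push Not at h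
        push_cast
        refine ⟨?_, h'⟩
        have : (2 : ℤ) * 2 ^ (K + 1) = 4 * 2 ^ K := by rw [pow_succ]; ring
        rw [this]
        exact h
      have h2 := ind_nonneg (x ≤ 2)
      have h3 : 0 ≤ ∑ k ∈ Finset.range (K + 1),
          ind (2 * ((2 ^ k : ℕ) : ℤ) < x ∧ x ≤ 4 * ((2 ^ k : ℕ) : ℤ)) :=
        Finset.sum_nonneg fun _ _ => ind_nonneg _
      linarith

end NP

open NP in
theorem near_sum (κ : ℝ) (hκ : 0 < κ) : ∃ C : ℝ, 0 < C ∧ ∀ (q : ℝ) (n : ℕ), Win q κ n →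
    ∀ (a b c d : ℤ) (K Λ : ℕ), 1 ≤ Λ → 12 * 2^K ≤ n →
    ∀ (I J : Set Vtx), Off a b c d I J →
    ∀ G : Finset Edg, (∀ e ∈ G, |e.1| ≤ Λ * 2^K ∧ |e.2.1| ≤ Λ * 2^K) →
    (∀ e ∈ G, (a + 24 * 2^K ≤ e.1 ∧ e.1 ≤ b - 24 * 2^K) ∧
      (c + 24 * 2^K ≤ e.2.1 ∧ e.2.1 ≤ d - 24 * 2^K)) →
    ∑ e ∈ G, ∑ g ∈ (RE a b c d).erase e, ind (dst e g ≤ 4 * 2^K) *
      PQ q (RE a b c d) (SD (fun F => Cn I J ↑F) e g) ≤ C * Λ * W2s q K := by
  refine ⟨162 * 18 * 722 * 3 * κ⁻¹ ^ 4, by positivity, ?_⟩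
  intro q n hW a b c d K Λ hΛ hn I J hIJ G hG hG'
  have h0 : 0 ≤ q := by linarith [hW.lo]
  have h1 : q ≤ 1 := by linarith [hW.hi]
  have hOk : Ok (fun _ : Edg => q) := fun _ => ⟨h0, h1⟩
  have hX : ∀ e g, 0 ≤ PQ q (RE a b c d) (SD (fun F => Cn I J ↑F) e g) := fun e g =>
    Pr_nonneg hOk _ _
  have hGk : ∀ k ≤ K, ∀ e ∈ G, (a + 24 * ((2 ^ k : ℕ) : ℤ) ≤ e.1 ∧ e.1 ≤ b - 24 * ((2 ^ k : ℕ) : ℤ)) ∧
      (c + 24 * ((2 ^ k : ℕ) : ℤ) ≤ e.2.1 ∧ e.2.1 ≤ d - 24 * ((2 ^ k : ℕ) : ℤ)) := by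
    intro k hk e he
    have h2 : ((2 ^ k : ℕ) : ℤ) ≤ 2 ^ K := by
      exact_mod_cast Nat.pow_le_pow_right (by norm_num) hk
    obtain ⟨⟨m1, m2⟩, m3, m4⟩ := hG' e he
    refine ⟨⟨?_, ?_⟩, ?_, ?_⟩ <;> linarith
  -- split
  have split : ∀ e g : Edg, ind (dst e g ≤ 4 * 2 ^ K) *
      PQ q (RE a b c d) (SD (fun F => Cn I J ↑F) e g) ≤
      ind (dst e g ≤ 2) * PQ q (RE a b c d) (SD (fun F => Cn I J ↑F) e g) +
      ∑ k ∈ Finset.range (K + 1), ind (2 * ((2 ^ k : ℕ) : ℤ) < dst e g ∧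
        dst e g ≤ 4 * ((2 ^ k : ℕ) : ℤ)) *
        PQ q (RE a b c d) (SD (fun F => Cn I J ↑F) e g) := by
    intro e g
    rw [← Finset.sum_mul, ← add_mul]
    exact mul_le_mul_of_nonneg_right (ind_split K _) (hX e g)
  have close : ∑ e ∈ G, ∑ g ∈ (RE a b c d).erase e, ind (dst e g ≤ 2) *
      PQ q (RE a b c d) (SD (fun F => Cn I J ↑F) e g) ≤
      162 * 18 * 722 * 3 * κ⁻¹ ^ 4 * Λ * ((16 : ℝ) ^ 0 * 1 * 2 ^ (K - 0)) := by
    refine class_sum hW hΛ hn hIJ hG hG' (Nat.zero_le K) (fun e g => dst e g ≤ 2) ?_ zero_le_one ?_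
    · intro e g h
      norm_num
      linarith
    · intro e he g hg
      rw [one_mul]
      refine Pr_mono hOk ?_
      intro F _ hF
      have hg4 : dst e g ≤ 4 * ((2 ^ 0 : ℕ) : ℤ) := by
        norm_num
        linarith
      have hee : dst e e ≤ 4 * ((2 ^ 0 : ℕ) : ℤ) := by rw [dst_self]; norm_num
      exact SD_Bf (mem_tb (by norm_num) hee) (mem_tb (by norm_num) hg4) hF
  have cls : ∀ k ∈ Finset.range (K + 1), ∑ e ∈ G, ∑ g ∈ (RE a b c d).erase e,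
      ind (2 * ((2 ^ k : ℕ) : ℤ) < dst e g ∧ dst e g ≤ 4 * ((2 ^ k : ℕ) : ℤ)) *
      PQ q (RE a b c d) (SD (fun F => Cn I J ↑F) e g) ≤
      162 * 18 * 722 * 3 * κ⁻¹ ^ 4 * Λ * ((16 : ℝ) ^ k * (a4 q (2 ^ k)) ^ 2 * 2 ^ (K - k)) := by
    intro k hk
    have hk' : k ≤ K := by
      rw [Finset.mem_range] at hk
      omega
    refine class_sum hW hΛ hn hIJ hG hG' hk' (fun e g => 2 * ((2 ^ k : ℕ) : ℤ) < dst e g ∧
      dst e g ≤ 4 * ((2 ^ k : ℕ) : ℤ)) (fun e g h => h.2) (sq_nonneg _) ?_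
    intro e he g hg
    exact pair_bound h0 h1 hIJ Nat.one_le_two_pow (hGk k hk' e he) hg.2 hg.1
  calc ∑ e ∈ G, ∑ g ∈ (RE a b c d).erase e, ind (dst e g ≤ 4 * 2^K) *
      PQ q (RE a b c d) (SD (fun F => Cn I J ↑F) e g)
      ≤ ∑ e ∈ G, ∑ g ∈ (RE a b c d).erase e, (ind (dst e g ≤ 2) *
          PQ q (RE a b c d) (SD (fun F => Cn I J ↑F) e g) +
        ∑ k ∈ Finset.range (K + 1), ind (2 * ((2 ^ k : ℕ) : ℤ) < dst e g ∧
          dst e g ≤ 4 * ((2 ^ k : ℕ) : ℤ)) *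
          PQ q (RE a b c d) (SD (fun F => Cn I J ↑F) e g)) :=
        Finset.sum_le_sum fun e _ => Finset.sum_le_sum fun g _ => split e g
    _ = (∑ e ∈ G, ∑ g ∈ (RE a b c d).erase e, ind (dst e g ≤ 2) *
          PQ q (RE a b c d) (SD (fun F => Cn I J ↑F) e g)) +
        ∑ k ∈ Finset.range (K + 1), ∑ e ∈ G, ∑ g ∈ (RE a b c d).erase e,
          ind (2 * ((2 ^ k : ℕ) : ℤ) < dst e g ∧ dst e g ≤ 4 * ((2 ^ k : ℕ) : ℤ)) *
          PQ q (RE a b c d) (SD (fun F => Cn I J ↑F) e g) := by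
        rw [Finset.sum_comm (s := Finset.range (K + 1)), ← Finset.sum_add_distrib]
        refine Finset.sum_congr rfl fun e _ => ?_
        rw [Finset.sum_add_distrib]
        congr 1
        rw [Finset.sum_comm]
    _ ≤ 162 * 18 * 722 * 3 * κ⁻¹ ^ 4 * Λ * ((16 : ℝ) ^ 0 * 1 * 2 ^ (K - 0)) +
        ∑ k ∈ Finset.range (K + 1), 162 * 18 * 722 * 3 * κ⁻¹ ^ 4 * Λ *
          ((16 : ℝ) ^ k * (a4 q (2 ^ k)) ^ 2 * 2 ^ (K - k)) :=
        add_le_add close (Finset.sum_le_sum cls)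
    _ = 162 * 18 * 722 * 3 * κ⁻¹ ^ 4 * Λ * W2s q K := by
        unfold W2s
        rw [← Finset.mul_sum]
        simp only [pow_zero, one_mul, Nat.sub_zero]
        ring

end H973N
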