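import Pool.Agent.H973R3.NC.Defs

/-! Arithmetic of the sums of the near-critical module. -/

namespace H973N

open H974 H12S Finset

theorem geo_le (ρ : ℝ) (h : 7 / 6 ≤ ρ) (K : ℕ) :
    ∑ k ∈ Finset.range (K + 1), ρ ^ k ≤ 7 * ρ ^ K := by
  induction K with
  | zero => simp
  | succ K ih =>
    rw [Finset.sum_range_succ, pow_succ]
    have h0 : 0 ≤ ρ ^ K := by positivity
    nlinarith

theorem a4_nn {q : ℝ} (h0 : 0 ≤ q) (h1 : q ≤ 1) (m : ℕ) : 0 ≤ a4 q m := by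
  unfold a4
  exact add_nonneg (Pr_nonneg (fun _ => ⟨h0, h1⟩) _ _) (Pr_nonneg (fun _ => ⟨h0, h1⟩) _ _)

theorem two_rpow_comm (β : ℝ) (K : ℕ) : ((2:ℝ)^K) ^ β = ((2:ℝ) ^ β) ^ K := by
  rw [← Real.rpow_natCast, ← Real.rpow_natCast, ← Real.rpow_mul (by norm_num),
    ← Real.rpow_mul (by norm_num), mul_comm]

theorem sqrt_two_pow (m : ℕ) : Real.sqrt ((2:ℝ)^m) = (Real.sqrt 2) ^ m := by
  have h : ((2:ℝ)^m) = ((Real.sqrt 2) ^ m) ^ 2 := by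
    rw [← pow_mul, mul_comm, pow_mul, Real.sq_sqrt (by norm_num)]
  rw [h, Real.sqrt_sq (by positivity)]

theorem W_bounds {ε : ℝ} (h0 : 0 < ε) (h1 : ε < 1 / 4) : ∃ C : ℝ, 0 < C ∧
    ∀ (q A : ℝ) (K : ℕ), 0 ≤ q → q ≤ 1 → 1 ≤ A →
    (∀ k ≤ K, a4 q (2^k) ≤ A * ((2:ℝ)^k) ^ (-(5/4 : ℝ) + ε)) →
    W1s q K ≤ C * A * ((2:ℝ)^K) ^ ((3/4 : ℝ) + ε) ∧
    W2s q K ≤ C * A^2 * ((2:ℝ)^K) ^ ((3/2 : ℝ) + 2 * ε) ∧
    (4:ℝ)^K * a4 q (2^K) * W1s q K ≤ C * A^2 * ((2:ℝ)^K) ^ ((3/2 : ℝ) + 2 * ε) := by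
  refine ⟨8, by norm_num, ?_⟩
  intro q A K hq0 hq1 hA hk
  obtain ⟨p, hpdef⟩ : ∃ p : ℝ, p = (2:ℝ) ^ (-(5/4 : ℝ) + ε) := ⟨_, rfl⟩
  obtain ⟨s, hsdef⟩ : ∃ s : ℝ, s = Real.sqrt 2 := ⟨_, rfl⟩
  have hp : 0 < p := by rw [hpdef]; positivity
  have hs : 0 < s := by rw [hsdef]; positivity
  have hs2 : s ^ 2 = 2 := by rw [hsdef]; exact Real.sq_sqrt (by norm_num)
  have e1 : (2:ℝ) ^ ((3/4 : ℝ) + ε) = 4 * p := by
    have : (3/4 : ℝ) + ε = 2 + (-(5/4 : ℝ) + ε) := by ring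
    rw [this, Real.rpow_add (by norm_num), hpdef]
    norm_num
  have e2 : (2:ℝ) ^ ((3/2 : ℝ) + 2 * ε) = 16 * p ^ 2 := by
    have : (3/2 : ℝ) + 2 * ε = ((3/4 : ℝ) + ε) + ((3/4 : ℝ) + ε) := by ring
    rw [this, Real.rpow_add (by norm_num), e1]
    ring
  have hw : 7 / 6 * s ≤ 4 * p := by
    have h3 : (2:ℝ) ^ (3/4 : ℝ) ≤ 4 * p := by
      rw [← e1]
      exact Real.rpow_le_rpow_of_exponent_le (by norm_num) (by linarith)
    have h4 : ((2:ℝ) ^ (3/4 : ℝ)) ^ 4 = 8 := by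
      rw [← Real.rpow_natCast, ← Real.rpow_mul (by norm_num)]
      norm_num
    have h5 : (7 / 6 * s) ^ 4 ≤ ((2:ℝ) ^ (3/4 : ℝ)) ^ 4 := by
      rw [h4]
      have : (7 / 6 * s) ^ 4 = (7 / 6) ^ 4 * (s ^ 2) ^ 2 := by ring
      rw [this, hs2]
      norm_num
    exact le_trans (le_of_pow_le_pow_left₀ (by norm_num) (by positivity) h5) h3
  have hρ1 : 7 / 6 ≤ 4 * p / s := by
    rw [le_div_iff₀ hs]; exact hw
  have hρ2 : 7 / 6 ≤ 8 * p ^ 2 := by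
    have h3 : (7 / 6 * s) ^ 2 ≤ (4 * p) ^ 2 := pow_le_pow_left₀ (by positivity) hw 2
    nlinarith
  have ha : ∀ k ≤ K, a4 q (2^k) ≤ A * p ^ k := by
    intro k hkK
    have := hk k hkK
    rwa [two_rpow_comm, ← hpdef] at this
  have hn : ∀ k, 0 ≤ a4 q (2^k) := fun k => a4_nn hq0 hq1 _
  have hA0 : 0 < A := by linarith
  rw [two_rpow_comm, two_rpow_comm, e1, e2]
  have W1 : W1s q K ≤ 8 * A * (4 * p) ^ K := by
    unfold W1s
    have h3 : Real.sqrt ((2:ℝ)^K) ≤ A * (4 * p) ^ K := by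
      rw [sqrt_two_pow, ← hsdef]
      have h4 : s ^ K ≤ (4 * p) ^ K := pow_le_pow_left₀ hs.le (by linarith) K
      have h5 : 0 ≤ (4 * p) ^ K := by positivity
      nlinarith
    have h4 : ∑ k ∈ Finset.range (K + 1), (4:ℝ)^k * a4 q (2^k) * Real.sqrt ((2:ℝ)^(K - k)) ≤
        ∑ k ∈ Finset.range (K + 1), A * s ^ K * (4 * p / s) ^ k := by
      apply Finset.sum_le_sum
      intro k hkr
      have hkK : k ≤ K := by
        have := Finset.mem_range.1 hkr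
        omega
      rw [sqrt_two_pow, ← hsdef, pow_sub₀ _ hs.ne' hkK, div_pow, mul_pow]
      have h5 : (4:ℝ)^k * a4 q (2^k) * (s ^ K * (s ^ k)⁻¹) ≤
          (4:ℝ)^k * (A * p ^ k) * (s ^ K * (s ^ k)⁻¹) := by
        have h6 : 0 ≤ s ^ K * (s ^ k)⁻¹ := by positivity
        have h7 : (4:ℝ)^k * a4 q (2^k) ≤ (4:ℝ)^k * (A * p ^ k) :=
          mul_le_mul_of_nonneg_left (ha k hkK) (by positivity)
        exact mul_le_mul_of_nonneg_right h7 h6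
      refine le_trans h5 (le_of_eq ?_)
      field_simp
    rw [← Finset.mul_sum] at h4
    have h5 := geo_le _ hρ1 K
    have h6 : A * s ^ K * ∑ k ∈ Finset.range (K + 1), (4 * p / s) ^ k ≤
        A * s ^ K * (7 * (4 * p / s) ^ K) := mul_le_mul_of_nonneg_left h5 (by positivity)
    have h7 : A * s ^ K * (7 * (4 * p / s) ^ K) = 7 * A * (4 * p) ^ K := by
      rw [div_pow]
      field_simp
    linarith
  have W2 : W2s q K ≤ 8 * A ^ 2 * (16 * p ^ 2) ^ K := by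
    unfold W2s
    have hA2 : 1 ≤ A ^ 2 := by nlinarith
    have h3 : (2:ℝ) ^ K ≤ A ^ 2 * (16 * p ^ 2) ^ K := by
      have h4 : (2:ℝ) ^ K ≤ (16 * p ^ 2) ^ K := pow_le_pow_left₀ (by norm_num) (by linarith) K
      have h5 : 0 ≤ (16 * p ^ 2) ^ K := by positivity
      nlinarith
    have h4 : ∑ k ∈ Finset.range (K + 1), (16:ℝ)^k * (a4 q (2^k))^2 * (2:ℝ)^(K - k) ≤
        ∑ k ∈ Finset.range (K + 1), A ^ 2 * 2 ^ K * (8 * p ^ 2) ^ k := by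
      apply Finset.sum_le_sum
      intro k hkr
      have hkK : k ≤ K := by
        have := Finset.mem_range.1 hkr
        omega
      rw [pow_sub₀ _ (by norm_num : (2:ℝ) ≠ 0) hkK]
      have h5 : (16:ℝ)^k * (a4 q (2^k))^2 * ((2:ℝ) ^ K * (2 ^ k)⁻¹) ≤
          (16:ℝ)^k * (A * p ^ k)^2 * ((2:ℝ) ^ K * (2 ^ k)⁻¹) := by
        have h6 : 0 ≤ (2:ℝ) ^ K * (2 ^ k)⁻¹ := by positivity
        have h8 : (a4 q (2^k))^2 ≤ (A * p ^ k)^2 := pow_le_pow_left₀ (hn k) (ha k hkK) 2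
        have h7 : (16:ℝ)^k * (a4 q (2^k))^2 ≤ (16:ℝ)^k * (A * p ^ k)^2 :=
          mul_le_mul_of_nonneg_left h8 (by positivity)
        exact mul_le_mul_of_nonneg_right h7 h6
      refine le_trans h5 (le_of_eq ?_)
      have h9 : (16:ℝ) ^ k = 2 ^ k * 8 ^ k := by rw [← mul_pow]; norm_num
      rw [h9, mul_pow 8, ← pow_mul p 2 k, mul_comm 2 k, pow_mul]
      field_simp
    rw [← Finset.mul_sum] at h4
    have h5 := geo_le _ hρ2 K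
    have h6 : A ^ 2 * 2 ^ K * ∑ k ∈ Finset.range (K + 1), (8 * p ^ 2) ^ k ≤
        A ^ 2 * 2 ^ K * (7 * (8 * p ^ 2) ^ K) := mul_le_mul_of_nonneg_left h5 (by positivity)
    have h7 : A ^ 2 * 2 ^ K * (7 * (8 * p ^ 2) ^ K) = 7 * A ^ 2 * (16 * p ^ 2) ^ K := by
      have h9 : (16 * p ^ 2) ^ K = 2 ^ K * (8 * p ^ 2) ^ K := by rw [← mul_pow]; ring
      rw [h9]; ring
    linarith
  refine ⟨W1, W2, ?_⟩
  have h3 : (4:ℝ)^K * a4 q (2^K) ≤ (4:ℝ)^K * (A * p ^ K) :=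
    mul_le_mul_of_nonneg_left (ha K le_rfl) (by positivity)
  have h4 : 0 ≤ (4:ℝ)^K * a4 q (2^K) := mul_nonneg (by positivity) (hn K)
  calc (4:ℝ)^K * a4 q (2^K) * W1s q K ≤ (4:ℝ)^K * a4 q (2^K) * (8 * A * (4 * p) ^ K) :=
        mul_le_mul_of_nonneg_left W1 h4
    _ ≤ (4:ℝ)^K * (A * p ^ K) * (8 * A * (4 * p) ^ K) :=
        mul_le_mul_of_nonneg_right h3 (by positivity)
    _ = 8 * A ^ 2 * (16 * p ^ 2) ^ K := by
        have h9 : (16 * p ^ 2) ^ K = 4 ^ K * p ^ K * (4 * p) ^ K := by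
          rw [← mul_pow, ← mul_pow]; ring
        rw [h9]; ring

end H973N
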