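import Pool.Agent.H973R3.NC.WH

/-! # Task FP: pairs of edges at distance larger than `4 * 2^K` -/

namespace H973N.FPX

open H974 H12S Finset H973N

theorem a4_nonneg {q : ℝ} (h0 : 0 ≤ q) (h1 : q ≤ 1) (m : ℕ) : 0 ≤ a4 q m := by
  have hok : Ok (fun _ : Edg => q) := fun _ => ⟨h0, h1⟩
  unfold a4
  exact add_nonneg (Pr_nonneg hok _ _) (Pr_nonneg hok _ _)

theorem W1s_nonneg {q : ℝ} (h0 : 0 ≤ q) (h1 : q ≤ 1) (K : ℕ) : 0 ≤ W1s q K := by
  unfold W1s
  apply add_nonneg (Real.sqrt_nonneg _)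
  apply Finset.sum_nonneg
  intro k _
  have := a4_nonneg h0 h1 (2^k)
  positivity

theorem W1s_mono {q : ℝ} (h0 : 0 ≤ q) (h1 : q ≤ 1) {K K' : ℕ} (h : K ≤ K') :
    W1s q K ≤ W1s q K' := by
  unfold W1s
  apply add_le_add
  · apply Real.sqrt_le_sqrt
    exact pow_le_pow_right₀ (by norm_num) h
  · calc ∑ k ∈ Finset.range (K + 1), (4:ℝ)^k * a4 q (2^k) * Real.sqrt ((2:ℝ)^(K - k))
        ≤ ∑ k ∈ Finset.range (K + 1), (4:ℝ)^k * a4 q (2^k) * Real.sqrt ((2:ℝ)^(K' - k)) := by
          apply Finset.sum_le_sum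
          intro k _
          have := a4_nonneg h0 h1 (2^k)
          apply mul_le_mul_of_nonneg_left _ (by positivity)
          apply Real.sqrt_le_sqrt
          exact pow_le_pow_right₀ (by norm_num) (by omega)
      _ ≤ _ := by
          apply Finset.sum_le_sum_of_subset_of_nonneg
          · intro k hk
            rw [Finset.mem_range] at hk ⊢
            omega
          · intro k _ _
            have := a4_nonneg h0 h1 (2^k)
            positivity

theorem mem_blk_dst {e g : Edg} {ρ : ℕ} (h : g ∈ blk (bp e) ρ) : dst e g ≤ ρ := by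
  unfold blk bp at h
  unfold dst
  rw [max_le_iff, abs_le, abs_le]
  obtain ⟨x, y, _ | _⟩ := g
  · rw [mem_RE_false] at h
    simp only at h ⊢
    omega
  · rw [mem_RE_true] at h
    simp only at h ⊢
    omega

theorem dst_self (e : Edg) : dst e e = 0 := by simp [dst]

theorem dst_comm (e g : Edg) : dst e g = dst g e := by
  unfold dst
  rw [abs_sub_comm, abs_sub_comm e.2.1]

theorem dst_tri (e f g : Edg) : dst e g ≤ dst e f + dst f g := by
  unfold dst
  apply max_le
  · calc |e.1 - g.1| ≤ |e.1 - f.1| + |f.1 - g.1| := abs_sub_le _ _ _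
      _ ≤ _ := add_le_add (le_max_left _ _) (le_max_left _ _)
  · calc |e.2.1 - g.2.1| ≤ |e.2.1 - f.2.1| + |f.2.1 - g.2.1| := abs_sub_le _ _ _
      _ ≤ _ := add_le_add (le_max_right _ _) (le_max_right _ _)

theorem self_mem_blk {e : Edg} {ρ : ℕ} (hρ : 1 ≤ ρ) : e ∈ blk (bp e) ρ := by
  unfold blk bp
  obtain ⟨x, y, _ | _⟩ := e
  · rw [mem_RE_false]
    simp only
    omega
  · rw [mem_RE_true]
    simp only
    omega

/-- One pair of edges: the four-arm event at `e` and the influence of `g` outside the ball. -/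
theorem pair_bound {q : ℝ} (h0 : 0 ≤ q) (h1 : q ≤ 1) {U : Finset Edg} {I J : Set Vtx} {ρ : ℕ}
    (hρ : 1 ≤ ρ) {e g : Edg} (hB : blk (bp e) ρ ⊆ U) (hg : g ∉ blk (bp e) ρ)
    (hI : Off (e.1 - ρ) (e.1 + ρ) (e.2.1 - ρ) (e.2.1 + ρ) I J) :
    PQ q U (SD (fun F => Cn I J ↑F) e g) ≤
      Ex (fun _ => q) (blk (bp e) ρ) (fun w => ind (L4 ρ e (↑w : Set Edg)) *
        (PQ q (U \ blk (bp e) ρ) (Pf (CO I J ↑(w.erase e)) g) +
          PQ q (U \ blk (bp e) ρ) (Pf (CO I J ↑(insert e w)) g))) := by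
  have hok : Ok (fun _ : Edg => q) := fun _ => ⟨h0, h1⟩
  set B := blk (bp e) ρ with hBdef
  have heB : e ∈ B := self_mem_blk hρ
  have hge : g ≠ e := fun h => hg (h ▸ heB)
  have hU : U = B ∪ (U \ B) := by rw [Finset.union_sdiff_of_subset hB]
  have hd : Disjoint B (U \ B) := Finset.disjoint_sdiff
  unfold PQ Pr
  conv_lhs => rw [hU, Ex_union hd]
  apply Ex_mono hok
  intro w hw
  rw [← Ex_add, ← Ex_mul_left]
  apply Ex_mono hok
  intro F hF
  have hgw : g ∉ w := fun h => hg (hw h)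
  have heF : e ∉ F := fun h => (Finset.mem_sdiff.mp (hF h)).2 heB
  -- it suffices to show an implication
  have key : SD (fun F => Cn I J ↑F) e g (w ∪ F) → L4 ρ e (↑w : Set Edg) ∧
      (Pf (CO I J ↑(w.erase e)) g F ∨ Pf (CO I J ↑(insert e w)) g F) := by
    intro h
    refine ⟨?_, ?_⟩
    · have hL : ∀ F' : Finset Edg, (∀ x, x ≠ g → (x ∈ F' ↔ x ∈ w ∪ F)) →
          Pf (fun F => Cn I J ↑F) e F' → L4 ρ e (↑w : Set Edg) := by
        intro F' hF' hp
        have hp' : Pf (CO I J ∅) e F' := by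
          unfold Pf CO at *
          simpa using hp
        have h4 := piv_L4 hρ (by simp) hI hp'
        unfold L4 at h4 ⊢
        refine (A4_congr ?_).1 h4
        intro x hx _
        have hxB : x ∈ B := hx
        have hxg : x ≠ g := fun h => hg (h ▸ hxB)
        have hxF : x ∉ F := fun h => (Finset.mem_sdiff.mp (hF h)).2 hxB
        rw [Finset.mem_coe, Finset.mem_coe, hF' x hxg, Finset.mem_union]
        tauto
      rcases h.1 with h' | h'
      · refine hL _ ?_ h'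
        intro x hx
        rw [Finset.mem_erase]
        tauto
      · refine hL _ ?_ h'
        intro x hx
        rw [Finset.mem_insert]
        tauto
    · rcases h.2.1 with h' | h'
      · left
        have s1 : (↑(insert g ((w ∪ F).erase e)) : Set Edg) =
            ↑(insert g F) ∪ ↑(w.erase e) := by
          ext x
          simp only [Finset.coe_insert, Finset.coe_erase, Finset.coe_union, Set.mem_insert_iff,
            Set.mem_sdiff, Set.mem_union, Finset.mem_coe, Set.mem_singleton_iff]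
          constructor
          · rintro (h | ⟨h | h, h'⟩)
            · exact Or.inl (Or.inl h)
            · exact Or.inr ⟨h, h'⟩
            · exact Or.inl (Or.inr h)
          · rintro ((h | h) | ⟨h, h'⟩)
            · exact Or.inl h
            · exact Or.inr ⟨Or.inr h, fun hxe => heF (hxe ▸ h)⟩
            · exact Or.inr ⟨Or.inl h, h'⟩
        have s2 : (↑(((w ∪ F).erase e).erase g) : Set Edg) =
            ↑(F.erase g) ∪ ↑(w.erase e) := by
          ext x
          simp only [Finset.coe_erase, Finset.coe_union,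
            Set.mem_sdiff, Set.mem_union, Finset.mem_coe, Set.mem_singleton_iff]
          constructor
          · rintro ⟨⟨h | h, h'⟩, h''⟩
            · exact Or.inr ⟨h, h'⟩
            · exact Or.inl ⟨h, h''⟩
          · rintro (⟨h, h'⟩ | ⟨h, h'⟩)
            · exact ⟨⟨Or.inr h, fun hxe => heF (hxe ▸ h)⟩, h'⟩
            · exact ⟨⟨Or.inl h, h'⟩, fun hxg => hgw (hxg ▸ h)⟩
        unfold Pf at h' ⊢
        unfold CO
        rw [← s1, ← s2]
        exact h'
      · right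
        have s1 : (↑(insert g (insert e (w ∪ F))) : Set Edg) =
            ↑(insert g F) ∪ ↑(insert e w) := by
          ext x
          simp only [Finset.coe_insert, Finset.coe_union, Set.mem_insert_iff,
            Set.mem_union, Finset.mem_coe]
          tauto
        have s2 : (↑((insert e (w ∪ F)).erase g) : Set Edg) =
            ↑(F.erase g) ∪ ↑(insert e w) := by
          ext x
          simp only [Finset.coe_insert, Finset.coe_erase, Finset.coe_union,
            Set.mem_sdiff, Set.mem_union, Set.mem_insert_iff, Finset.mem_coe,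
            Set.mem_singleton_iff]
          constructor
          · rintro ⟨h | h | h, h'⟩
            · exact Or.inr (Or.inl h)
            · exact Or.inr (Or.inr h)
            · exact Or.inl ⟨h, h'⟩
          · rintro (⟨h, h'⟩ | h | h)
            · exact ⟨Or.inr (Or.inr h), h'⟩
            · exact ⟨Or.inl h, fun hxg => hge (hxg ▸ h)⟩
            · exact ⟨Or.inr (Or.inl h), fun hxg => hgw (hxg ▸ h)⟩
        unfold Pf at h' ⊢
        unfold CO
        rw [← s1, ← s2]
        exact h'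
  calc ind (SD (fun F => Cn I J ↑F) e g (w ∪ F))
      ≤ ind (L4 ρ e (↑w : Set Edg) ∧
          (Pf (CO I J ↑(w.erase e)) g F ∨ Pf (CO I J ↑(insert e w)) g F)) := ind_mono key
    _ = ind (L4 ρ e (↑w : Set Edg)) *
        ind (Pf (CO I J ↑(w.erase e)) g F ∨ Pf (CO I J ↑(insert e w)) g F) := ind_and _ _
    _ ≤ ind (L4 ρ e (↑w : Set Edg)) *
        (ind (Pf (CO I J ↑(w.erase e)) g F) + ind (Pf (CO I J ↑(insert e w)) g F)) :=
        mul_le_mul_of_nonneg_left (ind_or_le _ _) (ind_nonneg _)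

theorem card_core (G : Finset Edg) (N : ℕ) (hN : 1 ≤ N)
    (hG : ∀ e ∈ G, |e.1| ≤ N ∧ |e.2.1| ≤ N) : (G.card : ℝ) ≤ 18 * (N:ℝ)^2 := by
  have hsub : G ⊆ (Finset.Icc (-(N:ℤ)) N) ×ˢ ((Finset.Icc (-(N:ℤ)) N) ×ˢ
      (Finset.univ : Finset Bool)) := by
    intro e he
    have h := hG e he
    rw [abs_le, abs_le] at h
    simp only [Finset.mem_product, Finset.mem_Icc, Finset.mem_univ, and_true]
    exact ⟨h.1, h.2⟩
  have h1 := Finset.card_le_card hsub
  rw [Finset.card_product, Finset.card_product, Int.card_Icc] at h1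
  have e1 : ((N:ℤ) + 1 - -(N:ℤ)).toNat = 2 * N + 1 := by omega
  simp only [Finset.card_univ, Fintype.card_bool, e1] at h1
  have h2 : (G.card : ℝ) ≤ (2 * N + 1) * ((2 * N + 1) * 2) := by exact_mod_cast h1
  have hNr : (1:ℝ) ≤ N := by exact_mod_cast hN
  nlinarith

/-- The sum over the far edges `g`, for one edge `e`. -/
theorem one_edge {κ C : ℝ} (hC : 0 < C) (hW : ∀ (q : ℝ) (n : ℕ), Win q κ n →
    ∀ (a b c d : ℤ) (K Λ : ℕ), 1 ≤ Λ → 4 * 2^K ≤ n → b - a ≤ Λ * 2^K → d - c ≤ Λ * 2^K →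
    ∀ (S : Finset Edg) (I J : Set Vtx) (O : Set Edg), Disjoint O ↑S → Off a b c d I J →
    ∀ G : Finset Edg, G ⊆ S → G ⊆ RE a b c d →
    (∀ g ∈ G, ∀ e ∈ RE (a + 1) (b - 1) (c + 1) (d - 1), dst e g ≤ 8 * 2^K → e ∈ S) →
    ∑ g ∈ G, PQ q S (Pf (CO I J O) g) ≤ C * Λ * W1s q K)
    {q : ℝ} {n : ℕ} (h : Win q κ n) {a b c d : ℤ} {K Λ : ℕ} (hK : 2 ≤ K) (hΛ : 1 ≤ Λ)
    (hn : 12 * 2^K ≤ n) (hba : b - a ≤ Λ * 2^K) (hdc : d - c ≤ Λ * 2^K) {I J : Set Vtx}
    (hOff : Off a b c d I J) {e : Edg}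
    (he : (a + 24 * 2^K ≤ e.1 ∧ e.1 ≤ b - 24 * 2^K) ∧
      (c + 24 * 2^K ≤ e.2.1 ∧ e.2.1 ≤ d - 24 * 2^K)) :
    ∑ g ∈ (RE a b c d).erase e, ind (¬ dst e g ≤ 4 * 2^K) *
      PQ q (RE a b c d) (SD (fun F => Cn I J ↑F) e g) ≤
        8 * C * Λ * (a4 q (2^K) * W1s q K) := by
  classical
  have h0 : 0 ≤ q := by linarith [h.lo]
  have h1 : q ≤ 1 := by linarith [h.hi]
  have hok : Ok (fun _ : Edg => q) := fun _ => ⟨h0, h1⟩
  have hρ : 1 ≤ 2^K := Nat.one_le_two_pow
  have hρZ : (1:ℤ) ≤ 2^K := by exact_mod_cast hρ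
  have h4 : (2:ℕ)^K = 4 * 2^(K-2) := by
    rw [show (4:ℕ) = 2^2 by norm_num, ← pow_add]
    congr 1
    omega
  have h4Z : (2:ℤ)^K = 4 * 2^(K-2) := by exact_mod_cast h4
  set B := blk (bp e) (2^K) with hBdef
  set U := RE a b c d with hUdef
  have hB : B ⊆ U := by
    rw [hBdef, hUdef]
    unfold blk bp
    apply RE_subset <;> push_cast <;> omega
  have hIe : Off (e.1 - (2^K : ℕ)) (e.1 + (2^K : ℕ)) (e.2.1 - (2^K : ℕ)) (e.2.1 + (2^K : ℕ))
      I J := by
    intro v hv hv'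
    push_cast at hv'
    apply hOff v hv
    omega
  set G' := U.filter (fun g => ¬ dst e g ≤ 4 * 2^K) with hG'
  have hG'B : ∀ g ∈ G', g ∉ B := by
    intro g hg hgB
    have k1 := mem_blk_dst hgB
    have k2 := (Finset.mem_filter.mp hg).2
    push_cast at k1
    omega
  -- the influences outside the ball
  have hinf : ∀ w : Finset Edg, w ⊆ B →
      ∑ g ∈ G', PQ q (U \ B) (Pf (CO I J ↑w) g) ≤ 4 * C * Λ * W1s q K := by
    intro w hw
    have k := hW q n h a b c d (K-2) (4 * Λ) (by omega) (by omega)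
      (by push_cast; rw [h4Z] at hba; linarith) (by push_cast; rw [h4Z] at hdc; linarith)
      (U \ B) I J (↑w) ?_ hOff G' ?_ (Finset.filter_subset _ _) ?_
    · refine k.trans ?_
      have m := W1s_mono h0 h1 (show K - 2 ≤ K by omega)
      push_cast
      calc C * (4 * (Λ:ℝ)) * W1s q (K - 2) = 4 * C * Λ * W1s q (K-2) := by ring
        _ ≤ 4 * C * Λ * W1s q K := mul_le_mul_of_nonneg_left m (by positivity)
    · rw [Finset.disjoint_coe, Finset.disjoint_left]
      intro x hx hx'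
      exact (Finset.mem_sdiff.mp hx').2 (hw hx)
    · intro g hg
      rw [Finset.mem_sdiff]
      exact ⟨(Finset.mem_filter.mp hg).1, hG'B g hg⟩
    · intro g hg e' he' hd
      rw [Finset.mem_sdiff]
      refine ⟨RE_subset (by omega) (by omega) (by omega) (by omega) he', ?_⟩
      intro hB'
      have k1 := mem_blk_dst hB'
      have k2 := (Finset.mem_filter.mp hg).2
      have k3 := dst_tri e e' g
      push_cast at k1
      omega
  have hterm : ∀ g ∈ G', PQ q U (SD (fun F => Cn I J ↑F) e g) ≤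
      Ex (fun _ => q) B (fun w => ind (L4 (2^K) e (↑w : Set Edg)) *
        (PQ q (U \ B) (Pf (CO I J ↑(w.erase e)) g) +
          PQ q (U \ B) (Pf (CO I J ↑(insert e w)) g))) := by
    intro g hg
    exact pair_bound h0 h1 hρ hB (hG'B g hg) hIe
  have hsd : ∀ g, 0 ≤ PQ q U (SD (fun F => Cn I J ↑F) e g) := fun g => Pr_nonneg hok _ _
  calc ∑ g ∈ U.erase e, ind (¬ dst e g ≤ 4 * 2^K) * PQ q U (SD (fun F => Cn I J ↑F) e g)
      ≤ ∑ g ∈ U, ind (¬ dst e g ≤ 4 * 2^K) * PQ q U (SD (fun F => Cn I J ↑F) e g) := by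
        apply Finset.sum_le_sum_of_subset_of_nonneg (Finset.erase_subset _ _)
        intro g _ _
        exact mul_nonneg (ind_nonneg _) (hsd g)
    _ = ∑ g ∈ G', PQ q U (SD (fun F => Cn I J ↑F) e g) := by
        rw [hG', Finset.sum_filter]
        apply Finset.sum_congr rfl
        intro g _
        by_cases hg : dst e g ≤ 4 * 2^K
        · rw [ind_not_of (by simpa using hg), zero_mul, if_neg (by simpa using hg)]
        · rw [ind_of hg, one_mul, if_pos hg]
    _ ≤ ∑ g ∈ G', Ex (fun _ => q) B (fun w => ind (L4 (2^K) e (↑w : Set Edg)) *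
        (PQ q (U \ B) (Pf (CO I J ↑(w.erase e)) g) +
          PQ q (U \ B) (Pf (CO I J ↑(insert e w)) g))) := Finset.sum_le_sum hterm
    _ = Ex (fun _ => q) B (fun w => ind (L4 (2^K) e (↑w : Set Edg)) *
        (∑ g ∈ G', PQ q (U \ B) (Pf (CO I J ↑(w.erase e)) g) +
          ∑ g ∈ G', PQ q (U \ B) (Pf (CO I J ↑(insert e w)) g))) := by
        rw [← Ex_sum]
        apply Ex_congr
        intro w _
        rw [← Finset.mul_sum, Finset.sum_add_distrib]
    _ ≤ Ex (fun _ => q) B (fun w => ind (L4 (2^K) e (↑w : Set Edg)) *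
        (8 * C * Λ * W1s q K)) := by
        apply Ex_mono hok
        intro w hw
        apply mul_le_mul_of_nonneg_left _ (ind_nonneg _)
        have k1 := hinf (w.erase e) ((Finset.erase_subset _ _).trans hw)
        have k2 := hinf (insert e w) (Finset.insert_subset (self_mem_blk hρ) hw)
        linarith
    _ = PQ q B (fun w => L4 (2^K) e (↑w : Set Edg)) * (8 * C * Λ * W1s q K) := by
        rw [Ex_mul_right]
        rfl
    _ ≤ a4 q (2^K) * (8 * C * Λ * W1s q K) := by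
        apply mul_le_mul_of_nonneg_right (pr_L4 h0 h1 (Finset.Subset.refl _))
        have := W1s_nonneg h0 h1 K
        positivity
    _ = 8 * C * Λ * (a4 q (2^K) * W1s q K) := by ring

end H973N.FPX

namespace H973N

open H974 H12S Finset FPX

theorem far_sum (κ : ℝ) (hκ : 0 < κ) : ∃ C : ℝ, 0 < C ∧ ∀ (q : ℝ) (n : ℕ), Win q κ n →
    ∀ (a b c d : ℤ) (K Λ : ℕ), 2 ≤ K → 1 ≤ Λ → 12 * 2^K ≤ n → b - a ≤ Λ * 2^K →
    d - c ≤ Λ * 2^K → ∀ (I J : Set Vtx), Off a b c d I J →
    ∀ G : Finset Edg, (∀ e ∈ G, |e.1| ≤ Λ * 2^K ∧ |e.2.1| ≤ Λ * 2^K) →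
    (∀ e ∈ G, (a + 24 * 2^K ≤ e.1 ∧ e.1 ≤ b - 24 * 2^K) ∧
      (c + 24 * 2^K ≤ e.2.1 ∧ e.2.1 ≤ d - 24 * 2^K)) →
    ∑ e ∈ G, ∑ g ∈ (RE a b c d).erase e, ind (¬ dst e g ≤ 4 * 2^K) *
      PQ q (RE a b c d) (SD (fun F => Cn I J ↑F) e g) ≤
        C * Λ^3 * ((4:ℝ)^K * a4 q (2^K) * W1s q K) := by
  obtain ⟨C, hC, hW⟩ := whitney_sum κ hκ
  refine ⟨144 * C, by positivity, ?_⟩
  intro q n h a b c d K Λ hK hΛ hn hba hdc I J hOff G hG1 hG2
  have h0 : 0 ≤ q := by linarith [h.lo]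
  have h1 : q ≤ 1 := by linarith [h.hi]
  have ha := a4_nonneg h0 h1 (2^K)
  have hw := W1s_nonneg h0 h1 K
  have hcard := card_core G (Λ * 2^K) (Nat.one_le_iff_ne_zero.mpr (by positivity))
    (fun e he => by have := hG1 e he; push_cast; exact this)
  have h4 : ((2:ℝ)^K)^2 = (4:ℝ)^K := by
    rw [← pow_mul, mul_comm, pow_mul]
    norm_num
  calc ∑ e ∈ G, ∑ g ∈ (RE a b c d).erase e, ind (¬ dst e g ≤ 4 * 2^K) *
        PQ q (RE a b c d) (SD (fun F => Cn I J ↑F) e g)
      ≤ ∑ _e ∈ G, 8 * C * Λ * (a4 q (2^K) * W1s q K) :=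
        Finset.sum_le_sum (fun e he => one_edge hC hW h hK hΛ hn hba hdc hOff (hG2 e he))
    _ = G.card * (8 * C * Λ * (a4 q (2^K) * W1s q K)) := by
        rw [Finset.sum_const, nsmul_eq_mul]
    _ ≤ (18 * ((Λ * 2^K : ℕ) : ℝ)^2) * (8 * C * Λ * (a4 q (2^K) * W1s q K)) :=
        mul_le_mul_of_nonneg_right hcard (by positivity)
    _ = 144 * C * Λ^3 * ((4:ℝ)^K * a4 q (2^K) * W1s q K) := by
        push_cast
        rw [mul_pow, h4]
        ring

end H973N
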