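import Pool.Agent.H973R3.NC.AsmC
import Pool.Agent.H12R2.Sep.Key3

/-!
Assembly, part 4: the key estimate, and the lower bound of the four-arm probabilities.
-/

set_option maxHeartbeats 1000000

namespace H973N

open H974 H12S Finset

theorem key_holds : KEY' := by
  intro κ hκ ε hε hε1
  obtain ⟨L, M1, M2, C, k0, hL, hM1, hM2, hC, h⟩ := key2 κ hκ ε hε hε1
  refine ⟨L, C, k0, hL, hC, ?_⟩
  intro q n hw k hk hkn
  have h0 : 0 ≤ q := by linarith [hw.lo]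
  have h1 : q ≤ 1 := by linarith [hw.hi]
  rcases h q n hw k hk hkn with h2 | ⟨m, hm, -, hmk, hmk4, -, σ, k1, σ', k2, -, -, h3⟩
  · exact Or.inl h2
  · right
    refine ⟨m, by omega, hmk, hmk4, cell σ m (2 * (m / M2 : ℕ) * k1) (m / M2),
      cell σ' m (2 * (m / M2 : ℕ) * k2) (m / M2), ?_, ?_⟩
    · have hc : ∀ (τ : Bool) (x : ℤ) (r : ℕ), ∀ v ∈ cell τ m x r, (m:ℤ) ≤ |v.2| := by
        intro τ x r v hv
        have hv2 : v.2 = sy τ m := (mem_cell.mp hv).1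
        rw [hv2]
        cases τ
        · unfold sy; simp
        · unfold sy; simp
      rintro v (hv | hv)
      · exact hc _ _ _ v hv
      · exact hc _ _ _ v hv
    · have hmpos : 1 ≤ 4 * L * m := by nlinarith
      have h4 : a4 q k ≤ a4 q (4 * L * m) := a4_anti h0 h1 hmpos hmk4
      have h5 : TS q L m (m / M2) (m / M1) σ k1 σ' k2 ≤
          ∑ e ∈ boxE (m / 4), PQ q (SR L m) (Pf (fun F : Finset Edg =>
            Cn (cell σ m (2 * (m / M2 : ℕ) * k1) (m / M2))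
              (cell σ' m (2 * (m / M2 : ℕ) * k2) (m / M2)) ↑F) e) := by
        unfold TS
        apply Finset.sum_le_sum
        intro e _
        apply Pr_mono (okq h0 h1)
        intro F _ hF
        rw [← Pv_iff]
        refine Qev_Pv ?_ hF.1
        have : m / M2 ≤ m / M1 := Nat.div_le_div_left (by omega) (by omega)
        omega
      calc (m:ℝ) ^ 2 * a4 q k ≤ (m:ℝ) ^ 2 * a4 q (4 * L * m) :=
            mul_le_mul_of_nonneg_left h4 (by positivity)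
        _ ≤ C * TS q L m (m / M2) (m / M1) σ k1 σ' k2 := h3
        _ ≤ _ := mul_le_mul_of_nonneg_left h5 hC.le

/-- STABILITY, in the form of `H12S.stab`. -/
theorem stab (hcrit : ∀ ε : ℝ, 0 < ε → ∃ C : ℝ, ∀ k : ℕ, 1 ≤ k →
      a4 (1/2) k ≤ C * (k:ℝ) ^ (-(5/4 : ℝ) + ε)) :
    ∃ κ : ℝ, 0 < κ ∧ ∀ ε : ℝ, 0 < ε → ε ≤ 1 / 8 → ∃ C : ℝ, 1 ≤ C ∧ ∀ n : ℕ, 1 ≤ n → ∀ q : ℝ,
      |q - 1/2| ≤ (n:ℝ) ^ (-(3/4 : ℝ) - ε) / C → Win q κ n ∧ A4le q C ε n := by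
  obtain ⟨κ, hκ, h⟩ := stab_of key_holds hcrit
  refine ⟨κ, hκ, ?_⟩
  intro ε h0 h1
  obtain ⟨C, hC, h2⟩ := h (ε/4) (by linarith) (by linarith)
  refine ⟨C, hC, ?_⟩
  intro n hn q hq
  have h3 := h2 n hn q (by rw [show (4:ℝ) * (ε/4) = ε by ring]; exact hq)
  refine ⟨h3.1, fun k hk => (h3.2 k hk).trans ?_⟩
  apply mul_le_mul_of_nonneg_left _ (by linarith)
  apply Real.rpow_le_rpow_of_exponent_le _ (by linarith)
  have : (0:ℝ) ≤ k := Nat.cast_nonneg _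
  linarith

/-- The input `near` of `H31K.Inp`. -/
theorem near_of (hcrit : ∀ ε : ℝ, 0 < ε → ∃ C : ℝ, ∀ k : ℕ, 1 ≤ k →
      a4 (1/2) k ≤ C * (k:ℝ) ^ (-(5/4 : ℝ) + ε)) :
    ∀ ε : ℝ, 0 < ε → ∃ κ B : ℝ, 0 < κ ∧ 0 < B ∧ ∀ n : ℕ, 1 ≤ n → ∀ q : ℝ,
      |q - 1/2| ≤ κ * (n:ℝ)^(-(3/4) - ε) → Win q κ n ∧
      ∀ m : ℕ, 1 ≤ m → m ≤ n → a4 q m ≤ B * (m:ℝ)^(-(5/4) + ε) := by
  obtain ⟨κ, hκ, h⟩ := stab hcrit
  intro ε hε
  set ε' : ℝ := min ε (1/8) with hε'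
  have he0 : 0 < ε' := lt_min hε (by norm_num)
  have he1 : ε' ≤ 1/8 := min_le_right _ _
  have he2 : ε' ≤ ε := min_le_left _ _
  obtain ⟨C, hC, h2⟩ := h ε' he0 he1
  have hCpos : 0 < C := by linarith
  set κ' : ℝ := min κ (1/C) with hκ'
  have hk0 : 0 < κ' := lt_min hκ (by positivity)
  refine ⟨κ', C, hk0, hCpos, ?_⟩
  intro n hn q hq
  have hnr : (1:ℝ) ≤ n := by exact_mod_cast hn
  have h3 := h2 n hn q (by
    refine hq.trans ?_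
    have i1 : (n:ℝ)^(-(3/4 : ℝ) - ε) ≤ (n:ℝ)^(-(3/4 : ℝ) - ε') :=
      Real.rpow_le_rpow_of_exponent_le hnr (by linarith)
    have i2 : κ' ≤ 1/C := min_le_right _ _
    calc κ' * (n:ℝ)^(-(3/4 : ℝ) - ε) ≤ (1/C) * (n:ℝ)^(-(3/4 : ℝ) - ε') :=
          mul_le_mul i2 i1 (by positivity) (by positivity)
      _ = _ := by ring)
  refine ⟨⟨hk0, le_trans (min_le_left _ _) h3.1.kle, h3.1.lo, h3.1.hi,
    fun k k1 k2 => le_trans (min_le_left _ _) (h3.1.pri k k1 k2),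
    fun k k1 k2 => le_trans (min_le_left _ _) (h3.1.dua k k1 k2)⟩, ?_⟩
  intro m hm hmn
  have hmr : (1:ℝ) ≤ m := by exact_mod_cast hm
  refine (h3.2 m hmn).trans (mul_le_mul_of_nonneg_left ?_ hCpos.le)
  calc ((m:ℝ) + 1)^(-(5/4 : ℝ) + ε') ≤ (m:ℝ)^(-(5/4 : ℝ) + ε') :=
        Real.rpow_le_rpow_of_nonpos (by linarith) (by linarith) (by linarith)
    _ ≤ _ := Real.rpow_le_rpow_of_exponent_le hmr (by linarith)

end H973N
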