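import Pool.Agent.H973R3.NC.ES
import Pool.Agent.H973R3.NC.A4L
import Pool.Agent.H973R3.NC.TS

/-! # Task WH: total influence by a Whitney decomposition -/

namespace H973N.WHX

open H974 H12S Finset H973N

/-- The integers `i` with `lo ≤ s i ≤ hi`. -/
noncomputable def gridI (s lo hi : ℤ) : Finset ℤ := Finset.Icc (-((-lo) / s)) (hi / s)

theorem mem_gridI {s lo hi i : ℤ} (hs : 0 < s) (h1 : lo ≤ s * i) (h2 : s * i ≤ hi) :
    i ∈ gridI s lo hi := by
  unfold gridI
  rw [Finset.mem_Icc]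
  constructor
  · have : -i ≤ (-lo) / s := by
      rw [Int.le_ediv_iff_mul_le hs]
      nlinarith
    linarith
  · rw [Int.le_ediv_iff_mul_le hs]
    nlinarith

theorem card_gridI {s lo hi : ℤ} {M : ℕ} (hs : 0 < s) (h : hi - lo < s * M) :
    (gridI s lo hi).card ≤ M := by
  unfold gridI
  rw [Int.card_Icc]
  have h1 : s * (hi / s) ≤ hi := Int.mul_ediv_self_le hs.ne'
  have h2 : s * ((-lo) / s) ≤ -lo := Int.mul_ediv_self_le hs.ne'
  have h3 : hi / s + (-lo) / s < M := by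
    by_contra hc
    push Not at hc
    have : s * (M : ℤ) ≤ s * (hi / s + (-lo) / s) := mul_le_mul_of_nonneg_left hc hs.le
    nlinarith
  omega

/-- The tile of an edge. -/
def til (ρ : ℕ) (g : Edg) : ℤ × ℤ := ((g.1 + ρ) / (2 * ρ), (g.2.1 + ρ) / (2 * ρ))

theorem til_near {ρ : ℕ} (hρ : 1 ≤ ρ) (g : Edg) :
    (g.1 - ρ ≤ ((2 * ρ : ℕ) : ℤ) * (til ρ g).1 - 0 ∧ ((2 * ρ : ℕ) : ℤ) * (til ρ g).1 ≤ g.1 + ρ ∧
      g.1 + 1 ≤ ((2 * ρ : ℕ) : ℤ) * (til ρ g).1 + ρ) ∧
    (g.2.1 - ρ ≤ ((2 * ρ : ℕ) : ℤ) * (til ρ g).2 - 0 ∧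
      ((2 * ρ : ℕ) : ℤ) * (til ρ g).2 ≤ g.2.1 + ρ ∧
      g.2.1 + 1 ≤ ((2 * ρ : ℕ) : ℤ) * (til ρ g).2 + ρ) := by
  have hpos : (0:ℤ) < 2 * ρ := by positivity
  have key : ∀ x : ℤ, x - ρ ≤ (2 * (ρ:ℤ)) * ((x + ρ) / (2 * ρ)) - 0 ∧
      (2 * (ρ:ℤ)) * ((x + ρ) / (2 * ρ)) ≤ x + ρ ∧
      x + 1 ≤ (2 * (ρ:ℤ)) * ((x + ρ) / (2 * ρ)) + ρ := by
    intro x
    have h1 : 2 * (ρ:ℤ) * ((x + ρ) / (2 * ρ)) ≤ x + ρ := Int.mul_ediv_self_le hpos.ne'
    have h2 : x + ρ < 2 * (ρ:ℤ) * ((x + ρ) / (2 * ρ)) + 2 * ρ :=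
      Int.lt_mul_ediv_self_add hpos
    omega
  unfold til
  push_cast
  exact ⟨key g.1, key g.2.1⟩

/-- Pivotality of an edge gives the local four-arm event and pivotality of a block. -/
theorem piv_split {q : ℝ} (h0 : 0 ≤ q) (h1 : q ≤ 1) {S : Finset Edg} {I J : Set Vtx}
    {O : Set Edg} (hO : Disjoint O ↑S) {ρ : ℕ} (hρ : 1 ≤ ρ) {g : Edg} {b : Finset Edg}
    (hb : blk (bp g) ρ ⊆ b) (hgb : g ∈ b) (hbS : b ⊆ S)
    (hI : Off (g.1 - ρ) (g.1 + ρ) (g.2.1 - ρ) (g.2.1 + ρ) I J) :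
    PQ q S (Pf (CO I J O) g) ≤ a4 q ρ * PQ q S (Bf (CO I J O) b) := by
  have hok : Ok (fun _ : Edg => q) := fun _ => ⟨h0, h1⟩
  have hmono : ∀ F F' : Finset Edg, F ⊆ F' → CO I J O F → CO I J O F' := by
    intro F F' hF h
    refine BS_Cn_mono ?_ h
    exact Set.union_subset_union_left _ (by exact_mod_cast hF)
  calc PQ q S (Pf (CO I J O) g)
      ≤ PQ q S (fun F => L4 ρ g (↑F : Set Edg) ∧ Bf (CO I J O) b F) := by
        apply Pr_mono hok
        intro F hF h
        refine ⟨piv_L4 hρ ?_ hI h, ?_, ?_⟩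
        · intro e he he'
          exact Set.disjoint_left.mp hO he (hbS (hb he'))
        · exact hmono _ _ (by
            intro x hx
            rcases Finset.mem_insert.mp hx with rfl | hx
            · exact Finset.mem_union_right _ hgb
            · exact Finset.mem_union_left _ hx) h.1
        · intro h'
          exact h.2 (hmono _ _ (by
            intro x hx
            rw [Finset.mem_sdiff] at hx
            rw [Finset.mem_erase]
            exact ⟨fun hxg => hx.2 (hxg ▸ hgb), hx.1⟩) h')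
    _ = PQ q S (fun F => L4 ρ g (↑F : Set Edg)) * PQ q S (Bf (CO I J O) b) := by
        refine Pr_indep (A := fun F => L4 ρ g (↑F : Set Edg)) (B := Bf (CO I J O) b) (S := b)
          (T := S \ b) hbS Finset.sdiff_subset Finset.disjoint_sdiff ?_ ?_
        · intro F hF
          unfold L4
          apply A4_congr
          intro e he _
          have : e ∈ b := hb he
          simp [this]
        · intro F hF
          unfold Bf
          have e1 : F ∩ (S \ b) ∪ b = F ∪ b := by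
            ext x
            simp only [Finset.mem_union, Finset.mem_inter, Finset.mem_sdiff]
            constructor
            · rintro (h | h)
              · exact Or.inl h.1
              · exact Or.inr h
            · rintro (h | h)
              · by_cases hx : x ∈ b
                · exact Or.inr hx
                · exact Or.inl ⟨h, hF h, hx⟩
              · exact Or.inr h
          have e2 : (F ∩ (S \ b)) \ b = F \ b := by
            ext x
            simp only [Finset.mem_inter, Finset.mem_sdiff]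
            constructor
            · rintro ⟨h, h'⟩
              exact ⟨h.1, h'⟩
            · rintro ⟨h, h'⟩
              exact ⟨⟨h, hF h, h'⟩, h'⟩
          rw [e1, e2]
    _ ≤ a4 q ρ * PQ q S (Bf (CO I J O) b) := by
        apply mul_le_mul_of_nonneg_right _ (Pr_nonneg hok _ _)
        exact pr_L4 h0 h1 (hb.trans hbS)

theorem a4_nonneg {q : ℝ} (h0 : 0 ≤ q) (h1 : q ≤ 1) (m : ℕ) : 0 ≤ a4 q m := by
  have hok : Ok (fun _ : Edg => q) := fun _ => ⟨h0, h1⟩
  unfold a4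
  exact add_nonneg (Pr_nonneg hok _ _) (Pr_nonneg hok _ _)

/-- Edges of a tile. -/
theorem card_tile {ρ : ℕ} (hρ : 1 ≤ ρ) (C : Finset Edg) (t : ℤ × ℤ) :
    (C.filter (fun g => til ρ g = t)).card ≤ 8 * ρ ^ 2 := by
  have hsub : C.filter (fun g => til ρ g = t) ⊆
      (Finset.Ico (2 * ρ * t.1 - ρ) (2 * ρ * t.1 + ρ)) ×ˢ
        ((Finset.Ico (2 * ρ * t.2 - ρ) (2 * ρ * t.2 + ρ)) ×ˢ (Finset.univ : Finset Bool)) := by
    intro g hg
    rw [Finset.mem_filter] at hg
    have h := til_near hρ g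
    rw [hg.2] at h
    push_cast at h
    simp only [Finset.mem_product, Finset.mem_Ico, Finset.mem_univ, and_true]
    omega
  refine (Finset.card_le_card hsub).trans (le_of_eq ?_)
  rw [Finset.card_product, Finset.card_product, Int.card_Ico, Int.card_Ico]
  simp only [Finset.card_univ, Fintype.card_bool]
  have e1 : (2 * (ρ:ℤ) * t.1 + ρ - (2 * ρ * t.1 - ρ)).toNat = 2 * ρ := by omega
  have e2 : (2 * (ρ:ℤ) * t.2 + ρ - (2 * ρ * t.2 - ρ)).toNat = 2 * ρ := by omega
  rw [e1, e2]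
  ring

/-- The contribution of one class of edges. -/
theorem class_sum {q κ : ℝ} {n : ℕ} (h : Win q κ n) {S : Finset Edg} {I J : Set Vtx}
    {O : Set Edg} (hO : Disjoint O ↑S) {ρ : ℕ} (hρ : 1 ≤ ρ) (hn : 4 * ρ ≤ n) (C : Finset Edg)
    (hS : ∀ g ∈ C, blk (((2 * ρ : ℕ) : ℤ) * (til ρ g).1, ((2 * ρ : ℕ) : ℤ) * (til ρ g).2)
      (3 * (2 * ρ)) ⊆ S)
    (hIJ : ∀ g ∈ C, Off (((2 * ρ : ℕ) : ℤ) * (til ρ g).1 - 3 * ((2 * ρ : ℕ) : ℤ))
      (((2 * ρ : ℕ) : ℤ) * (til ρ g).1 + 3 * ((2 * ρ : ℕ) : ℤ))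
      (((2 * ρ : ℕ) : ℤ) * (til ρ g).2 - 3 * ((2 * ρ : ℕ) : ℤ))
      (((2 * ρ : ℕ) : ℤ) * (til ρ g).2 + 3 * ((2 * ρ : ℕ) : ℤ)) I J)
    (T : Finset (ℤ × ℤ)) (hT : ∀ g ∈ C, til ρ g ∈ T) :
    ∑ g ∈ C, PQ q S (Pf (CO I J O) g) ≤
      784 * κ⁻¹ ^ 4 * ((ρ:ℝ) ^ 2 * a4 q ρ * Real.sqrt T.card) := by
  classical
  have h0 : 0 ≤ q := by linarith [h.lo]
  have h1 : q ≤ 1 := by linarith [h.hi]
  have hok : Ok (fun _ : Edg => q) := fun _ => ⟨h0, h1⟩
  have ha := a4_nonneg h0 h1 ρ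
  set T' := C.image (til ρ) with hT'
  have hT'T : T' ⊆ T := by
    intro t ht
    rw [hT', Finset.mem_image] at ht
    obtain ⟨g, hg, rfl⟩ := ht
    exact hT g hg
  have step1 : ∀ g ∈ C, PQ q S (Pf (CO I J O) g) ≤ a4 q ρ *
      PQ q S (Bf (CO I J O) (blk (((2 * ρ : ℕ) : ℤ) * (til ρ g).1,
        ((2 * ρ : ℕ) : ℤ) * (til ρ g).2) (2 * ρ))) := by
    intro g hg
    have hnear := til_near hρ g
    apply piv_split h0 h1 hO hρ
    · unfold blk bp
      apply RE_subset <;> push_cast at hnear ⊢ <;> omega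
    · obtain ⟨x, y, _ | _⟩ := g
      · unfold blk
        rw [mem_RE_false]
        push_cast at hnear ⊢
        omega
      · unfold blk
        rw [mem_RE_true]
        push_cast at hnear ⊢
        omega
    · refine subset_trans ?_ (hS g hg)
      unfold blk
      apply RE_subset <;> push_cast <;> omega
    · have := hIJ g hg
      intro v hv hv'
      apply this v hv
      push_cast at hnear ⊢
      omega
  have step2 : ∑ g ∈ C, a4 q ρ * PQ q S (Bf (CO I J O) (blk (((2 * ρ : ℕ) : ℤ) * (til ρ g).1,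
        ((2 * ρ : ℕ) : ℤ) * (til ρ g).2) (2 * ρ))) =
      ∑ t ∈ T', ((C.filter (fun g => til ρ g = t)).card : ℝ) * (a4 q ρ * PQ q S (Bf (CO I J O)
        (blk (((2 * ρ : ℕ) : ℤ) * t.1, ((2 * ρ : ℕ) : ℤ) * t.2) (2 * ρ)))) := by
    rw [hT', ← Finset.sum_fiberwise_of_maps_to (s := C) (t := C.image (til ρ)) (g := til ρ)
      (fun g hg => Finset.mem_image_of_mem _ hg)]
    apply Finset.sum_congr rfl
    intro t _
    rw [← nsmul_eq_mul, ← Finset.sum_const]
    apply Finset.sum_congr rfl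
    intro g hg
    rw [(Finset.mem_filter.mp hg).2]
  have step3 : ∑ t ∈ T', PQ q S (Bf (CO I J O)
        (blk (((2 * ρ : ℕ) : ℤ) * t.1, ((2 * ρ : ℕ) : ℤ) * t.2) (2 * ρ))) ≤
      2 * (7:ℕ) ^ 2 * κ⁻¹ ^ 4 * Real.sqrt T'.card := by
    have := tile_sum (K := 7) h hO (s := 2 * ρ) (R := 2 * ρ) (by omega) (by omega) (by omega)
      (by omega) (by omega) T' (I := I) (J := J) ?_ ?_
    · exact this
    · intro t ht
      rw [hT', Finset.mem_image] at ht
      obtain ⟨g, hg, rfl⟩ := ht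
      exact hS g hg
    · intro t ht
      rw [hT', Finset.mem_image] at ht
      obtain ⟨g, hg, rfl⟩ := ht
      exact hIJ g hg
  have hsq : Real.sqrt T'.card ≤ Real.sqrt T.card :=
    Real.sqrt_le_sqrt (by exact_mod_cast Finset.card_le_card hT'T)
  have hκ : 0 ≤ κ⁻¹ ^ 4 := by
    have := h.kpos
    positivity
  calc ∑ g ∈ C, PQ q S (Pf (CO I J O) g)
      ≤ ∑ g ∈ C, a4 q ρ * PQ q S (Bf (CO I J O) (blk (((2 * ρ : ℕ) : ℤ) * (til ρ g).1,
        ((2 * ρ : ℕ) : ℤ) * (til ρ g).2) (2 * ρ))) := Finset.sum_le_sum step1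
    _ = ∑ t ∈ T', ((C.filter (fun g => til ρ g = t)).card : ℝ) * (a4 q ρ *
        PQ q S (Bf (CO I J O)
        (blk (((2 * ρ : ℕ) : ℤ) * t.1, ((2 * ρ : ℕ) : ℤ) * t.2) (2 * ρ)))) := step2
    _ ≤ ∑ t ∈ T', (8 * (ρ:ℝ) ^ 2) * (a4 q ρ * PQ q S (Bf (CO I J O)
        (blk (((2 * ρ : ℕ) : ℤ) * t.1, ((2 * ρ : ℕ) : ℤ) * t.2) (2 * ρ)))) := by
        apply Finset.sum_le_sum
        intro t _
        apply mul_le_mul_of_nonneg_right _ (mul_nonneg ha (Pr_nonneg hok _ _))
        exact_mod_cast card_tile hρ C t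
    _ = 8 * (ρ:ℝ) ^ 2 * a4 q ρ * ∑ t ∈ T', PQ q S (Bf (CO I J O)
        (blk (((2 * ρ : ℕ) : ℤ) * t.1, ((2 * ρ : ℕ) : ℤ) * t.2) (2 * ρ))) := by
        rw [← Finset.mul_sum, ← Finset.mul_sum]
        ring
    _ ≤ 8 * (ρ:ℝ) ^ 2 * a4 q ρ * (2 * (7:ℕ) ^ 2 * κ⁻¹ ^ 4 * Real.sqrt T'.card) := by
        apply mul_le_mul_of_nonneg_left step3
        positivity
    _ ≤ 8 * (ρ:ℝ) ^ 2 * a4 q ρ * (2 * (7:ℕ) ^ 2 * κ⁻¹ ^ 4 * Real.sqrt T.card) := by
        apply mul_le_mul_of_nonneg_left _ (by positivity)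
        apply mul_le_mul_of_nonneg_left hsq
        positivity
    _ = 784 * κ⁻¹ ^ 4 * ((ρ:ℝ) ^ 2 * a4 q ρ * Real.sqrt T.card) := by
        push_cast
        ring

/-- Distance of the base point to the boundary of the box. -/
def dlt (a b c d : ℤ) (g : Edg) : ℤ := min (min (g.1 - a) (b - g.1)) (min (g.2.1 - c) (d - g.2.1))

/-- The tiles of the edges in a collar. -/
noncomputable def colT (s w a b c d : ℤ) : Finset (ℤ × ℤ) :=
  ((gridI s a (a + w) ×ˢ gridI s c d) ∪ (gridI s (b - w) b ×ˢ gridI s c d)) ∪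
    ((gridI s a b ×ˢ gridI s c (c + w)) ∪ (gridI s a b ×ˢ gridI s (d - w) d))

theorem card_colT {s w a b c d : ℤ} {m M : ℕ} (hs : 0 < s) (hw : w < s * m)
    (h1 : b - a < s * M) (h2 : d - c < s * M) : (colT s w a b c d).card ≤ 4 * (m * M) := by
  have k1 : (gridI s a (a + w)).card ≤ m := card_gridI hs (by linarith)
  have k2 : (gridI s (b - w) b).card ≤ m := card_gridI hs (by linarith)
  have k3 : (gridI s c (c + w)).card ≤ m := card_gridI hs (by linarith)
  have k4 : (gridI s (d - w) d).card ≤ m := card_gridI hs (by linarith)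
  have k5 : (gridI s a b).card ≤ M := card_gridI hs h1
  have k6 : (gridI s c d).card ≤ M := card_gridI hs h2
  unfold colT
  have u1 := Finset.card_union_le ((gridI s a (a + w) ×ˢ gridI s c d) ∪
    (gridI s (b - w) b ×ˢ gridI s c d))
    ((gridI s a b ×ˢ gridI s c (c + w)) ∪ (gridI s a b ×ˢ gridI s (d - w) d))
  have u2 := Finset.card_union_le (gridI s a (a + w) ×ˢ gridI s c d)
    (gridI s (b - w) b ×ˢ gridI s c d)
  have u3 := Finset.card_union_le (gridI s a b ×ˢ gridI s c (c + w))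
    (gridI s a b ×ˢ gridI s (d - w) d)
  rw [Finset.card_product, Finset.card_product] at u2 u3
  have p1 := Nat.mul_le_mul k1 k6
  have p2 := Nat.mul_le_mul k2 k6
  have p3 := Nat.mul_le_mul k5 k3
  have p4 := Nat.mul_le_mul k5 k4
  have e : M * m = m * M := Nat.mul_comm _ _
  rw [e] at p3 p4
  omega

theorem mem_colT {s w a b c d : ℤ} (hs : 0 < s) {t : ℤ × ℤ}
    (h1 : a ≤ s * t.1) (h2 : s * t.1 ≤ b) (h3 : c ≤ s * t.2) (h4 : s * t.2 ≤ d)
    (h : s * t.1 ≤ a + w ∨ b - w ≤ s * t.1 ∨ s * t.2 ≤ c + w ∨ d - w ≤ s * t.2) :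
    t ∈ colT s w a b c d := by
  unfold colT
  simp only [Finset.mem_union, Finset.mem_product]
  rcases h with h | h | h | h
  · exact Or.inl (Or.inl ⟨mem_gridI hs h1 h, mem_gridI hs h3 h4⟩)
  · exact Or.inl (Or.inr ⟨mem_gridI hs h h2, mem_gridI hs h3 h4⟩)
  · exact Or.inr (Or.inl ⟨mem_gridI hs h1 h2, mem_gridI hs h3 h⟩)
  · exact Or.inr (Or.inr ⟨mem_gridI hs h1 h2, mem_gridI hs h h4⟩)

/-- Edges next to the boundary. -/
theorem card_rest {a b c d : ℤ} {N : ℕ} (hN : 1 ≤ N) (h1 : b - a ≤ N) (h2 : d - c ≤ N)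
    (R : Finset Edg) (hR : R ⊆ RE a b c d) (h : ∀ g ∈ R, dlt a b c d g ≤ 7) :
    R.card ≤ 128 * N := by
  have hsub : R ⊆ (Finset.univ : Finset Bool).biUnion (fun bo =>
      (colT 1 7 a b c d).image (fun t => ((t.1, t.2, bo) : Edg))) := by
    intro g hg
    rw [Finset.mem_biUnion]
    refine ⟨g.2.2, Finset.mem_univ _, ?_⟩
    rw [Finset.mem_image]
    refine ⟨(g.1, g.2.1), ?_, rfl⟩
    have h3 := h g hg
    have h4 := hR hg
    unfold dlt at h3
    have h5 : a ≤ g.1 ∧ g.1 ≤ b ∧ c ≤ g.2.1 ∧ g.2.1 ≤ d := by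
      obtain ⟨x, y, _ | _⟩ := g
      · rw [mem_RE_false] at h4
        simp only
        omega
      · rw [mem_RE_true] at h4
        simp only
        omega
    apply mem_colT (by norm_num) <;> simp only [one_mul] <;> omega
  have c1 : (colT 1 7 a b c d).card ≤ 4 * (8 * (2 * N)) :=
    card_colT (by norm_num) (by norm_num) (by push_cast; omega) (by push_cast; omega)
  calc R.card ≤ _ := Finset.card_le_card hsub
    _ ≤ ∑ bo ∈ (Finset.univ : Finset Bool),
        ((colT 1 7 a b c d).image (fun t => ((t.1, t.2, bo) : Edg))).card :=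
        Finset.card_biUnion_le
    _ ≤ ∑ _bo ∈ (Finset.univ : Finset Bool), (colT 1 7 a b c d).card :=
        Finset.sum_le_sum (fun _ _ => Finset.card_image_le)
    _ = 2 * (colT 1 7 a b c d).card := by simp
    _ ≤ 128 * N := by omega

end H973N.WHX

namespace H973N

open H974 H12S Finset WHX

theorem whitney_sum (κ : ℝ) (hκ : 0 < κ) : ∃ C : ℝ, 0 < C ∧ ∀ (q : ℝ) (n : ℕ), Win q κ n →
    ∀ (a b c d : ℤ) (K Λ : ℕ), 1 ≤ Λ → 4 * 2^K ≤ n → b - a ≤ Λ * 2^K → d - c ≤ Λ * 2^K →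
    ∀ (S : Finset Edg) (I J : Set Vtx) (O : Set Edg), Disjoint O ↑S → Off a b c d I J →
    ∀ G : Finset Edg, G ⊆ S → G ⊆ RE a b c d →
    (∀ g ∈ G, ∀ e ∈ RE (a + 1) (b - 1) (c + 1) (d - 1), dst e g ≤ 8 * 2^K → e ∈ S) →
    ∑ g ∈ G, PQ q S (Pf (CO I J O) g) ≤ C * Λ * W1s q K := by
  classical
  have hκ4 : 0 < κ⁻¹ ^ 4 := by positivity
  refine ⟨36 + 784 * κ⁻¹ ^ 4 * 6, by positivity, ?_⟩
  intro q n h a b c d K Λ hΛ hn hba hdc S I J O hO hOff G hGS hGR hfull
  have h0 : 0 ≤ q := by linarith [h.lo]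
  have h1 : q ≤ 1 := by linarith [h.hi]
  have hok : Ok (fun _ : Edg => q) := fun _ => ⟨h0, h1⟩
  have hΛr : (1:ℝ) ≤ Λ := by exact_mod_cast hΛ
  have hbox : ∀ g ∈ G, a ≤ g.1 ∧ g.1 ≤ b ∧ c ≤ g.2.1 ∧ g.2.1 ≤ d := by
    intro g hg
    have h4 := hGR hg
    obtain ⟨x, y, _ | _⟩ := g
    · rw [mem_RE_false] at h4
      simp only
      omega
    · rw [mem_RE_true] at h4
      simp only
      omega
  set Cl : ℕ → Finset Edg := fun k => G.filter (fun g => 7 * 2^k + 1 ≤ dlt a b c d g ∧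
    (k < K → dlt a b c d g < 7 * 2^(k+1) + 1)) with hCl
  set R : Finset Edg := G.filter (fun g => dlt a b c d g ≤ 7) with hR
  have hcover : ∀ g ∈ G, g ∈ R ∨ ∃ k ∈ Finset.range (K + 1), g ∈ Cl k := by
    intro g hg
    by_cases hd : dlt a b c d g ≤ 7
    · left
      rw [hR, Finset.mem_filter]
      exact ⟨hg, hd⟩
    · right
      set k := Nat.findGreatest (fun k => 7 * 2^k + 1 ≤ dlt a b c d g) K with hk
      have hkK : k ≤ K := Nat.findGreatest_le K
      refine ⟨k, by rw [Finset.mem_range]; omega, ?_⟩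
      rw [hCl, Finset.mem_filter]
      refine ⟨hg, ?_, ?_⟩
      · have := Nat.findGreatest_spec (P := fun k => 7 * 2^k + 1 ≤ dlt a b c d g) (m := 0)
          (Nat.zero_le K) (by norm_num; omega)
        exact this
      · intro hlt
        have := Nat.findGreatest_is_greatest (P := fun k => 7 * 2^k + 1 ≤ dlt a b c d g)
          (n := K) (k := k + 1) (by omega) (by omega)
        push Not at this
        exact this
  -- the sum is at most the sum over the classes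
  have hsum : ∑ g ∈ G, PQ q S (Pf (CO I J O) g) ≤ ∑ g ∈ R, PQ q S (Pf (CO I J O) g) +
      ∑ k ∈ Finset.range (K + 1), ∑ g ∈ Cl k, PQ q S (Pf (CO I J O) g) := by
    have e1 : ∑ g ∈ R, PQ q S (Pf (CO I J O) g) =
        ∑ g ∈ G, if g ∈ R then PQ q S (Pf (CO I J O) g) else 0 := by
      rw [← Finset.sum_filter]
      congr 1
      ext g
      exact ⟨fun hg => Finset.mem_filter.mpr ⟨(Finset.mem_filter.mp hg).1, hg⟩,
        fun hg => (Finset.mem_filter.mp hg).2⟩
    have e2 : ∀ k, ∑ g ∈ Cl k, PQ q S (Pf (CO I J O) g) =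
        ∑ g ∈ G, if g ∈ Cl k then PQ q S (Pf (CO I J O) g) else 0 := by
      intro k
      rw [← Finset.sum_filter]
      congr 1
      ext g
      exact ⟨fun hg => Finset.mem_filter.mpr ⟨(Finset.mem_filter.mp hg).1, hg⟩,
        fun hg => (Finset.mem_filter.mp hg).2⟩
    rw [e1, Finset.sum_congr rfl (fun k _ => e2 k), Finset.sum_comm, ← Finset.sum_add_distrib]
    apply Finset.sum_le_sum
    intro g hg
    have hp : 0 ≤ PQ q S (Pf (CO I J O) g) := Pr_nonneg hok _ _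
    have hnn : ∀ k, 0 ≤ (if g ∈ Cl k then PQ q S (Pf (CO I J O) g) else 0) := by
      intro k
      split_ifs
      · exact hp
      · exact le_rfl
    rcases hcover g hg with hg' | ⟨k, hk, hgk⟩
    · rw [if_pos hg']
      exact le_add_of_nonneg_right (Finset.sum_nonneg (fun k _ => hnn k))
    · have h5 := Finset.single_le_sum (f := fun k => if g ∈ Cl k then
        PQ q S (Pf (CO I J O) g) else 0) (fun k _ => hnn k) hk
      simp only [if_pos hgk] at h5
      refine h5.trans (le_add_of_nonneg_left ?_)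
      split_ifs
      · exact hp
      · exact le_rfl
  -- the rest
  have hrest : ∑ g ∈ R, PQ q S (Pf (CO I J O) g) ≤ 36 * Λ * Real.sqrt ((2:ℝ)^K) := by
    have hRG : R ⊆ G := Finset.filter_subset _ _
    have hmono : ∀ F F' : Finset Edg, F ⊆ F' → CO I J O F → CO I J O F' := by
      intro F F' hF h
      refine BS_Cn_mono ?_ h
      exact Set.union_subset_union_left _ (by exact_mod_cast hF)
    have hE := edge_sum h.lo h.hi (hRG.trans hGS) (CO I J O) hmono
    have hcard : R.card ≤ 128 * (Λ * 2^K) := by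
      apply card_rest (a := a) (b := b) (c := c) (d := d) _ (by push_cast; exact hba)
        (by push_cast; exact hdc) R (hRG.trans hGR)
      · intro g hg
        exact (Finset.mem_filter.mp hg).2
      · exact Nat.one_le_iff_ne_zero.mpr (by positivity)
    have h6 : Real.sqrt (R.card : ℝ) ≤ 12 * Λ * Real.sqrt ((2:ℝ)^K) := by
      rw [show (12:ℝ) * Λ * Real.sqrt ((2:ℝ)^K) = Real.sqrt ((12 * Λ)^2 * (2:ℝ)^K) by
        rw [Real.sqrt_mul (by positivity), Real.sqrt_sq (by positivity)]]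
      apply Real.sqrt_le_sqrt
      have h7 : (R.card : ℝ) ≤ 128 * (Λ * 2^K) := by exact_mod_cast hcard
      have h8 : (0:ℝ) < 2^K := by positivity
      nlinarith [mul_nonneg (mul_nonneg (sub_nonneg.mpr hΛr) (by positivity : (0:ℝ) ≤ Λ)) h8.le,
        mul_nonneg (by positivity : (0:ℝ) ≤ Λ) h8.le]
    calc ∑ g ∈ R, PQ q S (Pf (CO I J O) g) ≤ 3 * Real.sqrt R.card := hE
      _ ≤ 3 * (12 * Λ * Real.sqrt ((2:ℝ)^K)) := by linarith
      _ = 36 * Λ * Real.sqrt ((2:ℝ)^K) := by ring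
  -- the classes
  have hclass : ∀ k ∈ Finset.range (K + 1), ∑ g ∈ Cl k, PQ q S (Pf (CO I J O) g) ≤
      784 * κ⁻¹ ^ 4 * 6 * Λ * ((4:ℝ)^k * a4 q (2^k) * Real.sqrt ((2:ℝ)^(K - k))) := by
    intro k hk
    have hkK : k ≤ K := by rw [Finset.mem_range] at hk; omega
    have hpow : (2:ℕ)^K = 2^(K-k) * 2^k := by rw [← pow_add]; congr 1; omega
    have hpowZ : (2:ℤ)^K = 2^(K-k) * 2^k := by exact_mod_cast hpow
    have hρ : 1 ≤ 2^k := Nat.one_le_two_pow
    have hKk : (2:ℕ)^k ≤ 2^K := Nat.pow_le_pow_right (by norm_num) hkK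
    have hKkZ : (2:ℤ)^k ≤ 2^K := by exact_mod_cast hKk
    have hρZ : (1:ℤ) ≤ 2^k := by exact_mod_cast hρ
    have hs : (0:ℤ) < 2 * 2^k := by positivity
    have hmemG : ∀ g ∈ Cl k, g ∈ G := fun g hg => (Finset.mem_filter.mp hg).1
    have hd1 : ∀ g ∈ Cl k, 7 * 2^k + 1 ≤ dlt a b c d g := fun g hg =>
      (Finset.mem_filter.mp hg).2.1
    obtain ⟨T, hT, hTc⟩ : ∃ T : Finset (ℤ × ℤ), (∀ g ∈ Cl k, til (2^k) g ∈ T) ∧
        (T.card : ℝ) ≤ 36 * Λ^2 * (2:ℝ)^(K-k) := by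
      have hM : ∀ z : ℤ, z ≤ Λ * 2^K → z < 2 * 2^k * ((Λ * 2^(K-k) : ℕ) : ℤ) := by
        intro z hz
        push_cast
        have : (0:ℤ) < Λ * 2^K := by positivity
        have e : 2 * 2^k * ((Λ:ℤ) * 2^(K-k)) = 2 * (Λ * (2^(K-k) * 2^k)) := by ring
        rw [e, ← hpowZ]
        linarith
      rcases Nat.lt_or_ge k K with hlt | hge
      · refine ⟨colT (2 * 2^k) (15 * 2^k) a b c d, ?_, ?_⟩
        · intro g hg
          have hnear := til_near hρ g
          have hb := hbox g (hmemG g hg)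
          have h2 := (Finset.mem_filter.mp hg).2.2 hlt
          have h3 := hd1 g hg
          unfold dlt at h2 h3
          rw [pow_succ] at h2
          push_cast at hnear
          apply mem_colT hs <;> omega
        · have hc := card_colT (s := 2 * 2^k) (w := 15 * 2^k) (a := a) (b := b) (c := c) (d := d)
            (m := 8) (M := Λ * 2^(K-k)) hs (by push_cast; omega) (hM _ hba) (hM _ hdc)
          have hc' : ((colT (2 * 2^k) (15 * 2^k) a b c d).card : ℝ) ≤
              4 * (8 * (Λ * 2^(K-k))) := by exact_mod_cast hc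
          refine hc'.trans ?_
          have h8 : (0:ℝ) < 2^(K-k) := by positivity
          nlinarith [mul_nonneg (mul_nonneg (sub_nonneg.mpr hΛr) (by positivity : (0:ℝ) ≤ Λ))
            h8.le, mul_nonneg (by positivity : (0:ℝ) ≤ Λ) h8.le]
      · have hkeq : k = K := le_antisymm hkK hge
        refine ⟨gridI (2 * 2^k) a b ×ˢ gridI (2 * 2^k) c d, ?_, ?_⟩
        · intro g hg
          have hnear := til_near hρ g
          have hb := hbox g (hmemG g hg)
          have h3 := hd1 g hg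
          unfold dlt at h3
          push_cast at hnear
          rw [Finset.mem_product]
          constructor <;> apply mem_gridI hs <;> omega
        · rw [Finset.card_product]
          have k5 : (gridI (2 * 2^k) a b).card ≤ Λ * 2^(K-k) := card_gridI hs (hM _ hba)
          have k6 : (gridI (2 * 2^k) c d).card ≤ Λ * 2^(K-k) := card_gridI hs (hM _ hdc)
          rw [hkeq, Nat.sub_self, pow_zero, Nat.mul_one] at k5 k6
          rw [hkeq, Nat.sub_self, pow_zero, mul_one]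
          have := Nat.mul_le_mul k5 k6
          have h9 : (((gridI (2 * 2^K) a b).card * (gridI (2 * 2^K) c d).card : ℕ) : ℝ) ≤
              ((Λ * Λ : ℕ) : ℝ) := by exact_mod_cast this
          refine h9.trans ?_
          push_cast
          nlinarith
    have hcs := class_sum h hO (I := I) (J := J) hρ (by omega) (Cl k) ?_ ?_ T hT
    · refine hcs.trans ?_
      have hsq : Real.sqrt (T.card : ℝ) ≤ 6 * Λ * Real.sqrt ((2:ℝ)^(K-k)) := by
        rw [show (6:ℝ) * Λ * Real.sqrt ((2:ℝ)^(K-k)) = Real.sqrt ((6 * Λ)^2 * (2:ℝ)^(K-k)) by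
          rw [Real.sqrt_mul (by positivity), Real.sqrt_sq (by positivity)]]
        apply Real.sqrt_le_sqrt
        refine hTc.trans (le_of_eq ?_)
        ring
      have ha := a4_nonneg h0 h1 (2^k)
      have hρ2 : (((2^k : ℕ) : ℝ))^2 = (4:ℝ)^k := by
        push_cast
        rw [← pow_mul, mul_comm, pow_mul]
        norm_num
      rw [hρ2]
      calc 784 * κ⁻¹ ^ 4 * ((4:ℝ)^k * a4 q (2^k) * Real.sqrt T.card)
          ≤ 784 * κ⁻¹ ^ 4 * ((4:ℝ)^k * a4 q (2^k) * (6 * Λ * Real.sqrt ((2:ℝ)^(K-k)))) := by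
            apply mul_le_mul_of_nonneg_left _ (by positivity)
            apply mul_le_mul_of_nonneg_left hsq (by positivity)
        _ = 784 * κ⁻¹ ^ 4 * 6 * Λ * ((4:ℝ)^k * a4 q (2^k) * Real.sqrt ((2:ℝ)^(K - k))) := by
            ring
    · -- the blocks are in `S`
      intro g hg e he
      have hnear := til_near hρ g
      have h3 := hd1 g hg
      unfold dlt at h3
      push_cast at hnear
      apply hfull g (hmemG g hg)
      · refine RE_subset ?_ ?_ ?_ ?_ he <;> push_cast <;> omega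
      · have he2 : (((2 * 2^k : ℕ) : ℤ) * (til (2^k) g).1 - 6 * 2^k ≤ e.1 ∧
            e.1 ≤ ((2 * 2^k : ℕ) : ℤ) * (til (2^k) g).1 + 6 * 2^k) ∧
            (((2 * 2^k : ℕ) : ℤ) * (til (2^k) g).2 - 6 * 2^k ≤ e.2.1 ∧
            e.2.1 ≤ ((2 * 2^k : ℕ) : ℤ) * (til (2^k) g).2 + 6 * 2^k) := by
          unfold blk at he
          obtain ⟨x, y, _ | _⟩ := e
          · rw [mem_RE_false] at he
            push_cast at he ⊢
            omega
          · rw [mem_RE_true] at he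
            push_cast at he ⊢
            omega
        push_cast at he2
        unfold dst
        rw [max_le_iff, abs_le, abs_le]
        omega
    · intro g hg v hv hv'
      have hnear := til_near hρ g
      have h3 := hd1 g hg
      unfold dlt at h3
      push_cast at hnear hv'
      apply hOff v hv
      omega
  calc ∑ g ∈ G, PQ q S (Pf (CO I J O) g)
      ≤ ∑ g ∈ R, PQ q S (Pf (CO I J O) g) +
        ∑ k ∈ Finset.range (K + 1), ∑ g ∈ Cl k, PQ q S (Pf (CO I J O) g) := hsum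
    _ ≤ 36 * Λ * Real.sqrt ((2:ℝ)^K) + ∑ k ∈ Finset.range (K + 1),
        784 * κ⁻¹ ^ 4 * 6 * Λ * ((4:ℝ)^k * a4 q (2^k) * Real.sqrt ((2:ℝ)^(K - k))) :=
        add_le_add hrest (Finset.sum_le_sum hclass)
    _ = 36 * Λ * Real.sqrt ((2:ℝ)^K) + 784 * κ⁻¹ ^ 4 * 6 * Λ * ∑ k ∈ Finset.range (K + 1),
        ((4:ℝ)^k * a4 q (2^k) * Real.sqrt ((2:ℝ)^(K - k))) := by rw [← Finset.mul_sum]
    _ ≤ (36 + 784 * κ⁻¹ ^ 4 * 6) * Λ * W1s q K := by
        unfold W1s
        have hA : 0 ≤ Real.sqrt ((2:ℝ)^K) := Real.sqrt_nonneg _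
        have hB : 0 ≤ ∑ k ∈ Finset.range (K + 1),
            ((4:ℝ)^k * a4 q (2^k) * Real.sqrt ((2:ℝ)^(K - k))) :=
          Finset.sum_nonneg (fun k _ => by
            have := a4_nonneg h0 h1 (2^k)
            positivity)
        set A := Real.sqrt ((2:ℝ)^K)
        set B := ∑ k ∈ Finset.range (K + 1),
            ((4:ℝ)^k * a4 q (2^k) * Real.sqrt ((2:ℝ)^(K - k)))
        have e : (36 + 784 * κ⁻¹ ^ 4 * 6) * Λ * (A + B) = 36 * Λ * A + 784 * κ⁻¹ ^ 4 * 6 * Λ * B
            + (36 * Λ * B + 784 * κ⁻¹ ^ 4 * 6 * Λ * A) := by ring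
        rw [e]
        have : 0 ≤ 36 * Λ * B + 784 * κ⁻¹ ^ 4 * 6 * Λ * A := by positivity
        linarith

end H973N
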