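import Pool.Agent.H973R3.NC.Defs

/-!
Near-critical module, WN: the RSW window at the self-dual point.
-/

namespace H973N

open H974 H12S Finset

/-- Two-to-one rectangles, all heights. -/
theorem hh_21 {h : ℤ} (hh1 : 1 ≤ h) : (1/2:ℝ)^47 ≤ hh (1/2) (2 * h) h := by
  rcases eq_or_lt_of_le hh1 with e | e
  · subst e
    have := hh_half 1 (by norm_num)
    norm_num at this ⊢
    rw [this]
    norm_num
  · exact rsw (n := h / 2) (by omega) (by omega) (by omega) (by omega)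

/-- One step of the gluing. -/
theorem hh_step {h w : ℤ} (hh1 : 1 ≤ h) (hw : h ≤ w) {m : ℕ} (H : (1/2:ℝ)^m ≤ hh (1/2) w h) :
    (1/2:ℝ)^(2*m+1) ≤ hh (1/2) (w + w - h) h := by
  have h0 : (0:ℝ) ≤ 1/2 := by norm_num
  have h1 : (1/2:ℝ) ≤ 1 := by norm_num
  have g := hh_glue h0 h1 (w1 := w) (w2 := w) (v := h) (h := h) (by omega) hw hw (by omega)
  have gs := hh_square h (by omega)
  have hp : (0:ℝ) ≤ (1/2)^m := by positivity
  refine le_trans ?_ g
  have e : (1/2:ℝ)^(2*m+1) = (1/2)^m * (1/2)^m * (1/2) := by ring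
  rw [e]
  exact mul_le_mul (mul_le_mul H H hp (hp.trans H)) gs (by norm_num)
    (mul_nonneg (hp.trans H) (hp.trans H))

theorem hh_16 {h : ℤ} (hh1 : 1 ≤ h) : (1/2:ℝ)^767 ≤ hh (1/2) (16 * h) h := by
  have g0 := hh_21 hh1
  have g1 := hh_step hh1 (by omega) g0
  have g2 := hh_step hh1 (by omega) g1
  have g3 := hh_step hh1 (by omega) g2
  have g4 := hh_step hh1 (by omega) g3
  refine le_trans (le_of_eq ?_) (g4.trans (hh_mono (by norm_num) (by norm_num) (by omega) (by omega)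
    le_rfl))
  norm_num

theorem win_half : ∃ κ : ℝ, 0 < κ ∧ ∀ n : ℕ, Win (1 / 2) κ n := by
  refine ⟨(1/2:ℝ)^767, by positivity, fun n => ⟨by positivity, ?_, by norm_num, by norm_num,
    fun h h1 _ => hh_16 (by exact_mod_cast h1), fun h h1 _ => ?_⟩⟩
  · calc (1/2:ℝ)^767 ≤ (1/2:ℝ)^1 :=
        pow_le_pow_of_le_one (by norm_num) (by norm_num) (by norm_num)
      _ = 1/2 := by norm_num
  · rw [show (1:ℝ) - 1/2 = 1/2 by norm_num]
    exact hh_16 (by exact_mod_cast h1)

end H973N
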