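import Pool.Agent.H973R3.NC.AsmA
import Pool.Agent.H974R2.Hyb

/-!
Assembly, part 2: one step of the bootstrap.
-/

set_option maxHeartbeats 1000000

namespace H973N

open H974 H12S Finset

/-- The key estimate (exit + pigeonhole), in the form used here. -/
def KEY' : Prop := ∀ (κ : ℝ), 0 < κ → ∀ (ε : ℝ), 0 < ε → ε < 1 →
    ∃ (L : ℕ) (C : ℝ) (k0 : ℕ), 2 ≤ L ∧ 0 < C ∧
      ∀ (q : ℝ) (n : ℕ), Win q κ n → ∀ k : ℕ, k0 ≤ k → k ≤ n →
        a4 q k ≤ (k:ℝ) ^ (-(2:ℝ)) ∨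
        ∃ m : ℕ, 512 ≤ m ∧ (k:ℝ) ^ (1 - ε) ≤ m ∧ 4 * L * m ≤ k ∧
          ∃ I J : Set Vtx, (∀ v ∈ I ∪ J, (m:ℤ) ≤ |v.2|) ∧
            (m:ℝ) ^ 2 * a4 q k ≤ C * ∑ e ∈ boxE (m / 4), PQ q (SR L m)
              (Pf (fun F : Finset Edg => Cn I J ↑F) e)

theorem lip {f : ℝ → ℝ} {B a b : ℝ}
    (h : ∀ t ∈ Set.uIcc a b, ∃ D, HasDerivAt f D t ∧ |D| ≤ B) : |f b - f a| ≤ B * |b - a| := by
  choose! f' hf1 hf2 using h
  exact (convex_uIcc a b).norm_image_sub_le_of_norm_hasDerivWithin_le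
    (fun x hx => (hf1 x hx).hasDerivWithinAt) (fun x hx => hf2 x hx)
    Set.left_mem_uIcc Set.right_mem_uIcc

theorem a4_nonneg' {q : ℝ} (h0 : 0 ≤ q) (h1 : q ≤ 1) (k : ℕ) : 0 ≤ a4 q k :=
  add_nonneg (Pr_nonneg (okq h0 h1) _ _) (Pr_nonneg (okq h0 h1) _ _)

theorem a4_le_two' {q : ℝ} (h0 : 0 ≤ q) (h1 : q ≤ 1) (k : ℕ) : a4 q k ≤ 2 := by
  have i1 := Pr_le_one (okq h0 h1) (boxE k) (fun F => A4 (-k) k (-k) k (e0 true) ↑F)
  have i2 := Pr_le_one (okq h0 h1) (boxE k) (fun F => A4 (-k) k (-k) k (e0 false) ↑F)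
  unfold a4 PQ
  linarith

/-- Upper bound of the sum of pivotal probabilities. -/
theorem T_upper {q : ℝ} (h0 : 0 ≤ q) (h1 : q ≤ 1) {L m : ℕ} (hm : 16 ≤ m) (hL : 2 ≤ L)
    {I J : Set Vtx} (hIJ : ∀ v ∈ I ∪ J, (m:ℤ) ≤ |v.2|) :
    ∑ e ∈ boxE (m / 4), PQ q (SR L m) (Pf (fun F : Finset Edg => Cn I J ↑F) e) ≤
      (m:ℝ)^2 * a4 q (m / 2) := by
  have ok := okq h0 h1
  have hbase : ∀ e ∈ boxE (m / 4), (-((m / 4 : ℕ) : ℤ) ≤ e.1 ∧ e.1 ≤ ((m / 4 : ℕ) : ℤ)) ∧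
      (-((m / 4 : ℕ) : ℤ) ≤ e.2.1 ∧ e.2.1 ≤ ((m / 4 : ℕ) : ℤ)) := by
    rintro ⟨x, y, bo⟩ he
    unfold boxE at he
    cases bo
    · rw [mem_RE_false] at he; simp only; omega
    · rw [mem_RE_true] at he; simp only; omega
  have hLm : m ≤ 2 * L * m := by nlinarith
  have hterm : ∀ e ∈ boxE (m / 4), PQ q (SR L m) (Pf (fun F : Finset Edg => Cn I J ↑F) e) ≤
      a4 q (m / 2) := by
    intro e he
    have hb := hbase e he
    refine le_trans (Pr_mono ok ?_) (pr_L4 h0 h1 (S := SR L m) (e := e) ?_)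
    · intro F _ hF
      apply piv_L4 (I := I) (J := J) (O := ∅) (by omega) (by simp)
      · rintro v hv ⟨_, h4, h5⟩
        have := hIJ v hv
        rcases le_abs.mp this with h6 | h6 <;> omega
      · unfold Pf CO at *
        simpa using hF
    · unfold blk SR bp
      exact RE_subset (by simp only; omega) (by simp only; omega) (by simp only; omega)
        (by simp only; omega)
  have hcard : (boxE (m / 4)).card ≤ m^2 := by
    refine (card_boxE (m / 4)).trans ?_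
    have h4 : 4 * (m / 4) ≤ m := by omega
    generalize m / 4 = x at h4
    have h5 : 16 * (x * x) ≤ m * m := by nlinarith
    nlinarith
  calc _ ≤ ∑ e ∈ boxE (m / 4), a4 q (m / 2) := Finset.sum_le_sum hterm
    _ = (boxE (m / 4)).card * a4 q (m / 2) := by rw [Finset.sum_const, nsmul_eq_mul]
    _ ≤ _ := by
      apply mul_le_mul_of_nonneg_right _ (a4_nonneg' h0 h1 _)
      exact_mod_cast hcard

/-- Choice of the constants of the bootstrap. -/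
theorem big_scale (C5 a : ℝ) (ha : 0 < a) : ∃ k1 : ℕ, ∀ k : ℕ, k1 ≤ k → C5 < (k:ℝ)^a := by
  have h := (tendsto_rpow_atTop ha).comp tendsto_natCast_atTop_atTop
  have h2 := (h.eventually_gt_atTop C5)
  rw [Filter.eventually_atTop] at h2
  obtain ⟨k1, hk⟩ := h2
  exact ⟨k1, fun k hk' => hk k hk'⟩

/-- One step of the bootstrap, four-arm part. -/
theorem step_a4 (hkey : KEY') (hcrit : ∀ ε : ℝ, 0 < ε → ∃ C : ℝ, ∀ k : ℕ, 1 ≤ k →
      a4 (1/2) k ≤ C * (k:ℝ) ^ (-(5/4 : ℝ) + ε)) {κ : ℝ} (hκ : 0 < κ) {a : ℝ} (ha0 : 0 < a)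
      (ha : a ≤ 1/32) :
    ∃ A : ℝ, 1 ≤ A ∧ (∀ k : ℕ, a4 (1/2) k ≤ A * ((k:ℝ) + 1) ^ (-(5/4 : ℝ) + a)) ∧
      ∀ (q δ : ℝ) (n : ℕ), 1 ≤ n → A^2 * |q - 1/2| ≤ (n:ℝ) ^ (-(3/4 : ℝ) - 4 * a) →
      (∀ t ∈ Set.uIcc (1/2) q, Win t κ n ∧ A4le t A a n) →
      ∀ k ≤ n, a4 q k < A * ((k:ℝ) + 1) ^ (-(5/4 : ℝ) + a) := by
  obtain ⟨L, C, k0, hL, hC, hk⟩ := hkey κ hκ (a/5) (by positivity) (by linarith)
  obtain ⟨Cc, hCc⟩ := hcrit (a/4) (by positivity)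
  obtain ⟨C1, hC1, hT⟩ := T_deriv κ hκ ha0 (by linarith : a ≤ 1/8) L hL
  set Cc' : ℝ := max Cc 1 with hCc'
  have hCc1 : 1 ≤ Cc' := le_max_right _ _
  set C5 : ℝ := 4 * C * Cc' + C * C1 with hC5
  have hC50 : 0 < C5 := by positivity
  obtain ⟨k1, hk1⟩ := big_scale (3 * C5) (a/2) (by positivity)
  set K0 : ℕ := max k0 (max k1 16) with hK0
  set A0 : ℝ := 3 * ((K0:ℝ) + 1)^2 with hA0
  set A : ℝ := A0 + 3 * Cc' with hA
  have hK0r : (0:ℝ) ≤ K0 := Nat.cast_nonneg _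
  have hA03 : 3 ≤ A0 := by rw [hA0]; nlinarith
  have hA3 : 3 ≤ A := by rw [hA]; linarith
  -- comparison of `(k+1)` and `k`
  have hcmp : ∀ k : ℕ, 1 ≤ k →
      (1/3 : ℝ) * (k:ℝ) ^ (-(5/4 : ℝ) + a) ≤ ((k:ℝ) + 1) ^ (-(5/4 : ℝ) + a) := by
    intro k hk
    have hk1 : (1:ℝ) ≤ k := by exact_mod_cast hk
    have j1 : (2 * (k:ℝ)) ^ (-(5/4 : ℝ) + a) ≤ ((k:ℝ) + 1) ^ (-(5/4 : ℝ) + a) :=
      Real.rpow_le_rpow_of_nonpos (by linarith) (by linarith) (by linarith)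
    have j2 : (1/3 : ℝ) ≤ (2:ℝ) ^ (-(5/4 : ℝ) + a) := by
      have j3 : (2:ℝ) ^ (-(3/2 : ℝ)) ≤ (2:ℝ) ^ (-(5/4 : ℝ) + a) :=
        Real.rpow_le_rpow_of_exponent_le (by norm_num) (by linarith)
      have j4 : (1/3 : ℝ) ≤ (2:ℝ) ^ (-(3/2 : ℝ)) := by
        have j5 : ((2:ℝ) ^ (-(3/2 : ℝ)))^2 = 1/8 := by
          rw [← Real.rpow_natCast, ← Real.rpow_mul (by norm_num)]
          rw [show (-(3/2:ℝ)) * ((2:ℕ):ℝ) = ((-3 : ℤ) : ℝ) by norm_num, Real.rpow_intCast]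
          norm_num
        have j6 : 0 < (2:ℝ) ^ (-(3/2 : ℝ)) := by positivity
        nlinarith
      exact j4.trans j3
    rw [Real.mul_rpow (by norm_num) (by linarith)] at j1
    exact (mul_le_mul_of_nonneg_right j2 (by positivity)).trans j1
  refine ⟨A, by linarith, ?_, ?_⟩
  · intro k
    rcases Nat.eq_zero_or_pos k with h | h
    · subst h
      have i1 := a4_le_two' (q := 1/2) (by norm_num) (by norm_num) 0
      simp only [Nat.cast_zero, zero_add, Real.one_rpow, mul_one]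
      linarith
    · have hk1 : (1:ℝ) ≤ k := by exact_mod_cast h
      have i1 := hCc k h
      have i2 := hcmp k h
      have i3 : (k:ℝ) ^ (-(5/4 : ℝ) + a/4) ≤ (k:ℝ) ^ (-(5/4 : ℝ) + a) :=
        Real.rpow_le_rpow_of_exponent_le hk1 (by linarith)
      have i4 : Cc * (k:ℝ) ^ (-(5/4 : ℝ) + a/4) ≤ Cc' * (k:ℝ) ^ (-(5/4 : ℝ) + a/4) :=
        mul_le_mul_of_nonneg_right (le_max_left _ _) (by positivity)
      have i5 : Cc' * (k:ℝ) ^ (-(5/4 : ℝ) + a/4) ≤ Cc' * (k:ℝ) ^ (-(5/4 : ℝ) + a) :=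
        mul_le_mul_of_nonneg_left i3 (by linarith)
      have i6 : 3 * Cc' * ((1/3 : ℝ) * (k:ℝ) ^ (-(5/4 : ℝ) + a)) ≤
          3 * Cc' * ((k:ℝ) + 1) ^ (-(5/4 : ℝ) + a) := mul_le_mul_of_nonneg_left i2 (by linarith)
      have i7 : 3 * Cc' * ((k:ℝ) + 1) ^ (-(5/4 : ℝ) + a) ≤ A * ((k:ℝ) + 1) ^ (-(5/4 : ℝ) + a) :=
        mul_le_mul_of_nonneg_right (by linarith) (by positivity)
      linarith
  intro q δ n hn hq hseg k hkn
  have hwq := hseg q Set.right_mem_uIcc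
  have hq0 : 0 ≤ q := by linarith [hwq.1.lo]
  have hq1 : q ≤ 1 := by linarith [hwq.1.hi]
  have hnr : (1:ℝ) ≤ n := by exact_mod_cast hn
  rcases Nat.lt_or_ge k K0 with hlt | hge
  · -- small scales
    have i1 := a4_le_two' hq0 hq1 k
    have hkr : ((k:ℝ) + 1) ≤ (K0:ℝ) + 1 := by
      have : (k:ℝ) ≤ K0 := by exact_mod_cast hlt.le
      linarith
    have hk1r : (1:ℝ) ≤ (k:ℝ) + 1 := by
      have : (0:ℝ) ≤ k := Nat.cast_nonneg _
      linarith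
    have i2 : ((k:ℝ) + 1) ^ (-(2:ℝ)) ≤ ((k:ℝ) + 1) ^ (-(5/4 : ℝ) + a) :=
      Real.rpow_le_rpow_of_exponent_le hk1r (by linarith)
    have i3 : ((K0:ℝ) + 1) ^ (-(2:ℝ)) ≤ ((k:ℝ) + 1) ^ (-(2:ℝ)) :=
      Real.rpow_le_rpow_of_nonpos (by linarith) hkr (by norm_num)
    have i4 : 3 ≤ A * ((K0:ℝ) + 1) ^ (-(2:ℝ)) := by
      have i6 : A0 * ((K0:ℝ) + 1) ^ (-(2:ℝ)) = 3 := by
        rw [hA0, Real.rpow_neg (by linarith), Real.rpow_two]
        field_simp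
      rw [← i6]
      exact mul_le_mul_of_nonneg_right (by linarith) (by positivity)
    have i5 : A * ((K0:ℝ) + 1) ^ (-(2:ℝ)) ≤ A * ((k:ℝ) + 1) ^ (-(5/4 : ℝ) + a) :=
      mul_le_mul_of_nonneg_left (i3.trans i2) (by linarith)
    linarith
  · -- large scales
    have hk16 : 16 ≤ k := le_trans (le_trans (le_max_right _ _) (le_max_right _ _)) hge
    have hkk1 : k1 ≤ k := le_trans (le_trans (le_max_left _ _) (le_max_right _ _)) hge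
    have hkk0 : k0 ≤ k := le_trans (le_max_left _ _) hge
    have hkr : (16:ℝ) ≤ k := by exact_mod_cast hk16
    have hkpos : (0:ℝ) < k := by linarith
    have hfin : ∀ X : ℝ, X < (k:ℝ) ^ (-(5/4 : ℝ) + a) → X < A * ((k:ℝ) + 1) ^ (-(5/4 : ℝ) + a) := by
      intro X hX
      have j1 : 3 * ((1/3 : ℝ) * (k:ℝ) ^ (-(5/4 : ℝ) + a)) ≤ A * ((k:ℝ) + 1) ^ (-(5/4 : ℝ) + a) :=
        mul_le_mul hA3 (hcmp k (by omega)) (by positivity) (by linarith)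
      linarith
    rcases hk q n hwq.1 k hkk0 hkn with h2 | ⟨m, hm512, hmk, hmk4, I, J, hIJ, hbound⟩
    · apply hfin
      exact lt_of_le_of_lt h2 (Real.rpow_lt_rpow_of_exponent_lt (by linarith) (by linarith))
    · apply hfin
      have hLm : m ≤ L * m := Nat.le_mul_of_pos_left _ (by omega)
      have hmk' : m ≤ k := by nlinarith
      have hmn : m ≤ n := hmk'.trans hkn
      have hmr : (512:ℝ) ≤ m := by exact_mod_cast hm512
      have hmpos : (0:ℝ) < m := by linarith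
      -- Lipschitz bound
      have hlip := lip (f := fun q => ∑ e ∈ boxE (m / 4), PQ q (SR L m)
          (Pf (fun F : Finset Edg => Cn I J ↑F) e)) (a := 1/2) (b := q)
          (B := C1 * A ^ 2 * (m:ℝ) ^ ((3/2 : ℝ) + 2 * a))
          (fun t ht => hT t n (hseg t ht).1 A (by linarith) (hseg t ht).2 m (by omega) hmn I J hIJ)
      have hup := T_upper (q := 1/2) (by norm_num) (by norm_num) (L := L) (m := m) (by omega) hL hIJ
      have hcr : a4 (1/2) (m / 2) ≤ Cc' * (4 * (m:ℝ) ^ (-(5/4 : ℝ) + a/4)) := by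
        have j1 := hCc (m / 2) (by omega)
        have j2 : (m:ℝ) / 3 ≤ ((m / 2 : ℕ) : ℝ) := by
          have : m ≤ 3 * (m / 2) := by omega
          have : (m:ℝ) ≤ 3 * ((m / 2 : ℕ) : ℝ) := by exact_mod_cast this
          linarith
        have j3 : ((m / 2 : ℕ) : ℝ) ^ (-(5/4 : ℝ) + a/4) ≤ ((m:ℝ) / 3) ^ (-(5/4 : ℝ) + a/4) :=
          Real.rpow_le_rpow_of_nonpos (by linarith) j2 (by linarith)
        have j4 : ((m:ℝ) / 3) ^ (-(5/4 : ℝ) + a/4) ≤ 4 * (m:ℝ) ^ (-(5/4 : ℝ) + a/4) := by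
          rw [Real.div_rpow hmpos.le (by norm_num), div_le_iff₀ (by positivity)]
          have j5 : 1 ≤ 4 * (3:ℝ) ^ (-(5/4 : ℝ) + a/4) := by
            have j6 : (3:ℝ) ^ (-(5/4 : ℝ)) ≤ (3:ℝ) ^ (-(5/4 : ℝ) + a/4) :=
              Real.rpow_le_rpow_of_exponent_le (by norm_num) (by linarith)
            have j7 : ((3:ℝ) ^ (-(5/4 : ℝ)))^4 = 1/243 := by
              rw [← Real.rpow_natCast, ← Real.rpow_mul (by norm_num)]
              rw [show (-(5/4:ℝ)) * ((4:ℕ):ℝ) = ((-5 : ℤ) : ℝ) by norm_num, Real.rpow_intCast]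
              norm_num
            have j8 : 0 < (3:ℝ) ^ (-(5/4 : ℝ)) := by positivity
            have j9 : 1/4 ≤ (3:ℝ) ^ (-(5/4 : ℝ)) := by
              by_contra hcon
              push Not at hcon
              have : ((3:ℝ) ^ (-(5/4 : ℝ)))^4 < (1/4)^4 := pow_lt_pow_left₀ hcon j8.le (by norm_num)
              rw [j7] at this
              norm_num at this
            linarith
          have j10 : 0 < (m:ℝ) ^ (-(5/4 : ℝ) + a/4) := by positivity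
          nlinarith
        calc a4 (1/2) (m / 2) ≤ Cc * ((m / 2 : ℕ) : ℝ) ^ (-(5/4 : ℝ) + a/4) := j1
          _ ≤ Cc' * ((m / 2 : ℕ) : ℝ) ^ (-(5/4 : ℝ) + a/4) :=
            mul_le_mul_of_nonneg_right (le_max_left _ _) (by positivity)
          _ ≤ _ := mul_le_mul_of_nonneg_left (j3.trans j4) (by linarith)
      have hdiff : C1 * A ^ 2 * (m:ℝ) ^ ((3/2 : ℝ) + 2 * a) * |q - 1/2| ≤
          C1 * (m:ℝ) ^ ((3/4 : ℝ) - 2 * a) := by
        have j1 : (n:ℝ) ^ (-(3/4 : ℝ) - 4 * a) ≤ (m:ℝ) ^ (-(3/4 : ℝ) - 4 * a) :=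
          Real.rpow_le_rpow_of_nonpos hmpos (by exact_mod_cast hmn) (by linarith)
        have j2 : (m:ℝ) ^ ((3/2 : ℝ) + 2 * a) * (m:ℝ) ^ (-(3/4 : ℝ) - 4 * a) =
            (m:ℝ) ^ ((3/4 : ℝ) - 2 * a) := by
          rw [← Real.rpow_add hmpos]; congr 1; ring
        have j3 : 0 ≤ C1 * (m:ℝ) ^ ((3/2 : ℝ) + 2 * a) := by positivity
        calc C1 * A ^ 2 * (m:ℝ) ^ ((3/2 : ℝ) + 2 * a) * |q - 1/2|
            = C1 * (m:ℝ) ^ ((3/2 : ℝ) + 2 * a) * (A^2 * |q - 1/2|) := by ring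
          _ ≤ C1 * (m:ℝ) ^ ((3/2 : ℝ) + 2 * a) * (m:ℝ) ^ (-(3/4 : ℝ) - 4 * a) :=
            mul_le_mul_of_nonneg_left (hq.trans j1) j3
          _ = C1 * (m:ℝ) ^ ((3/4 : ℝ) - 2 * a) := by rw [mul_assoc, j2]
      have hTq : ∑ e ∈ boxE (m / 4), PQ q (SR L m) (Pf (fun F : Finset Edg => Cn I J ↑F) e) ≤
          (m:ℝ)^2 * (Cc' * (4 * (m:ℝ) ^ (-(5/4 : ℝ) + a/4))) + C1 * (m:ℝ) ^ ((3/4 : ℝ) - 2 * a) := by
        have j1 := (abs_le.mp (hlip.trans hdiff)).2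
        have j2 : (m:ℝ)^2 * a4 (1/2) (m / 2) ≤
            (m:ℝ)^2 * (Cc' * (4 * (m:ℝ) ^ (-(5/4 : ℝ) + a/4))) :=
          mul_le_mul_of_nonneg_left hcr (by positivity)
        linarith
      have hm2 : (m:ℝ)^2 * (m:ℝ) ^ (-(5/4 : ℝ) + a/4) = (m:ℝ) ^ ((3/4 : ℝ) + a/4) := by
        rw [← Real.rpow_natCast, ← Real.rpow_add hmpos]
        congr 1
        push_cast
        ring
      have hm3 : (m:ℝ) ^ ((3/4 : ℝ) - 2 * a) ≤ (m:ℝ) ^ ((3/4 : ℝ) + a/4) :=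
        Real.rpow_le_rpow_of_exponent_le (by linarith) (by linarith)
      have hb2 : (m:ℝ)^2 * a4 q k ≤ C5 * (m:ℝ) ^ ((3/4 : ℝ) + a/4) := by
        have j1 : C * ∑ e ∈ boxE (m / 4), PQ q (SR L m)
            (Pf (fun F : Finset Edg => Cn I J ↑F) e) ≤
            C * ((m:ℝ)^2 * (Cc' * (4 * (m:ℝ) ^ (-(5/4 : ℝ) + a/4))) +
              C1 * (m:ℝ) ^ ((3/4 : ℝ) + a/4)) := by
          apply mul_le_mul_of_nonneg_left _ hC.le
          have := mul_le_mul_of_nonneg_left hm3 hC1.le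
          linarith
        have j2 : C * ((m:ℝ)^2 * (Cc' * (4 * (m:ℝ) ^ (-(5/4 : ℝ) + a/4))) +
              C1 * (m:ℝ) ^ ((3/4 : ℝ) + a/4)) = C5 * (m:ℝ) ^ ((3/4 : ℝ) + a/4) := by
          rw [hC5, ← hm2]; ring
        linarith
      have hb3 : a4 q k ≤ C5 * (m:ℝ) ^ (-(5/4 : ℝ) + a/4) := by
        rw [← hm2] at hb2
        have j1 : (m:ℝ)^2 * a4 q k ≤ (m:ℝ)^2 * (C5 * (m:ℝ) ^ (-(5/4 : ℝ) + a/4)) := by linarith
        exact le_of_mul_le_mul_left j1 (by positivity)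
      have hb4 : (m:ℝ) ^ (-(5/4 : ℝ) + a/4) ≤ (k:ℝ) ^ (-(5/4 : ℝ) + a/2) := by
        have j1 : (m:ℝ) ^ (-(5/4 : ℝ) + a/4) ≤ ((k:ℝ) ^ (1 - a/5)) ^ (-(5/4 : ℝ) + a/4) :=
          Real.rpow_le_rpow_of_nonpos (by positivity) hmk (by linarith)
        rw [← Real.rpow_mul hkpos.le] at j1
        refine j1.trans (Real.rpow_le_rpow_of_exponent_le (by linarith) ?_)
        nlinarith [sq_nonneg a]
      have hb5 : C5 * (k:ℝ) ^ (-(5/4 : ℝ) + a/2) < (k:ℝ) ^ (-(5/4 : ℝ) + a) := by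
        have j1 := hk1 k hkk1
        have j2 : (k:ℝ) ^ (-(5/4 : ℝ) + a) = (k:ℝ) ^ (a/2) * (k:ℝ) ^ (-(5/4 : ℝ) + a/2) := by
          rw [← Real.rpow_add hkpos]; congr 1; ring
        rw [j2]
        apply mul_lt_mul_of_pos_right _ (by positivity)
        linarith
      calc a4 q k ≤ C5 * (m:ℝ) ^ (-(5/4 : ℝ) + a/4) := hb3
        _ ≤ C5 * (k:ℝ) ^ (-(5/4 : ℝ) + a/2) := mul_le_mul_of_nonneg_left hb4 hC50.le
        _ < _ := hb5

end H973N
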