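import Pool.Agent.H973R3.NC.AsmB

/-!
Assembly, part 3: stability of the four-arm upper bound and of RSW in the near-critical window.
-/

set_option maxHeartbeats 1000000

namespace H973N

open H974 H12S Finset

/-- The parameter at signed distance `s` of `1/2`. -/
noncomputable def qs (τ : Bool) (s : ℝ) : ℝ := if τ then 1/2 + s else 1/2 - s

theorem qs_flip (τ : Bool) (s : ℝ) : 1 - qs τ s = qs (!τ) s := by
  cases τ <;> simp [qs] <;> ring

theorem cont_qs (τ : Bool) : Continuous (qs τ) := by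
  cases τ
  · unfold qs; simp only [Bool.false_eq_true, if_false]; fun_prop
  · unfold qs; simp only [if_true]; fun_prop

theorem uIcc_qs {τ : Bool} {s t : ℝ} (hs : 0 ≤ s) (ht : t ∈ Set.uIcc (1/2) (qs τ s)) :
    ∃ s', 0 ≤ s' ∧ s' ≤ s ∧ t = qs τ s' := by
  cases τ
  · unfold qs at ht ⊢
    simp only [Bool.false_eq_true, if_false] at ht ⊢
    rw [Set.uIcc_of_ge (by linarith)] at ht
    exact ⟨1/2 - t, by linarith [ht.2], by linarith [ht.1], by ring⟩
  · unfold qs at ht ⊢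
    simp only [if_true] at ht ⊢
    rw [Set.uIcc_of_le (by linarith)] at ht
    exact ⟨t - 1/2, by linarith [ht.1], by linarith [ht.2], by ring⟩

theorem abs_qs {τ : Bool} {s : ℝ} (hs : 0 ≤ s) : |qs τ s - 1/2| = s := by
  cases τ
  · unfold qs
    simp only [Bool.false_eq_true, if_false]
    rw [show (1:ℝ)/2 - s - 1/2 = -s by ring, abs_neg, abs_of_nonneg hs]
  · unfold qs
    simp only [if_true]
    rw [show (1:ℝ)/2 + s - 1/2 = s by ring, abs_of_nonneg hs]

/-- STABILITY of the four-arm upper bounds and of RSW, from the upper bound at `1/2`. -/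
theorem stab_of (hkey : KEY') (hcrit : ∀ ε : ℝ, 0 < ε → ∃ C : ℝ, ∀ k : ℕ, 1 ≤ k →
      a4 (1/2) k ≤ C * (k:ℝ) ^ (-(5/4 : ℝ) + ε)) :
    ∃ κ : ℝ, 0 < κ ∧ ∀ a : ℝ, 0 < a → a ≤ 1/32 → ∃ C : ℝ, 1 ≤ C ∧ ∀ n : ℕ, 1 ≤ n → ∀ q : ℝ,
      |q - 1/2| ≤ (n:ℝ) ^ (-(3/4 : ℝ) - 4 * a) / C → Win q κ n ∧ A4le q C a n := by
  obtain ⟨κ1, hκ1, hwin⟩ := win_half
  have hκ1' : κ1 ≤ 1/2 := (hwin 1).kle
  refine ⟨κ1 / 2, by linarith, ?_⟩
  intro a ha0 ha
  have hκ : 0 < κ1 / 2 := by linarith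
  obtain ⟨A, hA, hAcrit, hstep⟩ := step_a4 hkey hcrit hκ ha0 ha
  obtain ⟨C2, hC2, hhd⟩ := hh_deriv (κ1 / 2) hκ ha0 (by linarith : a ≤ 1/8)
  set C : ℝ := A^2 + 4 * (C2 * A / κ1) + 4 with hC
  have hA2 : 1 ≤ A^2 := by nlinarith
  have hx : 0 < C2 * A / κ1 := by positivity
  have hCpos : 0 < C := by linarith
  have hCA : A ≤ C := by nlinarith
  refine ⟨C, by linarith, ?_⟩
  intro n hn q hq
  have hnr : (1:ℝ) ≤ n := by exact_mod_cast hn
  have hn1 : (n:ℝ) ^ (-(3/4 : ℝ) - 4 * a) ≤ 1 := Real.rpow_le_one_of_one_le_of_nonpos hnr (by linarith)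
  have hn0 : 0 < (n:ℝ) ^ (-(3/4 : ℝ) - 4 * a) := by positivity
  set δ : ℝ := (n:ℝ) ^ (-(3/4 : ℝ) - 4 * a) / C with hδ
  have hδ0 : 0 < δ := by positivity
  have hδ4 : δ ≤ 1/4 := by
    rw [hδ, div_le_iff₀ hCpos]; linarith
  -- the family of constraints
  set g : Bool × (Fin (n+1) ⊕ Fin (n+1)) → ℝ → ℝ := fun i s =>
    match i.2 with
    | Sum.inl k => a4 (qs i.1 s) k - A * (((k:ℕ):ℝ) + 1) ^ (-(5/4 : ℝ) + a)
    | Sum.inr h => if (h:ℕ) = 0 then -1 else κ1 / 2 - hh (qs i.1 s) (16 * (h:ℕ)) (h:ℕ) with hg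
  have hgcont : ∀ i, Continuous (g i) := by
    rintro ⟨τ, k | h⟩
    · simp only [hg]
      apply Continuous.sub _ continuous_const
      unfold a4
      exact ((cont_Pr _ _).comp (cont_qs τ)).add ((cont_Pr _ _).comp (cont_qs τ))
    · simp only [hg]
      split_ifs
      · exact continuous_const
      · apply Continuous.sub continuous_const
        exact (cont_Pr _ _).comp (cont_qs τ)
  -- meaning of the constraints
  have hmean : ∀ s, 0 ≤ s → s ≤ δ → (∀ i, g i s ≤ 0) → ∀ τ : Bool,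
      Win (qs τ s) (κ1 / 2) n ∧ A4le (qs τ s) A a n := by
    intro s hs hsδ hgs τ
    have hwin' : ∀ τ : Bool, ∀ h : ℕ, 1 ≤ h → h ≤ n → κ1 / 2 ≤ hh (qs τ s) (16 * h) h := by
      intro τ h h1 h2
      have := hgs (τ, Sum.inr ⟨h, by omega⟩)
      simp only [hg] at this
      rw [if_neg (by omega)] at this
      linarith
    refine ⟨⟨hκ, by linarith, ?_, ?_, hwin' τ, ?_⟩, ?_⟩
    · have := abs_qs (τ := τ) hs
      have := (abs_le.mp this.le).1
      linarith
    · have := abs_qs (τ := τ) hs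
      have := (abs_le.mp this.le).2
      linarith
    · intro h h1 h2
      rw [qs_flip]
      exact hwin' (!τ) h h1 h2
    · intro k hk
      have := hgs (τ, Sum.inl ⟨k, by omega⟩)
      simp only [hg] at this
      linarith
  -- constraints hold strictly at `0`
  have hstrict : ∀ t, 0 ≤ t → t ≤ δ → (∀ s, 0 ≤ s → s ≤ t → ∀ τ : Bool,
      Win (qs τ s) (κ1 / 2) n ∧ A4le (qs τ s) A a n) → ∀ i, g i t < 0 := by
    intro t ht htδ hall
    rintro ⟨τ, k | h⟩
    · simp only [hg]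
      have hseg : ∀ t' ∈ Set.uIcc (1/2) (qs τ t), Win t' (κ1 / 2) n ∧ A4le t' A a n := by
        intro t' ht'
        obtain ⟨s', h1, h2, rfl⟩ := uIcc_qs ht ht'
        exact hall s' h1 h2 τ
      have h3 := hstep (qs τ t) δ n hn (by
        rw [abs_qs ht]
        have h4 : A^2 * t ≤ C * δ := mul_le_mul (by linarith) htδ ht hCpos.le
        have h5 : C * δ = (n:ℝ) ^ (-(3/4 : ℝ) - 4 * a) := by rw [hδ]; field_simp
        linarith) hseg k (by have := k.2; omega)
      linarith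
    · simp only [hg]
      split_ifs with h0
      · norm_num
      · have h1 : 1 ≤ (h:ℕ) := by omega
        have h2 : (h:ℕ) ≤ n := by have := h.2; omega
        have hlip := lip (f := fun q => hh q (16 * ((h:ℕ):ℤ)) ((h:ℕ):ℤ)) (a := 1/2) (b := qs τ t)
          (B := C2 * A * ((h:ℕ):ℝ) ^ ((3/4 : ℝ) + a)) (by
            intro t' ht'
            obtain ⟨s', h3, h4, rfl⟩ := uIcc_qs ht ht'
            obtain ⟨hw, hA4⟩ := hall s' h3 h4 τ
            exact hhd (qs τ s') n hw A hA hA4 h h1 h2)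
        rw [abs_qs ht] at hlip
        have h3 := (hwin h).pri h h1 le_rfl
        have h4 : C2 * A * ((h:ℕ):ℝ) ^ ((3/4 : ℝ) + a) * t ≤ κ1 / 4 := by
          have hhr : (0:ℝ) < ((h:ℕ):ℝ) := by exact_mod_cast h1
          have h5 : ((h:ℕ):ℝ) ^ ((3/4 : ℝ) + a) ≤ (n:ℝ) ^ ((3/4 : ℝ) + a) :=
            Real.rpow_le_rpow hhr.le (by exact_mod_cast h2) (by linarith)
          have h6 : (n:ℝ) ^ ((3/4 : ℝ) + a) * (n:ℝ) ^ (-(3/4 : ℝ) - 4 * a) ≤ 1 := by
            rw [← Real.rpow_add (by linarith)]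
            exact Real.rpow_le_one_of_one_le_of_nonpos hnr (by linarith)
          have h7 : t * C ≤ (n:ℝ) ^ (-(3/4 : ℝ) - 4 * a) := by
            have : δ * C = (n:ℝ) ^ (-(3/4 : ℝ) - 4 * a) := by rw [hδ]; field_simp
            rw [← this]
            exact mul_le_mul_of_nonneg_right htδ hCpos.le
          have h8 : 4 * (C2 * A / κ1) ≤ C := by linarith
          have h9 : ((h:ℕ):ℝ) ^ ((3/4 : ℝ) + a) * (t * C) ≤ 1 := by
            calc _ ≤ (n:ℝ) ^ ((3/4 : ℝ) + a) * (n:ℝ) ^ (-(3/4 : ℝ) - 4 * a) :=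
                  mul_le_mul h5 h7 (by positivity) (by positivity)
              _ ≤ 1 := h6
          have h10 : ((h:ℕ):ℝ) ^ ((3/4 : ℝ) + a) * t * (4 * (C2 * A / κ1)) ≤ 1 := by
            calc _ ≤ ((h:ℕ):ℝ) ^ ((3/4 : ℝ) + a) * t * C :=
                  mul_le_mul_of_nonneg_left h8 (by positivity)
              _ ≤ 1 := by linarith
          have h11 : C2 * A * ((h:ℕ):ℝ) ^ ((3/4 : ℝ) + a) * t =
              κ1 / 4 * (((h:ℕ):ℝ) ^ ((3/4 : ℝ) + a) * t * (4 * (C2 * A / κ1))) := by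
            field_simp
          rw [h11]
          have : 0 ≤ κ1 / 4 := by linarith
          nlinarith
        have h5 := (abs_le.mp hlip).1
        linarith
  have hconc : ∀ t, 0 ≤ t → t ≤ δ → ∀ i, g i t < 0 := by
    apply bootstrap g δ hgcont
    · apply hstrict 0 le_rfl hδ0.le
      intro s hs1 hs2 τ
      have hs0 : s = 0 := le_antisymm hs2 hs1
      subst hs0
      have hq0 : qs τ 0 = 1/2 := by cases τ <;> simp [qs]
      rw [hq0]
      refine ⟨⟨hκ, by linarith, by norm_num, by norm_num, ?_, ?_⟩, ?_⟩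
      · intro h h1 h2
        exact le_trans (by linarith) ((hwin n).pri h h1 h2)
      · intro h h1 h2
        exact le_trans (by linarith) ((hwin n).dua h h1 h2)
      · exact fun k _ => hAcrit k
    · intro t ht htδ hall
      apply hstrict t ht htδ
      intro s hs1 hs2 τ
      exact hmean s hs1 (hs2.trans htδ) (hall s hs1 hs2) τ
  -- conclusion
  obtain ⟨τ, hτ⟩ : ∃ τ : Bool, q = qs τ |q - 1/2| := by
    rcases le_total (1/2) q with h | h
    · refine ⟨true, ?_⟩
      unfold qs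
      rw [abs_of_nonneg (by linarith)]
      simp
    · refine ⟨false, ?_⟩
      unfold qs
      rw [abs_of_nonpos (by linarith)]
      simp only [Bool.false_eq_true, if_false]
      ring
  have hfin := hmean |q - 1/2| (abs_nonneg _) hq (fun i => (hconc _ (abs_nonneg _) hq i).le) τ
  rw [← hτ] at hfin
  refine ⟨hfin.1, fun k hk => (hfin.2 k hk).trans ?_⟩
  exact mul_le_mul_of_nonneg_right hCA (by positivity)

end H973N
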