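import Pool.Agent.H973R3.NC.AsmD

/-!
Assembly, part 5: lower bound for the four-arm probabilities in the window.
-/

set_option maxHeartbeats 1000000

namespace H973N

open H974 H12S Finset

theorem stab_lower (hcrit : ∀ ε : ℝ, 0 < ε → ∃ C : ℝ, ∀ k : ℕ, 1 ≤ k →
      a4 (1/2) k ≤ C * (k:ℝ) ^ (-(5/4 : ℝ) + ε))
    (hlow : ∀ ε : ℝ, 0 < ε → ∃ c : ℝ, 0 < c ∧ ∀ k : ℕ, 1 ≤ k →
      c * (k:ℝ) ^ (-(5/4 : ℝ) - ε) ≤ a4 (1/2) k) :
    ∀ ε : ℝ, 0 < ε → ε ≤ 1 / 8 → ∃ C : ℝ, 1 ≤ C ∧ ∀ n : ℕ, 1 ≤ n → ∀ q : ℝ,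
      |q - 1/2| ≤ (n:ℝ) ^ (-(3/4 : ℝ) - ε) / C →
        ∀ k : ℕ, 1 ≤ k → (k:ℝ) ≤ (n:ℝ) ^ (1 - ε) / C →
          (k:ℝ) ^ (-(5/4 : ℝ) - ε) / C ≤ a4 q k := by
  intro ε hε hε8
  obtain ⟨κ, hκ, hst⟩ := stab_of key_holds hcrit
  obtain ⟨CA, hCA, hst⟩ := hst (ε/4) (by linarith) (by linarith)
  obtain ⟨L, C0, k0, hL, hC0, hkey⟩ := key_holds κ hκ (ε/20) (by linarith) (by linarith)
  obtain ⟨c, hc, hlow⟩ := hlow (ε/20) (by linarith)
  obtain ⟨C1, hC1, hT⟩ := T_deriv κ hκ (by linarith : 0 < ε/4) (by linarith : ε/4 ≤ 1/8) L hL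
  obtain ⟨k2, hk2⟩ := big_scale (1/c) (1/2) (by norm_num)
  set k3 : ℕ := max k0 (max k2 2) with hk3
  set B : ℝ := 2 * C1 * CA^2 * C0 / c with hB
  have hBpos : 0 < B := by positivity
  set D : ℝ := ((k3:ℝ) + 2) * 9 with hD
  have hk3r : (0:ℝ) ≤ k3 := Nat.cast_nonneg _
  have hDpos : 18 ≤ D := by rw [hD]; nlinarith
  set C : ℝ := CA + B + D + 2 * C0 / c * D^2 with hC
  have hE : 0 < 2 * C0 / c * D^2 := by positivity
  have hCpos : 0 < C := by linarith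
  refine ⟨C, by linarith, ?_⟩
  intro n hn q hq k hk hkn
  have hnr : (1:ℝ) ≤ n := by exact_mod_cast hn
  have hkr : (1:ℝ) ≤ k := by exact_mod_cast hk
  set e1 : ℝ := 1 / (1 - ε/20) with he1
  have hden : 0 < 1 - ε/20 := by linarith
  have he1pos : 1 ≤ e1 := by rw [he1, le_div_iff₀ hden]; linarith
  have he1le : e1 ≤ 1 + ε/19 := by
    rw [he1, div_le_iff₀ hden]; nlinarith
  have he1mul : e1 * (1 - ε/20) = 1 := by rw [he1]; exact div_mul_cancel₀ 1 hden.ne'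
  -- the scale `k'`
  set X : ℝ := (3 * (k:ℝ)) ^ e1 with hX
  have hX1 : 1 ≤ X := Real.one_le_rpow (by linarith) (by linarith)
  set k' : ℕ := ⌈X⌉₊ + k3 with hk'
  have hk'X : X ≤ k' := by
    rw [hk']; push_cast
    have := Nat.le_ceil X
    linarith
  have hk'le : (k':ℝ) ≤ ((k3:ℝ) + 2) * X := by
    rw [hk']; push_cast
    have := (Nat.ceil_lt_add_one (by linarith : 0 ≤ X)).le
    nlinarith
  have hk'1 : (1:ℝ) ≤ k' := by linarith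
  have hXn : ((k3:ℝ) + 2) * X ≤ n := by
    have i1 : 3 * (k:ℝ) ≤ (n:ℝ)^(1 - ε) * (3 / C) := by
      have : 3 * (k:ℝ) ≤ 3 * ((n:ℝ)^(1 - ε) / C) := by linarith
      calc _ ≤ 3 * ((n:ℝ)^(1 - ε) / C) := this
        _ = _ := by ring
    have i2 : 3 / C ≤ 1 := by rw [div_le_one hCpos]; linarith
    have i3 : 0 < 3 / C := by positivity
    have i4 : X ≤ ((n:ℝ)^(1 - ε) * (3 / C)) ^ e1 :=
      Real.rpow_le_rpow (by linarith) i1 (by linarith)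
    rw [Real.mul_rpow (by positivity) i3.le, ← Real.rpow_mul (by linarith)] at i4
    have i5 : (n:ℝ)^((1 - ε) * e1) ≤ n := by
      calc (n:ℝ)^((1 - ε) * e1) ≤ (n:ℝ)^(1:ℝ) := by
            apply Real.rpow_le_rpow_of_exponent_le hnr
            have : (1 - ε) * e1 ≤ (1 - ε/20) * e1 :=
              mul_le_mul_of_nonneg_right (by linarith) (by linarith)
            linarith
        _ = n := Real.rpow_one _
    have i6 : (3 / C)^e1 ≤ 3 / C := by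
      calc (3 / C)^e1 ≤ (3/C)^(1:ℝ) := Real.rpow_le_rpow_of_exponent_ge i3 i2 he1pos
        _ = 3 / C := Real.rpow_one _
    have i7 : X ≤ n * (3 / C) := i4.trans (mul_le_mul i5 i6 (by positivity) (by linarith))
    have i8 : ((k3:ℝ) + 2) * (3 / C) ≤ 1 := by
      rw [← mul_div_assoc, div_le_one hCpos]
      linarith
    calc ((k3:ℝ) + 2) * X ≤ ((k3:ℝ) + 2) * (n * (3 / C)) :=
          mul_le_mul_of_nonneg_left i7 (by linarith)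
      _ = n * (((k3:ℝ) + 2) * (3 / C)) := by ring
      _ ≤ n * 1 := mul_le_mul_of_nonneg_left i8 (by linarith)
      _ = n := mul_one _
  have hk'n : k' ≤ n := by exact_mod_cast hk'le.trans hXn
  have hk'k0 : k0 ≤ k' := by
    have : k0 ≤ k3 := le_max_left _ _
    omega
  have hk'k2 : k2 ≤ k' := by
    have : k2 ≤ k3 := le_trans (le_max_left _ _) (le_max_right _ _)
    omega
  -- window
  have hn0 : 0 < (n:ℝ) ^ (-(3/4 : ℝ) - ε) := by positivity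
  have hCAC : CA ≤ C := by linarith
  have hqA : ∀ t ∈ Set.uIcc (1/2) q, Win t κ n ∧ A4le t CA (ε/4) n := by
    intro t ht
    apply hst n hn t
    rw [show (4:ℝ) * (ε/4) = ε by ring]
    have i1 : |t - 1/2| ≤ |q - 1/2| := Set.abs_sub_left_of_mem_uIcc ht
    calc |t - 1/2| ≤ |q - 1/2| := i1
      _ ≤ (n:ℝ) ^ (-(3/4 : ℝ) - ε) / C := hq
      _ ≤ (n:ℝ) ^ (-(3/4 : ℝ) - ε) / CA :=
        div_le_div_of_nonneg_left hn0.le (by linarith) hCAC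
  have hwq := (hqA q Set.right_mem_uIcc).1
  have hq0 : 0 ≤ q := by linarith [hwq.lo]
  have hq1 : q ≤ 1 := by linarith [hwq.hi]
  have hwh := (hqA (1/2) Set.left_mem_uIcc).1
  -- the key estimate at `1/2`
  have hlk := hlow k' (by
    have : (1:ℝ) ≤ k' := hk'1
    exact_mod_cast this)
  have hk'pos : (0:ℝ) < k' := by linarith
  rcases hkey (1/2) n hwh k' hk'k0 hk'n with h2 | ⟨m, hm512, hmk, hmk4, I, J, hIJ, hbound⟩
  · exfalso
    have i1 : c * (k':ℝ) ^ (-(5/4 : ℝ) - ε/20) ≤ (k':ℝ) ^ (-(2:ℝ)) := hlk.trans h2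
    have i2 : (k':ℝ) ^ (1/2 : ℝ) ≤ (k':ℝ) ^ ((3/4 : ℝ) - ε/20) :=
      Real.rpow_le_rpow_of_exponent_le hk'1 (by linarith)
    have i3 : (k':ℝ) ^ (-(5/4 : ℝ) - ε/20) = (k':ℝ) ^ ((3/4 : ℝ) - ε/20) * (k':ℝ) ^ (-(2:ℝ)) := by
      rw [← Real.rpow_add hk'pos]; congr 1; ring
    rw [i3] at i1
    have i4 := hk2 k' hk'k2
    have i5 : 0 < (k':ℝ) ^ (-(2:ℝ)) := by positivity
    have i6 : 1 < c * (k':ℝ) ^ ((3/4 : ℝ) - ε/20) := by
      have : 1/c < (k':ℝ) ^ ((3/4 : ℝ) - ε/20) := lt_of_lt_of_le i4 i2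
      rw [div_lt_iff₀ hc] at this
      linarith
    nlinarith
  · have hLm : m ≤ L * m := Nat.le_mul_of_pos_left _ (by omega)
    have hmk' : m ≤ k' := by nlinarith
    have hmn : m ≤ n := hmk'.trans hk'n
    have hmr : (512:ℝ) ≤ m := by exact_mod_cast hm512
    have hmpos : (0:ℝ) < m := by linarith
    have hlip := lip (f := fun q => ∑ e ∈ boxE (m / 4), PQ q (SR L m)
          (Pf (fun F : Finset Edg => Cn I J ↑F) e)) (a := 1/2) (b := q)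
          (B := C1 * CA ^ 2 * (m:ℝ) ^ ((3/2 : ℝ) + 2 * (ε/4)))
          (fun t ht => hT t n (hqA t ht).1 CA hCA (hqA t ht).2 m (by omega) hmn I J hIJ)
    have hup := T_upper hq0 hq1 (L := L) (m := m) (by omega) hL hIJ
    -- `m / 2 ≥ k`
    have hkm : k ≤ m / 2 := by
      have i1 : (3 * (k:ℝ)) ≤ (k':ℝ) ^ (1 - ε/20) := by
        calc 3 * (k:ℝ) = X ^ (1 - ε/20) := by
              rw [hX, ← Real.rpow_mul (by linarith), he1mul, Real.rpow_one]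
          _ ≤ _ := Real.rpow_le_rpow (by linarith) hk'X (by linarith)
      have i2 : 3 * (k:ℝ) ≤ m := i1.trans hmk
      have i3 : 3 * k ≤ m := by exact_mod_cast i2
      omega
    have ha : a4 q (m / 2) ≤ a4 q k := a4_anti hq0 hq1 hk hkm
    -- lower bound for `T(1/2)`
    have hTl : (m:ℝ)^2 * (c * (k':ℝ) ^ (-(5/4 : ℝ) - ε/20)) ≤
        C0 * ∑ e ∈ boxE (m / 4), PQ (1/2) (SR L m) (Pf (fun F : Finset Edg => Cn I J ↑F) e) :=
      le_trans (mul_le_mul_of_nonneg_left hlk (by positivity)) hbound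
    -- `k'` in terms of `m`
    have hk'm : (k':ℝ) ≤ (m:ℝ) ^ e1 := by
      calc (k':ℝ) = ((k':ℝ) ^ (1 - ε/20)) ^ e1 := by
            rw [← Real.rpow_mul hk'pos.le, mul_comm, he1mul, Real.rpow_one]
        _ ≤ _ := Real.rpow_le_rpow (by positivity) hmk (by linarith)
    have hexp : e1 * (-(5/4 : ℝ) - ε/20) ≥ -(5/4 : ℝ) - ε/4 := by
      nlinarith
    have hk'5 : (m:ℝ) ^ (-(5/4 : ℝ) - ε/4) ≤ (k':ℝ) ^ (-(5/4 : ℝ) - ε/20) := by
      calc (m:ℝ) ^ (-(5/4 : ℝ) - ε/4) ≤ (m:ℝ) ^ (e1 * (-(5/4 : ℝ) - ε/20)) :=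
            Real.rpow_le_rpow_of_exponent_le (by linarith) hexp
        _ = ((m:ℝ) ^ e1) ^ (-(5/4 : ℝ) - ε/20) := by rw [Real.rpow_mul hmpos.le]
        _ ≤ _ := Real.rpow_le_rpow_of_nonpos hk'pos hk'm (by linarith)
    -- the error
    have hdiff : C1 * CA ^ 2 * (m:ℝ) ^ ((3/2 : ℝ) + 2 * (ε/4)) * |q - 1/2| ≤
        C1 * CA^2 / C * (m:ℝ) ^ ((3/4 : ℝ) - ε/2) := by
      have j1 : (n:ℝ) ^ (-(3/4 : ℝ) - ε) ≤ (m:ℝ) ^ (-(3/4 : ℝ) - ε) :=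
        Real.rpow_le_rpow_of_nonpos hmpos (by exact_mod_cast hmn) (by linarith)
      have j2 : (m:ℝ) ^ ((3/2 : ℝ) + 2 * (ε/4)) * (m:ℝ) ^ (-(3/4 : ℝ) - ε) =
          (m:ℝ) ^ ((3/4 : ℝ) - ε/2) := by
        rw [← Real.rpow_add hmpos]; congr 1; ring
      have j3 : |q - 1/2| ≤ (m:ℝ) ^ (-(3/4 : ℝ) - ε) / C :=
        hq.trans (div_le_div_of_nonneg_right j1 hCpos.le)
      calc C1 * CA ^ 2 * (m:ℝ) ^ ((3/2 : ℝ) + 2 * (ε/4)) * |q - 1/2|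
          ≤ C1 * CA ^ 2 * (m:ℝ) ^ ((3/2 : ℝ) + 2 * (ε/4)) * ((m:ℝ) ^ (-(3/4 : ℝ) - ε) / C) :=
            mul_le_mul_of_nonneg_left j3 (by positivity)
        _ = C1 * CA^2 / C * ((m:ℝ) ^ ((3/2 : ℝ) + 2 * (ε/4)) * (m:ℝ) ^ (-(3/4 : ℝ) - ε)) := by ring
        _ = _ := by rw [j2]
    have hm2 : (m:ℝ)^2 * (m:ℝ) ^ (-(5/4 : ℝ) - ε/4) = (m:ℝ) ^ ((3/4 : ℝ) - ε/4) := by
      rw [← Real.rpow_natCast, ← Real.rpow_add hmpos]
      congr 1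
      push_cast
      ring
    have hm3 : (m:ℝ) ^ ((3/4 : ℝ) - ε/2) ≤ (m:ℝ) ^ ((3/4 : ℝ) - ε/4) :=
      Real.rpow_le_rpow_of_exponent_le (by linarith) (by linarith)
    -- half of `T(1/2)`
    have hhalf : C0 * (C1 * CA^2 / C * (m:ℝ) ^ ((3/4 : ℝ) - ε/2)) ≤
        1/2 * ((m:ℝ)^2 * (c * (k':ℝ) ^ (-(5/4 : ℝ) - ε/20))) := by
      have j1 : (m:ℝ)^2 * (c * (m:ℝ) ^ (-(5/4 : ℝ) - ε/4)) ≤
          (m:ℝ)^2 * (c * (k':ℝ) ^ (-(5/4 : ℝ) - ε/20)) :=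
        mul_le_mul_of_nonneg_left (mul_le_mul_of_nonneg_left hk'5 hc.le) (by positivity)
      have j2 : C0 * (C1 * CA^2 / C) ≤ c / 2 := by
        have : B ≤ C := by linarith
        rw [← mul_div_assoc, div_le_iff₀ hCpos]
        have j3 : c / 2 * B = C0 * (C1 * CA^2) := by rw [hB]; field_simp
        rw [← j3]
        exact mul_le_mul_of_nonneg_left this (by linarith)
      have j4 : 0 < (m:ℝ) ^ ((3/4 : ℝ) - ε/4) := by positivity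
      calc C0 * (C1 * CA^2 / C * (m:ℝ) ^ ((3/4 : ℝ) - ε/2))
          = C0 * (C1 * CA^2 / C) * (m:ℝ) ^ ((3/4 : ℝ) - ε/2) := by ring
        _ ≤ c / 2 * (m:ℝ) ^ ((3/4 : ℝ) - ε/4) :=
          mul_le_mul j2 hm3 (by positivity) (by linarith)
        _ = 1/2 * ((m:ℝ)^2 * (c * (m:ℝ) ^ (-(5/4 : ℝ) - ε/4))) := by rw [← hm2]; ring
        _ ≤ _ := mul_le_mul_of_nonneg_left j1 (by norm_num)
    have hTq : 1/2 * ((m:ℝ)^2 * (c * (k':ℝ) ^ (-(5/4 : ℝ) - ε/20))) ≤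
        C0 * ((m:ℝ)^2 * a4 q k) := by
      have j1 := (abs_le.mp (hlip.trans hdiff)).1
      have j2 : ∑ e ∈ boxE (m / 4), PQ q (SR L m) (Pf (fun F : Finset Edg => Cn I J ↑F) e) ≤
          (m:ℝ)^2 * a4 q k := hup.trans (mul_le_mul_of_nonneg_left ha (by positivity))
      have j3 : ∑ e ∈ boxE (m / 4), PQ (1/2) (SR L m) (Pf (fun F : Finset Edg => Cn I J ↑F) e) ≤
          (m:ℝ)^2 * a4 q k + C1 * CA^2 / C * (m:ℝ) ^ ((3/4 : ℝ) - ε/2) := by linarith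
      have j4 := mul_le_mul_of_nonneg_left j3 hC0.le
      linarith
    have hfin : 1/2 * (c * (k':ℝ) ^ (-(5/4 : ℝ) - ε/20)) ≤ C0 * a4 q k := by
      have hm2pos : 0 < (m:ℝ)^2 := by positivity
      have : (m:ℝ)^2 * (1/2 * (c * (k':ℝ) ^ (-(5/4 : ℝ) - ε/20))) ≤ (m:ℝ)^2 * (C0 * a4 q k) := by
        linarith
      exact le_of_mul_le_mul_left this hm2pos
    -- `k'` in terms of `k`
    have hkk : (k:ℝ) ^ (-(5/4 : ℝ) - ε) / D^2 ≤ (k':ℝ) ^ (-(5/4 : ℝ) - ε/20) := by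
      have j1 : (((k3:ℝ) + 2) * X) ^ (-(5/4 : ℝ) - ε/20) ≤ (k':ℝ) ^ (-(5/4 : ℝ) - ε/20) :=
        Real.rpow_le_rpow_of_nonpos hk'pos hk'le (by linarith)
      refine le_trans ?_ j1
      have j2 : ((k3:ℝ) + 2) * X ≤ D * (k:ℝ) ^ e1 := by
        rw [hX, hD, Real.mul_rpow (by norm_num) (by linarith)]
        have j3 : (3:ℝ) ^ e1 ≤ 9 := by
          calc (3:ℝ) ^ e1 ≤ (3:ℝ) ^ (2:ℝ) :=
                Real.rpow_le_rpow_of_exponent_le (by norm_num) (by linarith)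
            _ = 9 := by rw [Real.rpow_two]; norm_num
        have j4 : 0 < (k:ℝ) ^ e1 := by positivity
        calc ((k3:ℝ) + 2) * ((3:ℝ) ^ e1 * (k:ℝ) ^ e1) ≤ ((k3:ℝ) + 2) * (9 * (k:ℝ) ^ e1) := by
              apply mul_le_mul_of_nonneg_left _ (by linarith)
              exact mul_le_mul_of_nonneg_right j3 j4.le
          _ = _ := by ring
      have j5 : (D * (k:ℝ) ^ e1) ^ (-(5/4 : ℝ) - ε/20) ≤ (((k3:ℝ) + 2) * X) ^ (-(5/4 : ℝ) - ε/20) :=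
        Real.rpow_le_rpow_of_nonpos (by positivity) j2 (by linarith)
      refine le_trans ?_ j5
      rw [Real.mul_rpow (by linarith) (by positivity), ← Real.rpow_mul (by linarith)]
      have j6 : (k:ℝ) ^ (-(5/4 : ℝ) - ε) ≤ (k:ℝ) ^ (e1 * (-(5/4 : ℝ) - ε/20)) :=
        Real.rpow_le_rpow_of_exponent_le hkr (by linarith)
      have j7 : 1 / D^2 ≤ D ^ (-(5/4 : ℝ) - ε/20) := by
        calc 1 / D^2 = D ^ (-(2:ℝ)) := by
              rw [Real.rpow_neg (by linarith), Real.rpow_two, one_div]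
          _ ≤ _ := Real.rpow_le_rpow_of_exponent_le (by linarith) (by linarith)
      calc (k:ℝ) ^ (-(5/4 : ℝ) - ε) / D^2 = (1 / D^2) * (k:ℝ) ^ (-(5/4 : ℝ) - ε) := by ring
        _ ≤ _ := mul_le_mul j7 j6 (by positivity) (by positivity)
    have hlast : (k:ℝ) ^ (-(5/4 : ℝ) - ε) / C ≤ c / (2 * C0) * ((k:ℝ) ^ (-(5/4 : ℝ) - ε) / D^2) := by
      have j1 : 2 * C0 / c * D^2 ≤ C := by linarith
      have j2 : 0 < (k:ℝ) ^ (-(5/4 : ℝ) - ε) := by positivity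
      have j3 : c / (2 * C0) * ((k:ℝ) ^ (-(5/4 : ℝ) - ε) / D^2) =
          (k:ℝ) ^ (-(5/4 : ℝ) - ε) / (2 * C0 / c * D^2) := by
        field_simp
      rw [j3]
      exact div_le_div_of_nonneg_left j2.le hE j1
    calc (k:ℝ) ^ (-(5/4 : ℝ) - ε) / C ≤ c / (2 * C0) * ((k:ℝ) ^ (-(5/4 : ℝ) - ε) / D^2) := hlast
      _ ≤ c / (2 * C0) * (k':ℝ) ^ (-(5/4 : ℝ) - ε/20) :=
        mul_le_mul_of_nonneg_left hkk (by positivity)
      _ = (1/2 * (c * (k':ℝ) ^ (-(5/4 : ℝ) - ε/20))) / C0 := by field_simp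
      _ ≤ (C0 * a4 q k) / C0 := div_le_div_of_nonneg_right hfin hC0.le
      _ = a4 q k := by field_simp

end H973N
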