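import Pool.Agent.H12R2.Sep.BlkSum

/-!
Near-critical module (derivatives of influences), common definitions.
-/

namespace H973N

open H974 H12S Finset

/-- `e` is pivotal for `f` (whatever the state of `e` in `F`). -/
def Pf {E : Type*} [DecidableEq E] (f : Finset E → Prop) (e : E) (F : Finset E) : Prop :=
  f (insert e F) ∧ ¬ f (F.erase e)

/-- The block `b` is pivotal for `f`. -/
def Bf {E : Type*} [DecidableEq E] (f : Finset E → Prop) (b : Finset E) (F : Finset E) : Prop :=
  f (F ∪ b) ∧ ¬ f (F \ b)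

/-- The second difference of `f` at `e, g` does not vanish. -/
def SD {E : Type*} [DecidableEq E] (f : Finset E → Prop) (e g : E) (F : Finset E) : Prop :=
  (Pf f e (F.erase g) ∨ Pf f e (insert g F)) ∧ (Pf f g (F.erase e) ∨ Pf f g (insert e F)) ∧
    f (insert e (insert g F)) ∧ ¬ f ((F.erase e).erase g)

/-- Connection of `I` and `J` when the edges of `O` are open in addition to those of `F`. -/
def CO (I J : Set Vtx) (O : Set Edg) (F : Finset Edg) : Prop := Cn I J (↑F ∪ O)

/-- `I` and `J` have no vertex in the interior of the box. -/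
def Off (a b c d : ℤ) (I J : Set Vtx) : Prop :=
  ∀ v ∈ I ∪ J, ¬ ((a < v.1 ∧ v.1 < b) ∧ (c < v.2 ∧ v.2 < d))

/-- Local four-arm event around the base point of `e`. -/
def L4 (ρ : ℕ) (e : Edg) (F : Set Edg) : Prop :=
  A4 (e.1 - ρ) (e.1 + ρ) (e.2.1 - ρ) (e.2.1 + ρ) e F

/-- The base point of an edge. -/
def bp (e : Edg) : ℤ × ℤ := (e.1, e.2.1)

/-- Distance of the base points. -/
def dst (e g : Edg) : ℤ := max |e.1 - g.1| |e.2.1 - g.2.1|

/-- The sum which bounds the total influence. -/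
noncomputable def W1s (q : ℝ) (K : ℕ) : ℝ :=
  Real.sqrt ((2:ℝ)^K) + ∑ k ∈ Finset.range (K + 1), (4:ℝ)^k * a4 q (2^k) * Real.sqrt ((2:ℝ)^(K - k))

/-- The sum which bounds the near pairs. -/
noncomputable def W2s (q : ℝ) (K : ℕ) : ℝ :=
  (2:ℝ)^K + ∑ k ∈ Finset.range (K + 1), (16:ℝ)^k * (a4 q (2^k))^2 * (2:ℝ)^(K - k)

end H973N
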