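import Pool.Agent.H973R3.NC.Defs
import Pool.Agent.H974R2.Static

/-! # Sum of the influences of edges -/

namespace H973N

open H974 H12S Finset

namespace ES

variable {E : Type*} [DecidableEq E]

/-- The centred and normalised state of `g`. -/
noncomputable def V (q : ℝ) (g : E) (F : Finset E) : ℝ :=
  q⁻¹ * ind (g ∈ F) - (1 - q)⁻¹ * ind (g ∉ F)

theorem V_mem {q : ℝ} {g : E} {F : Finset E} (h : g ∈ F) : V q g F = q⁻¹ := by
  unfold V
  rw [ind_of h, ind_not_of (fun h' => h' h)]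
  ring

theorem V_not {q : ℝ} {g : E} {F : Finset E} (h : g ∉ F) : V q g F = -(1 - q)⁻¹ := by
  unfold V
  rw [ind_not_of h, ind_of h]
  ring

theorem V_local (q : ℝ) (g : E) (F : Finset E) : V q g F = V q g (F ∩ {g}) := by
  by_cases h : g ∈ F
  · rw [V_mem h, V_mem (by simp [h])]
  · rw [V_not h, V_not (by simp [h])]

theorem okc {q : ℝ} (h0 : 1 / 4 ≤ q) (h1 : q ≤ 3 / 4) : Ok (fun _ : E => q) :=
  fun _ => ⟨by linarith, by linarith⟩

/-- conditioning on the state of `g` -/
theorem Ex_split (q : ℝ) {S : Finset E} {g : E} (hg : g ∈ S) (h : Finset E → ℝ) :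
    Ex (fun _ => q) S h = q * Ex (fun _ => q) (S.erase g) (fun F => h (insert g F)) +
      (1 - q) * Ex (fun _ => q) (S.erase g) h := by
  conv_lhs => rw [← Finset.insert_erase hg]
  rw [Ex_insert _ (Finset.notMem_erase g S)]

theorem not_mem_of {S F : Finset E} {g : E} (h : F ⊆ S.erase g) : g ∉ F :=
  fun h' => Finset.notMem_erase g S (h h')

theorem V_mean {q : ℝ} (h0 : 1 / 4 ≤ q) (h1 : q ≤ 3 / 4) {S : Finset E} {g : E} (hg : g ∈ S) :
    Ex (fun _ => q) S (V q g) = 0 := by
  rw [Ex_split q hg]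
  have e1 : Ex (fun _ => q) (S.erase g) (fun F => V q g (insert g F)) = q⁻¹ := by
    rw [Ex_congr (g := fun _ => q⁻¹) (fun F _ => V_mem (Finset.mem_insert_self g F)), Ex_const]
  have e2 : Ex (fun _ => q) (S.erase g) (V q g) = -(1 - q)⁻¹ := by
    rw [Ex_congr (g := fun _ => -(1 - q)⁻¹) (fun F hF => V_not (not_mem_of hF)), Ex_const]
  rw [e1, e2, mul_inv_cancel₀ (by linarith), mul_neg, mul_inv_cancel₀ (by linarith)]
  ring

theorem V_sq {q : ℝ} (h0 : 1 / 4 ≤ q) (h1 : q ≤ 3 / 4) {S : Finset E} {g : E} (hg : g ∈ S) :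
    Ex (fun _ => q) S (fun F => V q g F * V q g F) ≤ 16 / 3 := by
  rw [Ex_split q hg]
  have e1 : Ex (fun _ => q) (S.erase g) (fun F => V q g (insert g F) * V q g (insert g F)) =
      q⁻¹ * q⁻¹ := by
    rw [Ex_congr (g := fun _ => q⁻¹ * q⁻¹) (fun F _ => by
      rw [V_mem (Finset.mem_insert_self g F)]), Ex_const]
  have e2 : Ex (fun _ => q) (S.erase g) (fun F => V q g F * V q g F) =
      (1 - q)⁻¹ * (1 - q)⁻¹ := by
    rw [Ex_congr (g := fun _ => (1 - q)⁻¹ * (1 - q)⁻¹) (fun F hF => by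
      rw [V_not (not_mem_of hF)]; ring), Ex_const]
  have hq : 0 < q := by linarith
  have hq' : 0 < 1 - q := by linarith
  rw [e1, e2, ← mul_assoc, ← mul_assoc, mul_inv_cancel₀ hq.ne', mul_inv_cancel₀ hq'.ne', one_mul,
    one_mul]
  have e3 : q⁻¹ + (1 - q)⁻¹ = 1 / (q * (1 - q)) := by
    field_simp
    ring
  rw [e3, div_le_div_iff₀ (mul_pos hq hq') (by norm_num)]
  nlinarith [mul_nonneg (sub_nonneg.mpr h0) (sub_nonneg.mpr h1)]

theorem Pf_eq {q : ℝ} (h0 : 1 / 4 ≤ q) (h1 : q ≤ 3 / 4) {S : Finset E} {g : E} (hg : g ∈ S)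
    (f : Finset E → Prop) (hf : ∀ F G : Finset E, F ⊆ G → f F → f G) :
    Pr (fun _ => q) S (Pf f g) = Ex (fun _ => q) S (fun F => ind (f F) * V q g F) := by
  have hq : 0 < q := by linarith
  have hq' : 0 < 1 - q := by linarith
  unfold Pr
  rw [Ex_split q hg, Ex_split q hg]
  have e1 : Ex (fun _ => q) (S.erase g) (fun F => ind (Pf f g (insert g F))) =
      Ex (fun _ => q) (S.erase g) (fun F => ind (f (insert g F))) -
        Ex (fun _ => q) (S.erase g) (fun F => ind (f F)) := by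
    rw [← Ex_sub]
    apply Ex_congr
    intro F hF
    have hgF := not_mem_of hF
    unfold Pf
    rw [Finset.insert_idem, Finset.erase_insert hgF]
    by_cases k : f F
    · have k2 : f (insert g F) := hf _ _ (Finset.subset_insert _ _) k
      rw [ind_of k, ind_of k2, ind_not_of (fun h => h.2 k)]
      ring
    · by_cases k2 : f (insert g F)
      · rw [ind_not_of k, ind_of k2, ind_of ⟨k2, k⟩]
        ring
      · rw [ind_not_of k, ind_not_of k2, ind_not_of (fun h => k2 h.1)]
        ring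
  have e2 : Ex (fun _ => q) (S.erase g) (fun F => ind (Pf f g F)) =
      Ex (fun _ => q) (S.erase g) (fun F => ind (Pf f g (insert g F))) := by
    apply Ex_congr
    intro F hF
    have hgF := not_mem_of hF
    unfold Pf
    rw [Finset.insert_idem, Finset.erase_insert hgF, Finset.erase_eq_of_notMem hgF]
  have e3 : Ex (fun _ => q) (S.erase g) (fun F => ind (f (insert g F)) * V q g (insert g F)) =
      Ex (fun _ => q) (S.erase g) (fun F => ind (f (insert g F))) * q⁻¹ := by
    rw [← Ex_mul_right]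
    apply Ex_congr
    intro F _
    rw [V_mem (Finset.mem_insert_self g F)]
  have e4 : Ex (fun _ => q) (S.erase g) (fun F => ind (f F) * V q g F) =
      Ex (fun _ => q) (S.erase g) (fun F => ind (f F)) * (-(1 - q)⁻¹) := by
    rw [← Ex_mul_right]
    apply Ex_congr
    intro F hF
    rw [V_not (not_mem_of hF)]
  rw [e2, e3, e4, e1]
  field_simp
  ring

end ES

open ES

theorem edge_sum {E : Type*} [DecidableEq E] {q : ℝ} (h0 : 1 / 4 ≤ q) (h1 : q ≤ 3 / 4)
    {S G : Finset E} (hG : G ⊆ S) (f : Finset E → Prop)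
    (hf : ∀ F G : Finset E, F ⊆ G → f F → f G) :
    ∑ g ∈ G, Pr (fun _ => q) S (Pf f g) ≤ 3 * Real.sqrt G.card := by
  have hok : Ok (fun _ : E => q) := okc h0 h1
  set a : Finset E → ℝ := fun F => ind (f F) with ha
  set b : Finset E → ℝ := fun F => ∑ g ∈ G, V q g F with hb
  have b1 : ∑ g ∈ G, Pr (fun _ => q) S (Pf f g) = Ex (fun _ => q) S (fun F => a F * b F) := by
    have e1 : Ex (fun _ => q) S (fun F => a F * b F) =
        ∑ g ∈ G, Ex (fun _ => q) S (fun F => a F * V q g F) := by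
      rw [← Ex_sum]
      apply Ex_congr
      intro F _
      rw [hb, Finset.mul_sum]
    rw [e1]
    apply Finset.sum_congr rfl
    intro g hg
    exact Pf_eq h0 h1 (hG hg) f hf
  have b2 : Ex (fun _ => q) S (fun F => (a F) ^ 2) ≤ 1 := by
    apply Ex_le_of_le hok
    intro F _
    exact pow_le_one₀ (ind_nonneg _) (ind_le_one _)
  have b3 : Ex (fun _ => q) S (fun F => (b F) ^ 2) =
      ∑ g ∈ G, Ex (fun _ => q) S (fun F => V q g F * V q g F) := by
    have e1 : Ex (fun _ => q) S (fun F => (b F) ^ 2) =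
        ∑ g ∈ G, ∑ g' ∈ G, Ex (fun _ => q) S (fun F => V q g F * V q g' F) := by
      have e2 : ∀ F : Finset E, F ⊆ S → (b F) ^ 2 = ∑ g ∈ G, ∑ g' ∈ G, V q g F * V q g' F := by
        intro F _
        rw [hb, sq, Finset.sum_mul_sum]
      rw [Ex_congr e2, Ex_sum]
      apply Finset.sum_congr rfl
      intro g _
      rw [Ex_sum]
    rw [e1]
    apply Finset.sum_congr rfl
    intro g hg
    rw [Finset.sum_eq_single g]
    · intro g' hg' hne
      rw [Ex_mul_indep (S := {g}) (T := {g'}) (Finset.singleton_subset_iff.mpr (hG hg))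
        (Finset.singleton_subset_iff.mpr (hG hg'))
        (Finset.disjoint_singleton.mpr (Ne.symm hne))
        (fun F _ => V_local q g F) (fun F _ => V_local q g' F), V_mean h0 h1 (hG hg), zero_mul]
    · intro h; exact absurd hg h
  have b4 : Ex (fun _ => q) S (fun F => (b F) ^ 2) ≤ G.card * (16 / 3) := by
    rw [b3]
    refine (Finset.sum_le_sum (fun g hg => V_sq h0 h1 (hG hg))).trans ?_
    rw [Finset.sum_const, nsmul_eq_mul]
  have b5 := Ex_cs hok S a b
  have hb0 : 0 ≤ Ex (fun _ => q) S (fun F => (b F) ^ 2) :=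
    Ex_nonneg hok (fun F _ => sq_nonneg _)
  have b6 : (Ex (fun _ => q) S (fun F => a F * b F)) ^ 2 ≤ G.card * (16 / 3) := by
    refine b5.trans ?_
    calc Ex (fun _ => q) S (fun F => (a F) ^ 2) * Ex (fun _ => q) S (fun F => (b F) ^ 2)
        ≤ 1 * Ex (fun _ => q) S (fun F => (b F) ^ 2) := mul_le_mul_of_nonneg_right b2 hb0
      _ ≤ _ := by rw [one_mul]; exact b4
  rw [b1]
  have hG0 : (0:ℝ) ≤ G.card := Nat.cast_nonneg _
  apply le_trans (le_abs_self _)
  apply abs_le_of_sq_le_sq _ (by positivity)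
  rw [mul_pow, Real.sq_sqrt hG0]
  refine b6.trans ?_
  linarith

end H973N
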