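import Pool.Agent.H973R3.NC.Defs
import Pool.Agent.H12R2.Sep.Exit
import Pool.Agent.H12R2.Sep.H3
import Pool.Agent.H12R2.Sep.Pigeon

/-!
Exit of a thin box, probabilistic version: preparations.
-/

set_option maxHeartbeats 1000000

namespace H973N

open H974 H12S Finset

/-- The three-arm bound at the two sides of a strip. -/
theorem H3s_bound (κ : ℝ) (hκ : 0 < κ) : ∃ C c : ℝ, 0 < C ∧ 0 < c ∧ ∀ (q : ℝ) (n : ℕ),
    Win q κ n → ∀ (σ : Bool) (m r ρ : ℕ), 1 ≤ r → r ≤ ρ → ρ ≤ n → ∀ (x0 : ℤ) (S : Finset Edg),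
      HB σ m x0 ρ ⊆ S →
      PQ q S (fun F => H3s σ m x0 r ρ ↑F) ≤ C * ((r:ℝ) / ρ) ^ (1 + c) := by
  obtain ⟨C, c, hC, hc, h⟩ := H3_bound κ hκ
  refine ⟨C, c, hC, hc, ?_⟩
  intro q n hw σ m r ρ hr hrρ hρn x0 S hS
  have ok := okq (q := q) (by linarith [hw.lo]) (by linarith [hw.hi])
  cases σ
  · exact h q n hw r ρ hr hrρ hρn x0 (-m) S hS
  · have hS' : hbD x0 m ρ ⊆ S := hS
    have e1 : PQ q S (fun F => H3s true m x0 r ρ ↑F) =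
        PQ q (hbD x0 m ρ) (fun F => H3s true m x0 r ρ ↑F) := by
      apply Pr_local hS'
      intro F _
      show H3g _ _ _ _ ↔ H3g _ _ _ _
      unfold H3g
      rw [Finset.coe_inter, Set.inter_assoc, Set.inter_self]
    have e2 : hbD x0 m ρ = (rfy 0).mp (hbU x0 (-m) ρ) := by
      unfold hbD hbU
      rw [rfy_RE]
      congr 1 <;> ring
    rw [e1, e2]
    unfold PQ
    rw [(rfy 0).pr]
    refine le_trans (Pr_mono ok ?_) (h q n hw r ρ hr hrρ hρn x0 (-m) (hbU x0 (-m) ρ)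
      (Finset.Subset.refl _))
    intro F _ hF
    have hset : (↑((rfy 0).mp F) : Set Edg) ∩ ↑(hbD x0 m ρ) =
        (rfy 0).φ '' (↑F ∩ ↑(hbU x0 (-m) ρ)) := by
      rw [e2, LSym.coe_mp, LSym.coe_mp, Set.image_inter (rfy 0).φ.injective]
    have hF' : H3g (hbD x0 m ρ) (segH x0 m r) (rimD x0 m ρ) (↑((rfy 0).mp F) : Set Edg) := hF
    unfold H3g at hF'
    rw [hset] at hF'
    have inv : ∀ v : Vtx, (rfy 0).ψ (v.1, -v.2) = v := by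
      rintro ⟨v1, v2⟩
      rw [rfy_ψ]; simp
    obtain ⟨v, hv, v', hv', ⟨b, hb, k1⟩, ⟨b', hb', k2⟩, k3⟩ := hF'
    rw [← inv v, ← inv b] at k1
    rw [← inv v', ← inv b'] at k2
    rw [← inv v, ← inv v'] at k3
    unfold H3 H3g
    refine ⟨(v.1, -v.2), ?_, (v'.1, -v'.2), ?_, ⟨(b.1, -b.2), ?_, (rfy 0).reach_iff.mp k1⟩,
      ⟨(b'.1, -b'.2), ?_, (rfy 0).reach_iff.mp k2⟩, fun k4 => k3 ((rfy 0).reach_iff.mpr k4)⟩
    · obtain ⟨a1, a2, a3⟩ := hv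
      refine ⟨?_, ?_, ?_⟩
      · show -v.2 = -(m:ℤ); omega
      · exact a2
      · exact a3
    · obtain ⟨a1, a2, a3⟩ := hv'
      refine ⟨?_, ?_, ?_⟩
      · show -v'.2 = -(m:ℤ); omega
      · exact a2
      · exact a3
    · obtain ⟨⟨⟨a1, a2⟩, a3, a4⟩, a5⟩ := hb
      refine ⟨⟨⟨?_, ?_⟩, ?_, ?_⟩, ?_⟩
      · show x0 - ρ ≤ b.1; omega
      · show b.1 ≤ x0 + ρ; omega
      · show -(m:ℤ) ≤ -b.2; omega
      · show -b.2 ≤ -(m:ℤ) + ρ; omega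
      · show b.1 = x0 - ρ ∨ b.1 = x0 + ρ ∨ -b.2 = -(m:ℤ) + ρ; omega
    · obtain ⟨⟨⟨a1, a2⟩, a3, a4⟩, a5⟩ := hb'
      refine ⟨⟨⟨?_, ?_⟩, ?_, ?_⟩, ?_⟩
      · show x0 - ρ ≤ b'.1; omega
      · show b'.1 ≤ x0 + ρ; omega
      · show -(m:ℤ) ≤ -b'.2; omega
      · show -b'.2 ≤ -(m:ℤ) + ρ; omega
      · show b'.1 = x0 - ρ ∨ b'.1 = x0 + ρ ∨ -b'.2 = -(m:ℤ) + ρ; omega

/-- The four-arm event in a box depends only on the edges of the box. -/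
theorem A4_local (a b c d : ℤ) (e : Edg) (F T : Finset Edg) (hT : RE a b c d ⊆ T) :
    A4 a b c d e (↑F : Set Edg) ↔ A4 a b c d e (↑(F ∩ T) : Set Edg) := by
  unfold A4
  have : (↑(F ∩ T) : Set Edg) ∩ ↑(RE a b c d) = ↑F ∩ ↑(RE a b c d) := by
    rw [Finset.coe_inter, Set.inter_assoc]
    congr 1
    exact Set.inter_eq_right.mpr (by exact_mod_cast hT)
  rw [this]

/-- Restriction of the four-arm event to a smaller box. -/
theorem A4_sub {a b c d a' b' c' d' : ℤ} (ha : a ≤ a') (hb : b' ≤ b) (hc : c ≤ c') (hd : d' ≤ d)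
    {e : Edg} (he : inR a' b' c' d' (src e)) (he' : inR a' b' c' d' (tgt e)) {F : Set Edg}
    (h : A4 a b c d e F) : A4 a' b' c' d' e F := by
  have hsub : (F ∩ ↑(RE a b c d)) \ {e} ∩ ↑(RE a' b' c' d') ⊆ (F ∩ ↑(RE a' b' c' d')) \ {e} := by
    rintro g ⟨⟨⟨h1, _⟩, h2⟩, h3⟩
    exact ⟨⟨h1, h3⟩, h2⟩
  have hsub2 : (F ∩ ↑(RE a' b' c' d')) \ {e} ⊆ (F ∩ ↑(RE a b c d)) \ {e} := by
    rintro g ⟨⟨h1, h3⟩, h2⟩
    refine ⟨⟨h1, ?_⟩, h2⟩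
    have : RE a' b' c' d' ⊆ RE a b c d := RE_subset ha hb hc hd
    exact_mod_cast this (by exact_mod_cast h3)
  have harm : ∀ u, inR a' b' c' d' u → (∃ w ∈ bdR a b c d, Reach ((F ∩ ↑(RE a b c d)) \ {e}) u w) →
      ∃ w ∈ bdR a' b' c' d', Reach ((F ∩ ↑(RE a' b' c' d')) \ {e}) u w := by
    rintro u hu ⟨w, ⟨_, hw⟩, hr⟩
    obtain ⟨z, z1, z2, z3⟩ := first_exit hu hr (by omega)
    exact ⟨z, ⟨z1, z2⟩, z3.mono hsub⟩
  exact ⟨harm _ he h.1, harm _ he' h.2.1, fun hcon => h.2.2 (hcon.mono hsub2)⟩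

theorem inR_ball {e : Edg} {ρ : ℕ} (hρ : 1 ≤ ρ) :
    inR (e.1 - ρ) (e.1 + ρ) (e.2.1 - ρ) (e.2.1 + ρ) (src e) ∧
      inR (e.1 - ρ) (e.1 + ρ) (e.2.1 - ρ) (e.2.1 + ρ) (tgt e) := by
  obtain ⟨x, y, _ | _⟩ := e
  · simp only [src_mk, tgt_false, inR]; omega
  · simp only [src_mk, tgt_true, inR]; omega

/-- The crossing event outside the middle. -/
theorem end_event {N m : ℕ} (hNm : m < N) {e : Edg} {F : Finset Edg}
    (hF : F ⊆ RE (-(2 * N : ℕ)) (2 * N : ℕ) (-m) m) {u v : Vtx} (hu : |u.1| ≤ m) (hu2 : |u.2| ≤ m)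
    (h : Reach ((↑F : Set Edg) \ {e}) u v) (hv : (N:ℤ) ≤ |v.1|) :
    ∃ u' v' : Vtx, |u'.1| ≤ m ∧ (N:ℤ) ≤ |v'.1| ∧ |u'.2| ≤ m ∧
      Reach (↑(F ∩ (RE (-N) N (-m) m \ RE (-m) m (-m) m)) : Set Edg) u' v' := by
  have h' : GR src tgt (↑F : Set Edg) u v := h.mono Set.sdiff_subset
  obtain ⟨u', v', k1, k2, k3⟩ := WA_cross src tgt (P := fun w : Vtx => |w.1| ≤ m ∧ |w.2| ≤ m)
    (Q := fun w : Vtx => (N:ℤ) ≤ |w.1|) h' ⟨hu, hu2⟩ hv
  refine ⟨u', v', k1.1, k2, k1.2, Reach.mono ?_ k3⟩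
  rintro ⟨x, y, bo⟩ ⟨g1, g2, g3⟩
  have g1' := hF (by exact_mod_cast g1)
  rw [Finset.coe_inter, Finset.coe_sdiff]
  refine ⟨g1, ?_, ?_⟩
  · cases bo
    · simp only [Finset.mem_coe, mem_RE_false] at g1' ⊢
      simp only [src_mk, tgt_false, le_abs, not_and_or, not_or, not_le] at g3
      push_cast at g1'
      omega
    · simp only [Finset.mem_coe, mem_RE_true] at g1' ⊢
      simp only [src_mk, tgt_true, le_abs, not_and_or, not_or, not_le] at g3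
      push_cast at g1'
      omega
  · intro hcon
    apply g2
    cases bo
    · simp only [Finset.mem_coe, mem_RE_false] at hcon
      simp only [src_mk, tgt_false, abs_le]
      omega
    · simp only [Finset.mem_coe, mem_RE_true] at hcon
      simp only [src_mk, tgt_true, abs_le]
      omega

end H973N
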