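import Pool.Agent.H973R3.NC.ExitA

/-!
Exit of a thin box, probabilistic version.
-/

set_option maxHeartbeats 1000000

namespace H973N

open H974 H12S Finset

theorem idx_iff {s M : ℕ} (hs : 1 ≤ s) {k : ℤ} :
    |(s:ℤ) * k| ≤ M ↔ -((M / s : ℕ) : ℤ) ≤ k ∧ k ≤ ((M / s : ℕ) : ℤ) := by
  have hs' : (0:ℤ) < s := by exact_mod_cast hs
  push_cast
  rw [abs_le, Int.le_ediv_iff_mul_le hs', neg_le (a := (M:ℤ) / s) (b := k),
    Int.le_ediv_iff_mul_le hs']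
  constructor
  · rintro ⟨h1, h2⟩
    constructor <;> linarith [mul_comm (s:ℤ) k]
  · rintro ⟨h1, h2⟩
    constructor <;> linarith [mul_comm (s:ℤ) k]

/-- Indices of the small cells. -/
noncomputable def cellIdx (N r : ℕ) : Finset (Bool × ℤ) :=
  Finset.univ ×ˢ Finset.Icc (-(((N + r) / (2 * r) : ℕ) : ℤ)) (((N + r) / (2 * r) : ℕ) : ℤ)

/-- Indices of the big cells. -/
noncomputable def bigIdx (N ρ : ℕ) : Finset (Bool × ℤ) :=
  Finset.univ ×ˢ Finset.Icc (-(((N + 8 * ρ) / (4 * ρ) : ℕ) : ℤ)) (((N + 8 * ρ) / (4 * ρ) : ℕ) : ℤ)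

theorem mem_cellIdx {N r : ℕ} (hr : 1 ≤ r) {i : Bool × ℤ} :
    i ∈ cellIdx N r ↔ |2 * r * i.2| ≤ (N:ℤ) + r := by
  unfold cellIdx
  rw [Finset.mem_product, Finset.mem_Icc, ← idx_iff (by omega)]
  push_cast
  simp

theorem mem_bigIdx {N ρ : ℕ} (hr : 1 ≤ ρ) {i : Bool × ℤ} :
    i ∈ bigIdx N ρ ↔ |4 * ρ * i.2| ≤ (N:ℤ) + 8 * ρ := by
  unfold bigIdx
  rw [Finset.mem_product, Finset.mem_Icc, ← idx_iff (by omega)]
  push_cast
  simp

theorem card_cellIdx {N r : ℕ} (hr : 1 ≤ r) (h : 4 * r ≤ N) :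
    ((cellIdx N r).card : ℝ) ≤ 3 * ((N:ℝ) / r) := by
  have h1 : (cellIdx N r).card = 2 * (2 * ((N + r) / (2 * r)) + 1) := by
    unfold cellIdx
    rw [Finset.card_product, Int.card_Icc, Finset.card_univ, Fintype.card_bool]
    congr 1
    omega
  have h2 : (N + r) / (2 * r) * (2 * r) ≤ N + r := Nat.div_mul_le_self _ _
  have h3 : (cellIdx N r).card * r ≤ 3 * N := by
    rw [h1]
    nlinarith
  have hr' : (0:ℝ) < r := by exact_mod_cast hr
  rw [← mul_div_assoc, le_div_iff₀ hr']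
  exact_mod_cast h3

theorem card_bigIdx {N ρ : ℕ} (hr : 1 ≤ ρ) (h : 10 * ρ ≤ N) :
    ((bigIdx N ρ).card : ℝ) ≤ 2 * ((N:ℝ) / ρ) := by
  have h1 : (bigIdx N ρ).card = 2 * (2 * ((N + 8 * ρ) / (4 * ρ)) + 1) := by
    unfold bigIdx
    rw [Finset.card_product, Int.card_Icc, Finset.card_univ, Fintype.card_bool]
    congr 1
    omega
  have h2 : (N + 8 * ρ) / (4 * ρ) * (4 * ρ) ≤ N + 8 * ρ := Nat.div_mul_le_self _ _
  have h3 : (bigIdx N ρ).card * ρ ≤ 2 * N := by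
    rw [h1]
    nlinarith
  have hr' : (0:ℝ) < ρ := by exact_mod_cast hr
  rw [← mul_div_assoc, le_div_iff₀ hr']
  exact_mod_cast h3

/-- The thin box. -/
noncomputable def Rb (L m : ℕ) : Finset Edg := RE (-(2 * L * m : ℕ)) (2 * L * m : ℕ) (-m) m

theorem ball_in {L m : ℕ} (hL : 1 ≤ L) {e : Edg} (he : e ∈ boxE (m / 8)) :
    blk (bp e) (m / 4) ⊆ Rb L m ∧ blk (bp e) (m / 4) ⊆ RE (-m) m (-m) m ∧
      ∀ g ∈ blk (bp e) (m / 4), 2 * |g.2.1| ≤ m - 1 ∨ m = 0 := by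
  have hLm : m ≤ 2 * L * m := by nlinarith [Nat.zero_le m]
  obtain ⟨x, y, bo⟩ := e
  have hxy : (-((m / 8 : ℕ) : ℤ) ≤ x ∧ x ≤ ((m / 8 : ℕ) : ℤ)) ∧
      (-((m / 8 : ℕ) : ℤ) ≤ y ∧ y ≤ ((m / 8 : ℕ) : ℤ)) := by
    unfold boxE at he
    cases bo
    · rw [mem_RE_false] at he; omega
    · rw [mem_RE_true] at he; omega
  have h1 : blk (bp (x, y, bo)) (m / 4) ⊆ RE (-m) m (-m) m := by
    unfold blk bp
    exact RE_subset (by simp only; omega) (by simp only; omega) (by simp only; omega)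
      (by simp only; omega)
  refine ⟨h1.trans ?_, h1, ?_⟩
  · unfold Rb
    exact RE_subset (by omega) (by omega) le_rfl le_rfl
  · rintro ⟨x', y', bo'⟩ hg
    by_cases hm : m = 0
    · exact Or.inr hm
    left
    unfold blk bp at hg
    simp only
    rcases abs_cases y' with ⟨h2, _⟩ | ⟨h2, _⟩ <;> rw [h2] <;> cases bo'
    · rw [mem_RE_false] at hg; simp only at hg; omega
    · rw [mem_RE_true] at hg; simp only at hg; omega
    · rw [mem_RE_false] at hg; simp only at hg; omega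
    · rw [mem_RE_true] at hg; simp only at hg; omega

theorem HB_disj {L m : ℕ} (hL : 1 ≤ L) {e : Edg} (he : e ∈ boxE (m / 8)) (σ : Bool) (x0 : ℤ)
    {R : ℕ} (hR : 2 * R ≤ m) : Disjoint (blk (bp e) (m / 4)) (HB σ m x0 R) := by
  rw [Finset.disjoint_left]
  intro g hg hg'
  have h3 := (ball_in hL he).2.2 g hg
  have hb := (ball_in hL he).2.1 hg
  obtain ⟨x, y, bo⟩ := g
  simp only at h3
  cases σ
  · have hg2 : ((x, y, bo) : Edg) ∈ hbU x0 (-m) R := hg'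
    unfold hbU at hg2
    rcases abs_cases y with ⟨h2, _⟩ | ⟨h2, _⟩ <;> rw [h2] at h3 <;> cases bo
    · rw [mem_RE_false] at hg2 hb; omega
    · rw [mem_RE_true] at hg2 hb; omega
    · rw [mem_RE_false] at hg2 hb; omega
    · rw [mem_RE_true] at hg2 hb; omega
  · have hg2 : ((x, y, bo) : Edg) ∈ hbD x0 m R := hg'
    unfold hbD at hg2
    rcases abs_cases y with ⟨h2, _⟩ | ⟨h2, _⟩ <;> rw [h2] at h3 <;> cases bo
    · rw [mem_RE_false] at hg2 hb; omega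
    · rw [mem_RE_true] at hg2 hb; omega
    · rw [mem_RE_false] at hg2 hb; omega
    · rw [mem_RE_true] at hg2 hb; omega

theorem HB_in {L m : ℕ} {σ : Bool} {x0 : ℤ} {R : ℕ} (hR : R ≤ 2 * m)
    (hx : |x0| + R ≤ (2 * L * m : ℕ)) : HB σ m x0 R ⊆ Rb L m := by
  have := abs_le.mp (le_of_eq rfl : |x0| ≤ |x0|)
  cases σ
  · show hbU x0 (-m) R ⊆ Rb L m
    unfold hbU Rb
    exact RE_subset (by omega) (by omega) (by omega) (by omega)
  · show hbD x0 m R ⊆ Rb L m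
    unfold hbD Rb
    exact RE_subset (by omega) (by omega) (by omega) (by omega)

/-- Bad events are independent of the local four-arm event. -/
theorem bad_indep {q : ℝ} {L m : ℕ} (hL : 1 ≤ L) {e : Edg} (he : e ∈ boxE (m / 8))
    {T : Finset Edg} (hT : T ⊆ Rb L m) (hd : Disjoint (blk (bp e) (m / 4)) T)
    {B : Finset Edg → Prop} (hB : ∀ F, F ⊆ Rb L m → (B F ↔ B (F ∩ T))) :
    PQ q (Rb L m) (fun F => L4 (m / 4) e ↑F ∧ B F) =
      PQ q (Rb L m) (fun F => L4 (m / 4) e ↑F) * PQ q (Rb L m) B :=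
  Pr_indep (ball_in hL he).1 hT hd (fun F _ => A4_local _ _ _ _ _ _ _ (Finset.Subset.refl _)) hB

end H973N
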