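import Pool.Agent.H973R3.NC.Defs

/-! Statements (with `sorry`) of the near-critical module, table `h973_tasks`. -/

namespace H973N

open H974 H12S Finset

/-! ### DV : derivatives -/

section DV
variable {E : Type*} [DecidableEq E]

theorem deriv_f (S : Finset E) (f : Finset E → Prop) (hf : ∀ F G : Finset E, F ⊆ G → f F → f G)
    (q : ℝ) :
    HasDerivAt (fun q : ℝ => Pr (fun _ => q) S f) (∑ e ∈ S, Pr (fun _ => q) S (Pf f e)) q := sorry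

theorem deriv_T (S core : Finset E) (hc : core ⊆ S) (f : Finset E → Prop)
    (hf : ∀ F G : Finset E, F ⊆ G → f F → f G) (q : ℝ) (h0 : 0 ≤ q) (h1 : q ≤ 1) :
    ∃ D : ℝ, HasDerivAt (fun q : ℝ => ∑ e ∈ core, Pr (fun _ => q) S (Pf f e)) D q ∧
      |D| ≤ ∑ e ∈ core, ∑ g ∈ S.erase e, Pr (fun _ => q) S (SD f e g) := sorry

end DV

/-! ### ES : sum of the influences of edges -/

theorem edge_sum {E : Type*} [DecidableEq E] {q : ℝ} (h0 : 1 / 4 ≤ q) (h1 : q ≤ 3 / 4)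
    {S G : Finset E} (hG : G ⊆ S) (f : Finset E → Prop)
    (hf : ∀ F G : Finset E, F ⊆ G → f F → f G) :
    ∑ g ∈ G, Pr (fun _ => q) S (Pf f g) ≤ 3 * Real.sqrt G.card := sorry

/-! ### A4 : local four-arm events -/

theorem piv_A4 {I J : Set Vtx} {η : Set Edg} {e : Edg} {a b c d : ℤ} (he : inR a b c d (src e))
    (he' : inR a b c d (tgt e)) (hI : Off a b c d I J) (h1 : Cn I J (insert e η))
    (h2 : ¬ Cn I J (η \ {e})) : A4 a b c d e η := sorry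

theorem A4_congr {a b c d : ℤ} {e : Edg} {F F' : Set Edg}
    (h : ∀ g ∈ RE a b c d, g ≠ e → (g ∈ F ↔ g ∈ F')) : A4 a b c d e F ↔ A4 a b c d e F' := sorry

theorem pr_L4 {q : ℝ} (h0 : 0 ≤ q) (h1 : q ≤ 1) {ρ : ℕ} {e : Edg} {S : Finset Edg}
    (hS : blk (bp e) ρ ⊆ S) : PQ q S (fun F => L4 ρ e ↑F) ≤ a4 q ρ := sorry

/-- Local four-arm event from pivotality, with forced open edges away from the ball. -/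
theorem piv_L4 {I J : Set Vtx} {O : Set Edg} {ρ : ℕ} (hρ : 1 ≤ ρ) {e : Edg} {F : Finset Edg}
    (hO : ∀ g ∈ O, g ∉ blk (bp e) ρ)
    (hI : Off (e.1 - ρ) (e.1 + ρ) (e.2.1 - ρ) (e.2.1 + ρ) I J)
    (h : Pf (CO I J O) e F) : L4 ρ e ↑F := sorry

/-! ### TS : blocks on a grid -/

theorem tile_sum {q κ : ℝ} {n : ℕ} (h : Win q κ n) {S : Finset Edg} {I J : Set Vtx}
    {O : Set Edg} (hO : Disjoint O ↑S) {s R K : ℕ} (hs : 1 ≤ s) (hR : 1 ≤ R) (hRn : 2 * R ≤ n)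
    (hK1 : 1 ≤ K) (hK : 6 * R < K * s) (T : Finset (ℤ × ℤ))
    (hT : ∀ t ∈ T, blk (s * t.1, s * t.2) (3 * R) ⊆ S)
    (hIJ : ∀ t ∈ T, Off (s * t.1 - 3 * R) (s * t.1 + 3 * R) (s * t.2 - 3 * R) (s * t.2 + 3 * R) I J) :
    ∑ t ∈ T, PQ q S (Bf (CO I J O) (blk (s * t.1, s * t.2) R)) ≤
      2 * K ^ 2 * κ⁻¹ ^ 4 * Real.sqrt T.card := sorry

/-! ### WH : Whitney decomposition -/

theorem whitney_sum (κ : ℝ) (hκ : 0 < κ) : ∃ C : ℝ, 0 < C ∧ ∀ (q : ℝ) (n : ℕ), Win q κ n →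
    ∀ (a b c d : ℤ) (K Λ : ℕ), 1 ≤ Λ → 4 * 2^K ≤ n → b - a ≤ Λ * 2^K → d - c ≤ Λ * 2^K →
    ∀ (S : Finset Edg) (I J : Set Vtx) (O : Set Edg), Disjoint O ↑S → Off a b c d I J →
    ∀ G : Finset Edg, G ⊆ S → G ⊆ RE a b c d →
    (∀ g ∈ G, ∀ e ∈ RE (a + 1) (b - 1) (c + 1) (d - 1), dst e g ≤ 8 * 2^K → e ∈ S) →
    ∑ g ∈ G, PQ q S (Pf (CO I J O) g) ≤ C * Λ * W1s q K := sorry

/-! ### NP : near pairs -/

theorem near_sum (κ : ℝ) (hκ : 0 < κ) : ∃ C : ℝ, 0 < C ∧ ∀ (q : ℝ) (n : ℕ), Win q κ n →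
    ∀ (a b c d : ℤ) (K Λ : ℕ), 1 ≤ Λ → 12 * 2^K ≤ n →
    ∀ (I J : Set Vtx), Off a b c d I J →
    ∀ G : Finset Edg, (∀ e ∈ G, |e.1| ≤ Λ * 2^K ∧ |e.2.1| ≤ Λ * 2^K) →
    (∀ e ∈ G, (a + 24 * 2^K ≤ e.1 ∧ e.1 ≤ b - 24 * 2^K) ∧
      (c + 24 * 2^K ≤ e.2.1 ∧ e.2.1 ≤ d - 24 * 2^K)) →
    ∑ e ∈ G, ∑ g ∈ (RE a b c d).erase e, ind (dst e g ≤ 4 * 2^K) *
      PQ q (RE a b c d) (SD (fun F => Cn I J ↑F) e g) ≤ C * Λ * W2s q K := sorry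

/-! ### FP : far pairs -/

theorem far_sum (κ : ℝ) (hκ : 0 < κ) : ∃ C : ℝ, 0 < C ∧ ∀ (q : ℝ) (n : ℕ), Win q κ n →
    ∀ (a b c d : ℤ) (K Λ : ℕ), 2 ≤ K → 1 ≤ Λ → 12 * 2^K ≤ n → b - a ≤ Λ * 2^K →
    d - c ≤ Λ * 2^K → ∀ (I J : Set Vtx), Off a b c d I J →
    ∀ G : Finset Edg, (∀ e ∈ G, |e.1| ≤ Λ * 2^K ∧ |e.2.1| ≤ Λ * 2^K) →
    (∀ e ∈ G, (a + 24 * 2^K ≤ e.1 ∧ e.1 ≤ b - 24 * 2^K) ∧
      (c + 24 * 2^K ≤ e.2.1 ∧ e.2.1 ≤ d - 24 * 2^K)) →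
    ∑ e ∈ G, ∑ g ∈ (RE a b c d).erase e, ind (¬ dst e g ≤ 4 * 2^K) *
      PQ q (RE a b c d) (SD (fun F => Cn I J ↑F) e g) ≤
        C * Λ^3 * ((4:ℝ)^K * a4 q (2^K) * W1s q K) := sorry

/-! ### AR : arithmetic of the sums -/

theorem W_bounds {ε : ℝ} (h0 : 0 < ε) (h1 : ε < 1 / 4) : ∃ C : ℝ, 0 < C ∧
    ∀ (q A : ℝ) (K : ℕ), 0 ≤ q → q ≤ 1 → 1 ≤ A →
    (∀ k ≤ K, a4 q (2^k) ≤ A * ((2:ℝ)^k) ^ (-(5/4 : ℝ) + ε)) →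
    W1s q K ≤ C * A * ((2:ℝ)^K) ^ ((3/4 : ℝ) + ε) ∧
    W2s q K ≤ C * A^2 * ((2:ℝ)^K) ^ ((3/2 : ℝ) + 2 * ε) ∧
    (4:ℝ)^K * a4 q (2^K) * W1s q K ≤ C * A^2 * ((2:ℝ)^K) ^ ((3/2 : ℝ) + 2 * ε) := sorry

/-! ### CT : continuity argument -/

theorem bootstrap {ι : Type*} [Finite ι] (g : ι → ℝ → ℝ) (δ : ℝ) (hg : ∀ i, Continuous (g i))
    (h0 : ∀ i, g i 0 < 0)
    (h : ∀ t, 0 ≤ t → t ≤ δ → (∀ s, 0 ≤ s → s ≤ t → ∀ i, g i s ≤ 0) → ∀ i, g i t < 0) :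
    ∀ t, 0 ≤ t → t ≤ δ → ∀ i, g i t < 0 := sorry

/-- Continuity in the parameter. -/
theorem cont_Pr {E : Type*} [DecidableEq E] (S : Finset E) (A : Finset E → Prop) :
    Continuous (fun q : ℝ => Pr (fun _ => q) S A) := sorry

/-! ### WN : the window at the self-dual point -/

theorem win_half : ∃ κ : ℝ, 0 < κ ∧ ∀ n : ℕ, Win (1 / 2) κ n := sorry

end H973N
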